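import Pool.Agent.E2P.Defs

/-! [E2P-H1] Chebyshev: many primes in `(n, 2n]`. -/

namespace E2P

open Finset

private theorem h1_small (n : ℕ) (n_large : 2 < n) :
    ∏ x ∈ range (2 * n / 3 + 1), x ^ (Nat.centralBinom n).factorization x ≤
      (2 * n) ^ Nat.sqrt (2 * n) * 4 ^ (2 * n / 3) := by
  have n_pos : 0 < n := (Nat.zero_le _).trans_lt n_large
  have n2_pos : 1 ≤ 2 * n := by omega
  let S := {p ∈ Finset.range (2 * n / 3 + 1) | Nat.Prime p}
  let f x := x ^ n.centralBinom.factorization x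
  have : ∏ x ∈ S, f x = ∏ x ∈ Finset.range (2 * n / 3 + 1), f x := by
    refine Finset.prod_filter_of_ne fun p _ h => ?_
    contrapose h; dsimp only [f]
    rw [Nat.factorization_eq_zero_of_not_prime n.centralBinom h, pow_zero]
  change ∏ x ∈ Finset.range (2 * n / 3 + 1), f x ≤ _
  rw [← this, ← Finset.prod_filter_mul_prod_filter_not S (· ≤ Nat.sqrt (2 * n))]
  apply mul_le_mul'
  · refine (Finset.prod_le_prod' fun p _ => (?_ : f p ≤ 2 * n)).trans ?_
    · exact Nat.pow_factorization_choose_le (mul_pos two_pos n_pos)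
    have : (Finset.Icc 1 (Nat.sqrt (2 * n))).card = Nat.sqrt (2 * n) := by
      rw [Nat.card_Icc, Nat.add_sub_cancel]
    rw [Finset.prod_const]
    refine pow_right_mono₀ n2_pos ((Finset.card_le_card fun x hx => ?_).trans this.le)
    obtain ⟨h1, h2⟩ := Finset.mem_filter.1 hx
    exact Finset.mem_Icc.mpr ⟨(Finset.mem_filter.1 h1).2.one_lt.le, h2⟩
  · refine le_trans ?_ (primorial_le_four_pow (2 * n / 3))
    refine (Finset.prod_le_prod' fun p hp => (?_ : f p ≤ p)).trans ?_
    · obtain ⟨h1, h2⟩ := Finset.mem_filter.1 hp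
      refine (pow_right_mono₀ (Finset.mem_filter.1 h1).2.one_lt.le ?_).trans (pow_one p).le
      exact Nat.factorization_choose_le_one (Nat.sqrt_lt'.mp <| not_le.1 h2)
    refine Finset.prod_le_prod_of_subset_of_one_le' (Finset.filter_subset _ _) ?_
    exact fun p hp _ => (Finset.mem_filter.1 hp).2.one_lt.le

private theorem h1_binom (n : ℕ) (n_large : 2 < n) :
    Nat.centralBinom n ≤ (2 * n) ^ Nat.sqrt (2 * n) * 4 ^ (2 * n / 3) * (2 * n) ^ (PM n).card := by
  have n_pos : 0 < n := (Nat.zero_le _).trans_lt n_large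
  set f : ℕ → ℕ := fun x => x ^ n.centralBinom.factorization x with hf
  have h1 : ∏ p ∈ range (2 * n / 3 + 1) ∪ PM n, f p = Nat.centralBinom n := by
    refine Eq.trans ?_ n.prod_pow_factorization_centralBinom
    apply Finset.prod_subset
    · intro x hx
      rw [mem_union, mem_range, PM, mem_filter, mem_Ioc] at hx
      rw [mem_range]
      omega
    · intro x hx h2x
      rw [mem_range] at hx
      rw [mem_union, mem_range, PM, mem_filter, mem_Ioc] at h2x
      push Not at h2x
      obtain ⟨h3, h4⟩ := h2x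
      change x ^ n.centralBinom.factorization x = 1
      by_cases hp : x.Prime
      · have hxn : x ≤ n := by
          by_contra hcon
          exact h4 ⟨by omega, by omega⟩ hp
        rw [Nat.factorization_centralBinom_of_two_mul_self_lt_three_mul n_large hxn (by omega),
          pow_zero]
      · rw [Nat.factorization_eq_zero_of_not_prime n.centralBinom hp, pow_zero]
  have hdisj : Disjoint (range (2 * n / 3 + 1)) (PM n) := by
    rw [Finset.disjoint_left]
    intro x hx hx2
    rw [mem_range] at hx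
    rw [PM, mem_filter, mem_Ioc] at hx2
    omega
  rw [← h1, Finset.prod_union hdisj]
  refine Nat.mul_le_mul (h1_small n n_large) ?_
  have h2 : ∏ p ∈ PM n, f p ≤ ∏ p ∈ PM n, (2 * n) := by
    refine Finset.prod_le_prod' fun p _ => ?_
    exact Nat.pow_factorization_choose_le (mul_pos two_pos n_pos)
  rwa [Finset.prod_const] at h2

private theorem h1_log (n : ℕ) (hn : 4 ≤ n) :
    (n : ℝ) * Real.log 4 < Real.log n + √(2 * n) * Real.log (2 * n) + 2 * n / 3 * Real.log 4 +
      (PM n).card * Real.log (2 * n) := by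
  have h1 := Nat.four_pow_lt_mul_centralBinom n hn
  have h2 := h1_binom n (by omega)
  have h3 : 4 ^ n < n * ((2 * n) ^ Nat.sqrt (2 * n) * 4 ^ (2 * n / 3) * (2 * n) ^ (PM n).card) :=
    lt_of_lt_of_le h1 (Nat.mul_le_mul_left n h2)
  have h4 : ((4 : ℝ)) ^ n < n * ((2 * n) ^ Nat.sqrt (2 * n) * 4 ^ (2 * n / 3) *
      (2 * n) ^ (PM n).card) := by
    exact_mod_cast h3
  have hn0 : (0 : ℝ) < n := by
    have : 0 < n := by omega
    exact_mod_cast this
  have h5 := Real.log_lt_log (by positivity) h4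
  rw [Real.log_pow, Real.log_mul hn0.ne' (by positivity), Real.log_mul (by positivity) (by positivity),
    Real.log_mul (by positivity) (by positivity), Real.log_pow, Real.log_pow, Real.log_pow] at h5
  have hlog2n : 0 ≤ Real.log (2 * n) := by
    apply Real.log_nonneg
    have : (4 : ℝ) ≤ n := by exact_mod_cast hn
    linarith
  have hlog4 : 0 ≤ Real.log 4 := Real.log_nonneg (by norm_num)
  have e1 : ((Nat.sqrt (2 * n) : ℕ) : ℝ) * Real.log (2 * n) ≤ √(2 * n) * Real.log (2 * n) := by
    have := Real.nat_sqrt_le_real_sqrt (a := 2 * n)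
    push_cast at this
    gcongr
  have e2 : ((2 * n / 3 : ℕ) : ℝ) * Real.log 4 ≤ 2 * n / 3 * Real.log 4 := by
    have := Nat.cast_div_le (α := ℝ) (m := 2 * n) (n := 3)
    push_cast at this
    gcongr
  linarith

private theorem h1_est (n : ℕ) (hn : 160 ^ 4 ≤ n) :
    Real.log n + √(2 * n) * Real.log (2 * n) ≤ n / 10 := by
  have hnR : ((160 : ℝ)) ^ 4 ≤ n := by exact_mod_cast hn
  set y : ℝ := 2 * n with hy
  have hy1 : (160 : ℝ) ^ 4 ≤ y := by rw [hy]; linarith [show (0 : ℝ) ≤ n by positivity]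
  have hy0 : 0 < y := lt_of_lt_of_le (by norm_num) hy1
  have hyge1 : 1 ≤ y := le_trans (by norm_num) hy1
  have hq : 160 ≤ y ^ (1 / 4 : ℝ) := by
    have h1 : ((160 : ℝ) ^ 4) ^ (1 / 4 : ℝ) ≤ y ^ (1 / 4 : ℝ) :=
      Real.rpow_le_rpow (by positivity) hy1 (by norm_num)
    have h2 : ((160 : ℝ) ^ 4) ^ (1 / 4 : ℝ) = 160 := by
      rw [← Real.rpow_natCast, ← Real.rpow_mul (by norm_num)]
      norm_num
    linarith
  have hlog : Real.log y ≤ 4 * y ^ (1 / 4 : ℝ) := by
    have := Real.log_le_rpow_div hy0.le (show (0 : ℝ) < 1 / 4 by norm_num)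
    linarith
  have hsq : √y = y ^ (1 / 4 : ℝ) * y ^ (1 / 4 : ℝ) := by
    rw [Real.sqrt_eq_rpow, ← Real.rpow_add hy0]
    norm_num
  have hy4 : y = √y * (y ^ (1 / 4 : ℝ) * y ^ (1 / 4 : ℝ)) := by
    rw [← hsq, Real.mul_self_sqrt hy0.le]
  have hlogn : Real.log n ≤ Real.log y := by
    apply Real.log_le_log
    · exact lt_of_lt_of_le (by norm_num) hnR
    · rw [hy]; linarith [show (0 : ℝ) ≤ n by positivity]
  have hlogy0 : 0 ≤ Real.log y := Real.log_nonneg hyge1
  have hs1 : 1 ≤ √y := Real.one_le_sqrt.2 hyge1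
  have h3 : Real.log n ≤ √y * Real.log y := by nlinarith
  set q := y ^ (1 / 4 : ℝ) with hqdef
  have h4 : √y * Real.log y ≤ √y * (4 * q) := by gcongr
  have h5 : √y * (4 * q) ≤ y / 40 := by
    have h6 : √y * (4 * q) * 40 ≤ √y * (q * q) := by
      have : 0 ≤ √y * q := by positivity
      nlinarith
    rw [← hy4] at h6
    linarith
  have h7 : y / 40 + y / 40 = n / 10 := by rw [hy]; ring
  linarith

/-- Proof. Follow Mathlib's proof of Bertrand's postulate (`Mathlib/NumberTheory/Bertrand.lean`):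
`4^n < n * centralBinom n` for `n ≥ 4` (`Nat.four_pow_lt_mul_centralBinom`), and
`centralBinom n = ∏_{p ≤ 2n} p^{v_p}` (`Nat.prod_pow_factorization_centralBinom`); the primes
`p ≤ √(2n)` contribute at most `(2n)^{√(2n)}` (`Nat.pow_factorization_choose_le`), the primes
`√(2n) < p ≤ 2n/3` at most `∏ p ≤ 4^{2n/3}` (`primorial_le_four_pow`), there is none in
`(2n/3, n]` (`Nat.factorization_centralBinom_of_two_mul_self_lt_three_mul`), and the primes of
`(n, 2n]` at most `(2n)^{#PM n}`. So `(2n)^{#PM n} ≥ 4^{n/3} / (n (2n)^{√(2n)})`, i.e.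
`#PM n ≥ (n log 4/3) / log (2n) - √(2n) - 1 ≥ c n / log n` for large `n`; for the remaining `n ≥ 2`
`#PM n ≥ 1` (`Nat.exists_prime_lt_and_le_two_mul`) and one decreases `c`. -/
theorem cheb : ∃ c : ℝ, 0 < c ∧ c ≤ 1 ∧ ∀ n : ℕ, 2 ≤ n → c * n / Real.log n ≤ (PM n).card := by
  have hl2 : 0 < Real.log 2 := Real.log_pos (by norm_num)
  have hl2' : Real.log 2 < 1 := by
    have := Real.log_two_lt_d9
    linarith
  have hl2'' : 0.69 < Real.log 2 := by
    have := Real.log_two_gt_d9
    linarith
  refine ⟨Real.log 2 / 160 ^ 4, by positivity, ?_, ?_⟩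
  · rw [div_le_one (by positivity)]
    linarith [show (1 : ℝ) ≤ 160 ^ 4 by norm_num]
  · intro n hn
    have hnR : (2 : ℝ) ≤ n := by exact_mod_cast hn
    have hlogn : Real.log 2 ≤ Real.log n := Real.log_le_log (by norm_num) hnR
    have hlogn0 : 0 < Real.log n := lt_of_lt_of_le hl2 hlogn
    rcases lt_or_ge n (160 ^ 4) with hlt | hge
    · have hltR : (n : ℝ) ≤ 160 ^ 4 := by exact_mod_cast hlt.le
      obtain ⟨p, hp, hp1, hp2⟩ := Nat.exists_prime_lt_and_le_two_mul n (by omega)
      have hcard : 1 ≤ (PM n).card := by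
        apply Finset.card_pos.2
        exact ⟨p, by rw [PM, mem_filter, mem_Ioc]; exact ⟨⟨hp1, hp2⟩, hp⟩⟩
      have hcardR : (1 : ℝ) ≤ (PM n).card := by exact_mod_cast hcard
      refine le_trans ?_ hcardR
      rw [div_le_one hlogn0, div_mul_eq_mul_div, div_le_iff₀ (by positivity)]
      nlinarith
    · have h1 := h1_log n (le_trans (by norm_num) hge)
      have h2 := h1_est n hge
      have hlog4 : Real.log 4 = 2 * Real.log 2 := by
        rw [show (4 : ℝ) = 2 ^ 2 by norm_num, Real.log_pow]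
        norm_num
      have hlog2n : Real.log (2 * n) ≤ 2 * Real.log n := by
        rw [Real.log_mul (by norm_num) (by positivity)]
        linarith
      have hn0 : (0 : ℝ) ≤ n := by positivity
      have h3 : (n : ℝ) / 4 ≤ (PM n).card * Real.log (2 * n) := by
        rw [hlog4] at h1
        nlinarith
      have h4 : (PM n).card * Real.log (2 * n) ≤ (PM n).card * (2 * Real.log n) := by gcongr
      rw [div_le_iff₀ hlogn0]
      have h5 : Real.log 2 / 160 ^ 4 * n ≤ n / 8 := by
        have : Real.log 2 / 160 ^ 4 ≤ 1 / 8 := by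
          rw [div_le_div_iff₀ (by positivity) (by norm_num)]
          linarith [show (8 : ℝ) ≤ 160 ^ 4 by norm_num]
        nlinarith
      linarith

end E2P
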