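import Mathlib

/-!
E2P: products of exactly two primes in the class 1 mod p (MP_2f88e5_nt).
Common definitions.
-/

namespace E2P

open Finset

/-- `e(x) = exp(2πix)`. -/
noncomputable def ee (x : ℝ) : ℂ := Complex.exp (2 * Real.pi * x * Complex.I)

theorem ee_zero : ee 0 = 1 := by simp [ee]

theorem ee_add (x y : ℝ) : ee (x + y) = ee x * ee y := by
  unfold ee
  rw [← Complex.exp_add]
  congr 1
  push_cast
  ring

theorem norm_ee (x : ℝ) : ‖ee x‖ = 1 := by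
  unfold ee
  have : (2 * Real.pi * x * Complex.I : ℂ) = ((2 * Real.pi * x : ℝ) : ℂ) * Complex.I := by
    push_cast; ring
  rw [this, Complex.norm_exp_ofReal_mul_I]

theorem ee_int (n : ℤ) : ee n = 1 := by
  unfold ee
  rw [Complex.exp_eq_one_iff]
  exact ⟨n, by push_cast; ring⟩

theorem ee_add_int (x : ℝ) (n : ℤ) : ee (x + n) = ee x := by
  rw [ee_add, ee_int, mul_one]

theorem ee_conj (x : ℝ) : (starRingEnd ℂ) (ee x) = ee (-x) := by
  unfold ee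
  rw [← Complex.exp_conj]
  congr 1
  simp only [map_mul, Complex.conj_ofReal, Complex.conj_I, map_ofNat]
  push_cast
  ring

theorem ee_nat_mul (n : ℕ) (x : ℝ) : ee (n * x) = ee x ^ n := by
  unfold ee
  rw [← Complex.exp_nat_mul]
  congr 1
  push_cast
  ring

theorem ee_int_mul (n : ℤ) (x : ℝ) : ee (n * x) = ee x ^ n := by
  unfold ee
  rw [← Complex.exp_int_mul]
  congr 1
  push_cast
  ring

/-- link with the standard additive character of `ZMod q` -/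
theorem ee_std (q : ℕ) [NeZero q] (a : ZMod q) (h : ℤ) :
    ee (h * ((a.val : ℝ) / q)) = ZMod.stdAddChar ((h : ZMod q) * a) := by
  have h1 : (h : ZMod q) * a = ((h * (a.val : ℤ) : ℤ) : ZMod q) := by
    push_cast
    rw [ZMod.natCast_zmod_val]
  rw [h1, ZMod.stdAddChar_coe]
  unfold ee
  congr 1
  push_cast
  ring

/-- The Fejér kernel. -/
noncomputable def FK (J : ℕ) (x : ℝ) : ℝ := ‖∑ j ∈ range J, ee (j * x)‖ ^ 2 / J

/-- The primes in `[L, 2L]`. -/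
def PL (L : ℕ) : Finset ℕ := (Icc L (2 * L)).filter Nat.Prime

/-- The primes in `(M, 2M]`. -/
def PM (M : ℕ) : Finset ℕ := (Ioc M (2 * M)).filter Nat.Prime

/-- The number of pairs `(q, l)` in `E × S` with `l m ≡ 1 mod q`. -/
def AA (E S : Finset ℕ) (m : ℕ) : ℕ := ((E ×ˢ S).filter fun x => x.2 * m ≡ 1 [MOD x.1]).card

/-- The number of `m` in `(M, 2M]` with `l m ≡ 1 mod q`. -/
def N1 (M q l : ℕ) : ℕ := ((Ioc M (2 * M)).filter fun m => l * m ≡ 1 [MOD q]).card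

/-- The number of `m` in `(M, 2M]` with `l m ≡ 1 mod q` and `l' m ≡ 1 mod q'`. -/
def N2 (M q q' l l' : ℕ) : ℕ :=
  ((Ioc M (2 * M)).filter fun m => l * m ≡ 1 [MOD q] ∧ l' * m ≡ 1 [MOD q']).card

/-- The number of pairs `(l, m)`, `l` a prime in `[L, 2L]`, `m` a prime in `(M, 2M]`, with
`l m ≡ 1 mod q`. -/
def TT (L M q : ℕ) : ℕ := ((PL L ×ˢ PM M).filter fun x => x.1 * x.2 ≡ 1 [MOD q]).card

/-- The point `- (nq)⁻¹ / l + (l'⁻¹ - l⁻¹) n⁻¹ / q` of `ℝ / ℤ` (the first inverse is modulo `l`, the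
other ones are modulo `q`). -/
noncomputable def xx (l l' q n : ℕ) : ℝ :=
  -(((((n : ZMod l) * (q : ZMod l))⁻¹ : ZMod l).val : ℝ) / l) +
    (((((l' : ZMod q)⁻¹ - (l : ZMod q)⁻¹) * (n : ZMod q)⁻¹ : ZMod q).val : ℝ) / q)

/-- The index set: triples `((l, l'), h)` with `l ≠ l'` in `S` and `0 < |h| < J`. -/
noncomputable def TS (S : Finset ℕ) (J : ℕ) : Finset ((ℕ × ℕ) × ℤ) :=
  S.offDiag ×ˢ ((Ioo (-(J : ℤ)) J).erase 0)

/-- The summand attached to a triple. -/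
noncomputable def ff (q : ℕ) (t : (ℕ × ℕ) × ℤ) (n : ℕ) : ℂ :=
  if t.1.1 ∣ n then 0 else ee (t.2 * xx t.1.1 t.1.2 q n)

/-- The frequency modulo `q` attached to a pair of triples. -/
def BB (q : ℕ) (t t' : (ℕ × ℕ) × ℤ) : ZMod q :=
  (t.2 : ZMod q) * ((t.1.2 : ZMod q)⁻¹ - (t.1.1 : ZMod q)⁻¹) -
    (t'.2 : ZMod q) * ((t'.1.2 : ZMod q)⁻¹ - (t'.1.1 : ZMod q)⁻¹)

/-- The sum over nonzero frequencies. -/
noncomputable def bb (S : Finset ℕ) (J : ℕ) (p : ℤ → ℂ) (q n : ℕ) : ℂ :=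
  ∑ t ∈ TS S J, p t.2 * ff q t n

theorem mem_TS {S : Finset ℕ} {J : ℕ} {t : (ℕ × ℕ) × ℤ} :
    t ∈ TS S J ↔ t.1.1 ∈ S ∧ t.1.2 ∈ S ∧ t.1.1 ≠ t.1.2 ∧ t.2 ≠ 0 ∧ |t.2| < J := by
  unfold TS
  rw [mem_product, mem_offDiag, mem_erase, mem_Ioo, abs_lt]
  tauto

theorem norm_ff_le (q : ℕ) (t : (ℕ × ℕ) × ℤ) (n : ℕ) : ‖ff q t n‖ ≤ 1 := by
  unfold ff
  split_ifs
  · simp
  · rw [norm_ee]

end E2P
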