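import Pool.Agent.E2P.Defs

/-! [E2P-F1a] The Fejer kernel: expansion. -/

namespace E2P

open Finset

private theorem F1a_card (J : ℕ) (h : ℤ) (hh : h ∈ Ioo (-(J : ℤ)) J) :
    ((((range J ×ˢ range J).filter fun p : ℕ × ℕ => (p.1 : ℤ) - p.2 = h).card : ℕ) : ℝ) =
      J - |(h : ℝ)| := by
  rw [mem_Ioo] at hh
  have h1 : ((range J ×ˢ range J).filter fun p : ℕ × ℕ => (p.1 : ℤ) - p.2 = h) =
      (range (J - h.natAbs)).image fun k => (k + h.toNat, k + (-h).toNat) := by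
    ext ⟨a, b⟩
    simp only [mem_filter, mem_product, mem_range, mem_image, Prod.mk.injEq]
    constructor
    · rintro ⟨⟨ha, hb⟩, hab⟩
      exact ⟨a - h.toNat, by omega, by omega, by omega⟩
    · rintro ⟨k, hk, rfl, rfl⟩
      refine ⟨⟨by omega, by omega⟩, ?_⟩
      push_cast
      omega
  rw [h1, card_image_of_injective, card_range, Nat.cast_sub (by omega)]
  · rw [Nat.cast_natAbs]
    push_cast
    ring
  · intro k l hkl
    simp only [Prod.mk.injEq] at hkl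
    omega

private theorem F1a_sq (J : ℕ) (x : ℝ) :
    ((‖∑ j ∈ range J, ee (j * x)‖ ^ 2 : ℝ) : ℂ) =
      ∑ h ∈ Ioo (-(J : ℤ)) J, ((J - |(h : ℝ)| : ℝ) : ℂ) * ee (h * x) := by
  have h1 : ((‖∑ j ∈ range J, ee (j * x)‖ ^ 2 : ℝ) : ℂ) =
      ∑ p ∈ range J ×ˢ range J, ee ((((p.1 : ℤ) - p.2 : ℤ) : ℝ) * x) := by
    rw [← Complex.normSq_eq_norm_sq, ← Complex.mul_conj, map_sum, sum_mul_sum, ← sum_product']
    refine sum_congr rfl fun p _ => ?_
    rw [ee_conj, ← ee_add]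
    congr 1
    push_cast
    ring
  rw [h1, ← sum_fiberwise_of_maps_to (s := range J ×ˢ range J) (t := Ioo (-(J : ℤ)) J)
    (g := fun p : ℕ × ℕ => (p.1 : ℤ) - p.2)]
  · refine sum_congr rfl fun h hh => ?_
    rw [← F1a_card J h hh]
    rw [sum_congr rfl (g := fun _ => ee ((h : ℝ) * x))]
    · rw [sum_const, nsmul_eq_mul]
      push_cast
      rfl
    · intro p hp
      rw [mem_filter] at hp
      rw [hp.2]
  · intro p hp
    rw [mem_product, mem_range, mem_range] at hp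
    rw [mem_Ioo]
    omega

/-- Expansion. Proof. `‖∑_{j<J} e(jx)‖² = (∑_a e(ax)) * conj (∑_b e(bx)) = ∑_{a,b<J} e((a-b)x)`
(`Complex.mul_conj`, `Complex.normSq_eq_norm_sq`, `ee_conj`, `ee_add`). Group by `h = a - b`
(an integer with `-J < h < J`): the number of pairs `(a,b)` in `[0,J)²` with `a - b = h` is
`J - |h|`. Divide by `J`. -/
theorem FK_eq (J : ℕ) (hJ : 1 ≤ J) (x : ℝ) :
    (FK J x : ℂ) = ∑ h ∈ Ioo (-(J : ℤ)) J, ((1 - |(h : ℝ)| / J : ℝ) : ℂ) * ee (h * x) := by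
  have hJ0 : (J : ℝ) ≠ 0 := by positivity
  have hJc : (J : ℂ) ≠ 0 := by exact_mod_cast hJ0
  unfold FK
  rw [Complex.ofReal_div, F1a_sq, sum_div]
  refine sum_congr rfl fun h _ => ?_
  push_cast
  field_simp

end E2P
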