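import Pool.Agent.E2P.Defs

/-! [E2P-F1b] The Fejer kernel: partition of unity. -/

namespace E2P

open Finset

private theorem F1b_geom (J : ℕ) (a b : ℕ) (ha : a < J) (hb : b < J) :
    ∑ i ∈ range J, ee (i * (((b : ℝ) - a) / J)) = if a = b then (J : ℂ) else 0 := by
  have hJ0 : (J : ℝ) ≠ 0 := by
    have : 0 < J := by omega
    positivity
  split_ifs with hab
  · subst hab
    simp [ee_zero]
  · set r : ℝ := ((b : ℝ) - a) / J with hr
    have h1 : ee r ≠ 1 := by
      intro h
      unfold ee at h
      rw [Complex.exp_eq_one_iff] at h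
      obtain ⟨n, hn⟩ := h
      have h2 : (r : ℂ) = n := by
        have h3 : (2 * Real.pi * Complex.I : ℂ) ≠ 0 := by
          simp [Real.pi_ne_zero]
        apply mul_right_cancel₀ h3
        rw [← hn]
        ring
      have h4 : r = n := by exact_mod_cast h2
      rw [hr, div_eq_iff hJ0] at h4
      have h5 : (b : ℤ) - a = n * J := by exact_mod_cast h4
      have h6 : n = 0 := by
        by_contra hn0
        have h7 : (J : ℤ) ≤ |n * J| := by
          rw [abs_mul, Nat.abs_cast]
          have : 1 ≤ |n| := Int.one_le_abs hn0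
          nlinarith
        rw [← h5] at h7
        have h8 : |(b : ℤ) - a| < J := by
          rw [abs_lt]
          constructor <;> omega
        omega
      rw [h6, zero_mul] at h5
      omega
    have h2 : ∑ i ∈ range J, ee (i * r) = ∑ i ∈ range J, ee r ^ i :=
      sum_congr rfl fun i _ => ee_nat_mul i r
    rw [h2, geom_sum_eq h1]
    have h3 : ee r ^ J = 1 := by
      rw [← ee_nat_mul]
      have : (J : ℝ) * r = ((b - a : ℤ) : ℝ) := by
        rw [hr]
        push_cast
        field_simp
      rw [this, ee_int]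
    rw [h3, sub_self, zero_div]

private theorem F1b_sq (J : ℕ) (y : ℝ) :
    ((‖∑ j ∈ range J, ee (j * y)‖ ^ 2 : ℝ) : ℂ) =
      ∑ a ∈ range J, ∑ b ∈ range J, ee (((a : ℝ) - b) * y) := by
  rw [← Complex.normSq_eq_norm_sq, ← Complex.mul_conj, map_sum, sum_mul_sum]
  refine sum_congr rfl fun a _ => sum_congr rfl fun b _ => ?_
  rw [ee_conj, ← ee_add]
  congr 1
  ring

/-- Partition of unity. Proof. By the expansion `J * FK J y = ∑_{a,b<J} e((a-b)y)` (as complex
numbers; better reprove it directly than to use `FK_eq`). With `y = x - (j0+i)/J` the sum over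
`i < J` of `e((a-b)(x-(j0+i)/J))` is `e((a-b)(x-j0/J)) * ∑_{i<J} e(-(a-b) i/J)`, and
`∑_{i<J} e(-(a-b)i/J) = J` if `a = b` and `= 0` if `a ≠ b` (geometric sum: the ratio
`ω = e(-(a-b)/J)` satisfies `ω^J = 1` and `ω ≠ 1` because `0 < |a-b| < J`). So the total of
`J * FK` is `∑_a J = J²`. -/
theorem FK_sum (J : ℕ) (hJ : 1 ≤ J) (x : ℝ) (j0 : ℤ) :
    ∑ i ∈ range J, FK J (x - (j0 + i) / J) = J := by
  have hJ0 : (J : ℝ) ≠ 0 := by positivity
  have hJc : (J : ℂ) ≠ 0 := by exact_mod_cast hJ0
  have key : ∑ i ∈ range J, ((‖∑ j ∈ range J, ee (j * (x - (j0 + i) / J))‖ ^ 2 : ℝ) : ℂ) =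
      (J : ℂ) * J := by
    calc ∑ i ∈ range J, ((‖∑ j ∈ range J, ee (j * (x - (j0 + i) / J))‖ ^ 2 : ℝ) : ℂ)
        = ∑ i ∈ range J, ∑ a ∈ range J, ∑ b ∈ range J,
            ee (((a : ℝ) - b) * (x - (j0 + i) / J)) :=
          sum_congr rfl fun i _ => F1b_sq J _
      _ = ∑ a ∈ range J, ∑ b ∈ range J, ∑ i ∈ range J,
            ee (((a : ℝ) - b) * (x - (j0 + i) / J)) := by
          rw [sum_comm]
          exact sum_congr rfl fun a _ => sum_comm
      _ = ∑ a ∈ range J, ∑ b ∈ range J, if a = b then (J : ℂ) else 0 := by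
          refine sum_congr rfl fun a ha => sum_congr rfl fun b hb => ?_
          rw [mem_range] at ha hb
          have h1 : ∑ i ∈ range J, ee (((a : ℝ) - b) * (x - (j0 + i) / J)) =
              ee (((a : ℝ) - b) * (x - j0 / J)) *
                ∑ i ∈ range J, ee (i * (((b : ℝ) - a) / J)) := by
            rw [mul_sum]
            refine sum_congr rfl fun i _ => ?_
            rw [← ee_add]
            congr 1
            ring
          rw [h1, F1b_geom J a b ha hb]
          split_ifs with hab
          · subst hab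
            simp [ee_zero]
          · rw [mul_zero]
      _ = ∑ a ∈ range J, (J : ℂ) := by
          refine sum_congr rfl fun a ha => ?_
          rw [sum_ite_eq, if_pos ha]
      _ = (J : ℂ) * J := by
          rw [sum_const, card_range, nsmul_eq_mul]
  have key2 : ∑ i ∈ range J, ‖∑ j ∈ range J, ee (j * (x - (j0 + i) / J))‖ ^ 2 = (J : ℝ) * J := by
    exact_mod_cast key
  unfold FK
  rw [← sum_div, key2, mul_div_assoc, div_self hJ0, mul_one]

end E2P
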