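import Pool.Agent.E2P.Defs

/-! [E2P-F2a] The Fejer kernel: decay. -/

namespace E2P

open Finset

/-- Proof. Let `r = x - round x`, `|r| ≤ 1/2` (`abs_sub_round`), so `δ ≤ |r|` (take `n = round x`).
`‖e(x) - 1‖ = ‖e(r) - 1‖` (`ee_add_int`) `= 2 |sin (π r)|` (`Complex.norm_exp_I_mul_ofReal_sub_one`)
and `|sin(π r)| ≥ (2/π) |π r| = 2|r|` (`Real.mul_abs_le_abs_sin`). -/
theorem norm_ee_sub_one_ge (x δ : ℝ) (h : ∀ n : ℤ, δ ≤ |x - n|) : 4 * δ ≤ ‖ee x - 1‖ := by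
  have h1 := h (round x)
  have h2 : |x - round x| ≤ 1 / 2 := abs_sub_round x
  set r : ℝ := x - round x with hr
  have h3 : ee x = ee r := by
    rw [← ee_add_int r (round x)]
    congr 1
    rw [hr]
    ring
  have h4 : ee r = Complex.exp (Complex.I * ((2 * Real.pi * r : ℝ) : ℂ)) := by
    unfold ee
    congr 1
    push_cast
    ring
  rw [h3, h4, Complex.norm_exp_I_mul_ofReal_sub_one, Real.norm_eq_abs, abs_mul, abs_two]
  have h5 : 2 * Real.pi * r / 2 = Real.pi * r := by ring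
  rw [h5]
  have h6 : |Real.pi * r| ≤ Real.pi / 2 := by
    rw [abs_mul, abs_of_pos Real.pi_pos]
    nlinarith [Real.pi_pos]
  have h7 := Real.mul_abs_le_abs_sin h6
  rw [abs_mul, abs_of_pos Real.pi_pos] at h7
  have h8 : 2 / Real.pi * (Real.pi * |r|) = 2 * |r| := by
    have := Real.pi_ne_zero
    field_simp
  rw [h8] at h7
  linarith

/-- Proof. `(∑_{j<J} e(jx)) (e(x) - 1) = e(Jx) - 1` (`geom_sum_mul`, `ee_nat_mul`), norm at most
2. -/
theorem norm_geom_mul_le (J : ℕ) (x : ℝ) : ‖∑ j ∈ range J, ee (j * x)‖ * ‖ee x - 1‖ ≤ 2 := by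
  have h2 : ∑ j ∈ range J, ee (j * x) = ∑ j ∈ range J, ee x ^ j :=
    sum_congr rfl fun j _ => ee_nat_mul j x
  rw [← norm_mul, h2, geom_sum_mul]
  calc ‖ee x ^ J - 1‖ ≤ ‖ee x ^ J‖ + ‖(1 : ℂ)‖ := norm_sub_le _ _
    _ = 2 := by
      rw [norm_pow, norm_ee, one_pow, norm_one]
      norm_num

/-- Proof. By the two previous lemmas `‖∑‖ * (4δ) ≤ 2`, i.e. `‖∑‖ ≤ 1/(2δ)`; square and divide by
`J`. -/
theorem FK_le (J : ℕ) (hJ : 1 ≤ J) (x δ : ℝ) (hδ : 0 < δ) (h : ∀ n : ℤ, δ ≤ |x - n|) :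
    FK J x ≤ 1 / (4 * J * δ ^ 2) := by
  have hJ0 : (0 : ℝ) < J := by positivity
  have h1 := norm_ee_sub_one_ge x δ h
  have h2 := norm_geom_mul_le J x
  unfold FK
  set N : ℝ := ‖∑ j ∈ range J, ee (j * x)‖ with hN
  have hN0 : 0 ≤ N := norm_nonneg _
  have h3 : N * (4 * δ) ≤ 2 := le_trans (mul_le_mul_of_nonneg_left h1 hN0) h2
  have h4 : 2 * (N * δ) ≤ 1 := by linarith
  have h5 : 0 ≤ N * δ := by positivity
  have h6 : 4 * (N * δ) ^ 2 ≤ 1 := by nlinarith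
  rw [div_le_div_iff₀ hJ0 (by positivity)]
  have h7 : N ^ 2 * (4 * J * δ ^ 2) = (4 * (N * δ) ^ 2) * J := by ring
  rw [h7, one_mul]
  nlinarith

/-- Proof. Induction on `n`: in fact `∑_{i<n} 1/(T+i)^2 ≤ 1/T^2 + 1/T - 1/(T+n-1)` for `n ≥ 1`
(using `1/(T+n)^2 ≤ 1/(T+n-1) - 1/(T+n)`, valid because `(T+n-1)(T+n) ≤ (T+n)^2`), and
`1/T^2 ≤ 1/T`. -/
theorem sum_inv_sq_le (T : ℝ) (hT : 1 ≤ T) (n : ℕ) :
    ∑ i ∈ range n, 1 / (T + i) ^ 2 ≤ 2 / T := by
  have hT0 : 0 < T := by linarith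
  have key : ∀ m : ℕ, ∑ i ∈ range (m + 1), 1 / (T + i) ^ 2 ≤ 1 / T ^ 2 + 1 / T - 1 / (T + m) := by
    intro m
    induction m with
    | zero => simp
    | succ m ih =>
      rw [sum_range_succ]
      have hm : (0 : ℝ) ≤ m := Nat.cast_nonneg m
      have h1 : 1 / (T + ((m + 1 : ℕ) : ℝ)) ^ 2 ≤ 1 / (T + m) - 1 / (T + ((m + 1 : ℕ) : ℝ)) := by
        push_cast
        have ha : 0 < T + m := by linarith
        have hb : 0 < T + (m + 1) := by linarith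
        rw [div_sub_div _ _ ha.ne' hb.ne', div_le_div_iff₀ (by positivity) (by positivity)]
        nlinarith
      linarith
  rcases n with _ | m
  · simp
    positivity
  · have h1 := key m
    have h2 : 1 / T ^ 2 ≤ 1 / T := by
      apply one_div_le_one_div_of_le hT0
      nlinarith
    have h3 : 0 ≤ 1 / (T + m) := by positivity
    have h4 : 2 / T = 1 / T + 1 / T := by ring
    rw [h4]
    linarith

end E2P
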