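import Pool.Agent.E2P.F2a

/-! [E2P-F2b] The Fejer kernel: tail. -/

namespace E2P

open Finset

private theorem F2b_pt (J n i : ℕ) (j0 : ℤ) (a b w x : ℝ) (hT : 1 ≤ J * w)
    (hj0 : (j0 : ℝ) - 1 < J * (a - w)) (hn : J * (b + w) < j0 + n) (hx : a ≤ x) (hx2 : x ≤ b)
    (hJ : 1 ≤ J) (hni : n ≤ i) (hiJ : i < J) :
    FK J (x - (j0 + i) / J) ≤
      (J : ℝ) / 4 * (1 / (J * w + (i - n : ℕ)) ^ 2 + 1 / (J * w + (J - 1 - i : ℕ)) ^ 2) := by
  have hJ0 : (0 : ℝ) < J := by positivity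
  set T : ℝ := J * w with hTdef
  have hT0 : 0 < T := by linarith
  set y : ℝ := ((j0 : ℝ) + i) / J - x with hy
  have hJy : (J : ℝ) * y = j0 + i - J * x := by
    rw [hy]
    field_simp
  have h1 : T + ((i - n : ℕ) : ℝ) ≤ J * y := by
    rw [hJy, Nat.cast_sub hni]
    have h2 : (J : ℝ) * x ≤ J * b := mul_le_mul_of_nonneg_left hx2 hJ0.le
    have h3 : (J : ℝ) * (b + w) = J * b + T := by rw [hTdef]; ring
    linarith
  have h2 : T + ((J - 1 - i : ℕ) : ℝ) ≤ J * (1 - y) := by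
    have h3 : ((J - 1 - i : ℕ) : ℝ) = (J : ℝ) - 1 - i := by
      rw [Nat.cast_sub (by omega), Nat.cast_sub hJ]
      norm_num
    have h4 : (J : ℝ) * a ≤ J * x := mul_le_mul_of_nonneg_left hx hJ0.le
    have h5 : (J : ℝ) * (a - w) = J * a - T := by rw [hTdef]; ring
    have h6 : (J : ℝ) * (1 - y) = J - J * y := by ring
    rw [h3, h6, hJy]
    linarith
  have hk : (0 : ℝ) ≤ ((i - n : ℕ) : ℝ) := Nat.cast_nonneg _
  have hl : (0 : ℝ) ≤ ((J - 1 - i : ℕ) : ℝ) := Nat.cast_nonneg _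
  have hy0 : 0 < y := by
    have : 0 < J * y := by linarith
    exact (mul_pos_iff_of_pos_left hJ0).1 this
  have hy1 : 0 < 1 - y := by
    have : 0 < J * (1 - y) := by linarith
    exact (mul_pos_iff_of_pos_left hJ0).1 this
  have hint : ∀ δ : ℝ, δ ≤ y → δ ≤ 1 - y → ∀ m : ℤ, δ ≤ |x - (j0 + i) / J - m| := by
    intro δ hd1 hd2 m
    have e1 : x - ((j0 : ℝ) + i) / J - m = -(y + m) := by
      rw [hy]
      ring
    rw [e1, abs_neg]
    rcases le_or_gt 0 m with hm | hm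
    · have : (0 : ℝ) ≤ m := by exact_mod_cast hm
      exact le_trans (by linarith) (le_abs_self _)
    · have : (m : ℝ) ≤ -1 := by
        have : m ≤ -1 := by omega
        exact_mod_cast this
      exact le_trans (by linarith) (neg_le_abs _)
  have key : ∀ δ : ℝ, 0 < δ → 1 / (4 * (J : ℝ) * δ ^ 2) = (J : ℝ) / 4 * (1 / (J * δ) ^ 2) := by
    intro δ hδ
    field_simp
  have hA : (J : ℝ) / 4 * (1 / (J * y) ^ 2) ≤
      (J : ℝ) / 4 * (1 / (T + ((i - n : ℕ) : ℝ)) ^ 2) := by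
    apply mul_le_mul_of_nonneg_left _ (by positivity)
    apply one_div_le_one_div_of_le (by positivity)
    exact pow_le_pow_left₀ (by positivity) h1 2
  have hB : (J : ℝ) / 4 * (1 / (J * (1 - y)) ^ 2) ≤
      (J : ℝ) / 4 * (1 / (T + ((J - 1 - i : ℕ) : ℝ)) ^ 2) := by
    apply mul_le_mul_of_nonneg_left _ (by positivity)
    apply one_div_le_one_div_of_le (by positivity)
    exact pow_le_pow_left₀ (by positivity) h2 2
  have hA0 : 0 ≤ (J : ℝ) / 4 * (1 / (T + ((i - n : ℕ) : ℝ)) ^ 2) := by positivity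
  have hB0 : 0 ≤ (J : ℝ) / 4 * (1 / (T + ((J - 1 - i : ℕ) : ℝ)) ^ 2) := by positivity
  rw [mul_add]
  rcases le_total y (1 - y) with hc | hc
  · have h := FK_le J hJ (x - (j0 + i) / J) y hy0 (hint y le_rfl hc)
    rw [key y hy0] at h
    linarith
  · have h := FK_le J hJ (x - (j0 + i) / J) (1 - y) hy1 (hint (1 - y) hc le_rfl)
    rw [key (1 - y) hy1] at h
    linarith

/-- Tail of the partition of unity. Proof. Put `T = J w ≥ 1`. For `n ≤ i < J` let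
`y = (j0+i)/J - x`. Then `J y = j0 + i - J x ≥ j0 + n - J b + (i - n) > T + (i-n) > 0` (by `hn` and
`x ≤ b`) and `J (1 - y) = J(x+1) - j0 - i > J (a + 1) - (J(a-w)+1) - i = T + (J-1-i) > 0` (by `hj0`
and `a ≤ x`). So `0 < y < 1` and every integer is at distance at least `min y (1-y)` from
`x - (j0+i)/J = -y`; by `FK_le`,
`FK J (-y) ≤ 1/(4 J min(y,1-y)^2) ≤ (1/(4J)) (1/y^2 + 1/(1-y)^2)
 = (J/4) (1/(Jy)^2 + 1/(J(1-y))^2) ≤ (J/4) (1/(T+(i-n))^2 + 1/(T+(J-1-i))^2)`.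
Sum over `i ∈ [n, J)`: both sums are of the form `∑_{k<J-n} 1/(T+k)^2 ≤ 2/T` (`sum_inv_sq_le`,
reindex `k = i-n`, `k = J-1-i`). Total `≤ (J/4)(4/T) = 1/w`. (If `n ≥ J` the sum is empty.) -/
theorem FK_tail (J n : ℕ) (j0 : ℤ) (a b w x : ℝ) (hw : 0 < w) (hT : 1 ≤ J * w)
    (hj0 : (j0 : ℝ) - 1 < J * (a - w)) (hn : J * (b + w) < j0 + n) (hx : a ≤ x) (hx2 : x ≤ b) :
    ∑ i ∈ Ico n J, FK J (x - (j0 + i) / J) ≤ 1 / w := by
  rcases Nat.eq_zero_or_pos J with h0 | hJ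
  · subst h0
    simp at hT
    linarith
  have hJ0 : (0 : ℝ) < J := by positivity
  rcases le_or_gt J n with hJn | hJn
  · rw [Ico_eq_empty (by omega), sum_empty]
    positivity
  have h1 : ∑ i ∈ Ico n J, FK J (x - (j0 + i) / J) ≤
      ∑ i ∈ Ico n J, (J : ℝ) / 4 *
        (1 / (J * w + (i - n : ℕ)) ^ 2 + 1 / (J * w + (J - 1 - i : ℕ)) ^ 2) := by
    refine sum_le_sum fun i hi => ?_
    rw [mem_Ico] at hi
    exact F2b_pt J n i j0 a b w x hT hj0 hn hx hx2 hJ hi.1 hi.2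
  have h2 : ∑ i ∈ Ico n J, 1 / ((J : ℝ) * w + (i - n : ℕ)) ^ 2 =
      ∑ k ∈ range (J - n), 1 / ((J : ℝ) * w + k) ^ 2 := by
    rw [sum_Ico_eq_sum_range]
    refine sum_congr rfl fun k _ => ?_
    rw [Nat.add_sub_cancel_left]
  have h3 : ∑ i ∈ Ico n J, 1 / ((J : ℝ) * w + (J - 1 - i : ℕ)) ^ 2 =
      ∑ k ∈ range (J - n), 1 / ((J : ℝ) * w + k) ^ 2 := by
    rw [sum_Ico_eq_sum_range, ← sum_range_reflect]
    refine sum_congr rfl fun k hk => ?_
    rw [mem_range] at hk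
    have : J - 1 - (n + (J - n - 1 - k)) = k := by omega
    rw [this]
  have h4 := sum_inv_sq_le (J * w) hT (J - n)
  rw [← mul_sum, sum_add_distrib, h2, h3] at h1
  have h5 : (J : ℝ) / 4 * (2 / (J * w) + 2 / (J * w)) = 1 / w := by
    field_simp
    norm_num
  rw [← h5]
  refine le_trans h1 ?_
  apply mul_le_mul_of_nonneg_left _ (by positivity)
  exact add_le_add h4 h4

end E2P
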