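import Pool.Agent.E2P.F2a

/-! [E2P-F3] The coefficients of the majorant. -/

namespace E2P

open Finset

/-- Proof. The sum is `e(-h j0/J) ∑_{i<n} ω^i` with `ω = e(-h/J)`; so
`‖∑‖ * ‖e(-h/J) - 1‖ ≤ 2` (`norm_geom_mul_le n (-h/J)`). Let `δ = min (|h|/J) (1 - |h|/J) > 0`; every
integer is at distance at least `δ` from `-h/J` (because `0 < |h|/J < 1`), so
`4 δ ≤ ‖e(-h/J) - 1‖` (`norm_ee_sub_one_ge`) and `‖∑‖ ≤ 1/(2δ)`. If `δ = |h|/J` then
`‖∑‖ (1-|h|/J) ≤ ‖∑‖ ≤ J/(2|h|)`. If `δ = 1 - |h|/J` then `‖∑‖ (1-|h|/J) ≤ 1/2 ≤ J/(2|h|)`. -/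
theorem coef_le (J : ℕ) (h : ℤ) (h0 : h ≠ 0) (hJ : |h| < J) (j0 : ℤ) (n : ℕ) :
    ‖∑ i ∈ range n, ee (-(h * (j0 + i) / J))‖ * (1 - |(h : ℝ)| / J) ≤ J / (2 * |(h : ℝ)|) := by
  have hhR : (0 : ℝ) < |(h : ℝ)| := by
    rw [abs_pos]
    exact_mod_cast h0
  have hJR : |(h : ℝ)| < J := by
    have h1 : ((|h| : ℤ) : ℝ) < ((J : ℤ) : ℝ) := by exact_mod_cast hJ
    rw [Int.cast_abs] at h1
    exact_mod_cast h1
  have hJ0 : (0 : ℝ) < J := hhR.trans hJR
  set r : ℝ := |(h : ℝ)| / J with hr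
  have hr0 : 0 < r := div_pos hhR hJ0
  have hr1 : r < 1 := (div_lt_one hJ0).2 hJR
  set x : ℝ := -((h : ℝ) / J) with hx
  have hxr : |x| = r := by
    rw [hx, abs_neg, abs_div, hr, abs_of_pos hJ0]
  have hsum : ∑ i ∈ range n, ee (-(h * (j0 + i) / J)) =
      ee (-(h * j0 / J)) * ∑ i ∈ range n, ee (i * x) := by
    rw [mul_sum]
    refine sum_congr rfl fun i _ => ?_
    rw [← ee_add]
    congr 1
    rw [hx]
    ring
  have hδ : ∀ m : ℤ, min r (1 - r) ≤ |x - m| := by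
    intro m
    by_cases hm : m = 0
    · rw [hm, Int.cast_zero, sub_zero, hxr]
      exact min_le_left _ _
    · have h1 : (1 : ℝ) ≤ |(m : ℝ)| := by
        have h2 : 1 ≤ |m| := Int.one_le_abs hm
        have h3 : ((1 : ℤ) : ℝ) ≤ ((|m| : ℤ) : ℝ) := by exact_mod_cast h2
        rw [Int.cast_abs, Int.cast_one] at h3
        exact h3
      have h4 : |(m : ℝ)| - |x| ≤ |x - m| := by
        rw [abs_sub_comm]
        exact abs_sub_abs_le_abs_sub _ _
      refine (min_le_right _ _).trans ?_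
      rw [hxr] at h4
      linarith
  have h1 := norm_ee_sub_one_ge x _ hδ
  have h2 := norm_geom_mul_le n x
  rw [hsum, norm_mul, norm_ee, one_mul]
  set S : ℝ := ‖∑ i ∈ range n, ee (i * x)‖ with hS
  have hS0 : 0 ≤ S := norm_nonneg _
  have h3 : S * (4 * min r (1 - r)) ≤ 2 := (mul_le_mul_of_nonneg_left h1 hS0).trans h2
  have hh : |(h : ℝ)| = r * J := by
    rw [hr]
    field_simp
  rw [le_div_iff₀ (by positivity), hh]
  have h4 : S * (1 - r) * (2 * r) ≤ 1 := by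
    rcases le_total r (1 - r) with h5 | h5
    · rw [min_eq_left h5] at h3
      have h6 : S * r ≤ 1 / 2 := by linarith
      have h7 : S * r * (1 - r) ≤ 1 / 2 * (1 - r) :=
        mul_le_mul_of_nonneg_right h6 (by linarith)
      nlinarith
    · rw [min_eq_right h5] at h3
      have h6 : S * (1 - r) ≤ 1 / 2 := by linarith
      have h7 : S * (1 - r) * r ≤ 1 / 2 * r := mul_le_mul_of_nonneg_right h6 hr0.le
      nlinarith
  calc S * (1 - r) * (2 * (r * J)) = S * (1 - r) * (2 * r) * J := by ring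
    _ ≤ 1 * J := mul_le_mul_of_nonneg_right h4 hJ0.le
    _ = J := one_mul _

end E2P
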