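import Pool.Agent.E2P.F1a
import Pool.Agent.E2P.F1b
import Pool.Agent.E2P.F2b
import Pool.Agent.E2P.F3

/-! [E2P-F4a] The trigonometric majorant of an interval. -/

namespace E2P

open Finset

private noncomputable def maj_P (J : ℕ) (c : ℝ) (j0 : ℤ) (n : ℕ) (x : ℝ) : ℝ :=
  c / J * ∑ i ∈ range n, FK J (x - (j0 + i) / J)

private noncomputable def maj_p (J : ℕ) (c : ℝ) (j0 : ℤ) (n : ℕ) (h : ℤ) : ℂ :=
  if |h| < J then ((c * (1 / J) : ℝ) : ℂ) * ((1 - |(h : ℝ)| / J : ℝ) : ℂ) *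
    ∑ i ∈ range n, ee (-(h * (j0 + i) / J)) else 0

private theorem maj_FK_nonneg (J : ℕ) (x : ℝ) : 0 ≤ FK J x := by
  unfold FK
  positivity

private theorem maj_P_nonneg (J : ℕ) (c : ℝ) (hc : 0 ≤ c) (j0 : ℤ) (n : ℕ) (x : ℝ) :
    0 ≤ maj_P J c j0 n x := by
  unfold maj_P
  exact mul_nonneg (div_nonneg hc (Nat.cast_nonneg _))
    (sum_nonneg fun i _ => maj_FK_nonneg J _)

private theorem maj_expand (J : ℕ) (hJ : 1 ≤ J) (c : ℝ) (j0 : ℤ) (n : ℕ) (x : ℝ) :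
    ∑ h ∈ Ioo (-(J : ℤ)) J, maj_p J c j0 n h * ee (h * x) = (maj_P J c j0 n x : ℂ) := by
  unfold maj_P
  push_cast
  have e1 : ∀ i ∈ range n, (FK J (x - (j0 + i) / J) : ℂ) =
      ∑ h ∈ Ioo (-(J : ℤ)) J, ((1 - |(h : ℝ)| / J : ℝ) : ℂ) * (ee (-(h * (j0 + i) / J)) *
        ee (h * x)) := by
    intro i _
    rw [FK_eq J hJ]
    refine sum_congr rfl fun h _ => ?_
    rw [← ee_add]
    congr 2
    ring
  rw [sum_congr rfl e1, sum_comm, mul_sum]
  refine sum_congr rfl fun h hh => ?_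
  have hlt : |h| < (J : ℤ) := by
    rw [mem_Ioo] at hh
    exact abs_lt.mpr hh
  unfold maj_p
  rw [if_pos hlt, mul_sum, sum_mul, mul_sum]
  refine sum_congr rfl fun i _ => ?_
  push_cast
  ring

private theorem maj_norm_sum_le (J : ℕ) (h : ℤ) (j0 : ℤ) (n : ℕ) :
    ‖∑ i ∈ range n, ee (-(h * (j0 + i) / J))‖ ≤ n := by
  refine (norm_sum_le _ _).trans ?_
  rw [sum_congr rfl fun i _ => norm_ee _]
  simp

private theorem maj_norm (J : ℕ) (c : ℝ) (hc : 0 ≤ c) (j0 : ℤ) (n : ℕ) (h : ℤ)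
    (hlt : |h| < (J : ℤ)) :
    ‖maj_p J c j0 n h‖ = c * (1 / J) *
      (‖∑ i ∈ range n, ee (-(h * (j0 + i) / J))‖ * (1 - |(h : ℝ)| / J)) := by
  have hlt' : |(h : ℝ)| < J := by exact_mod_cast hlt
  have hJ0 : (0 : ℝ) < J := lt_of_le_of_lt (abs_nonneg _) hlt'
  have h2 : 0 ≤ 1 - |(h : ℝ)| / J := by
    rw [sub_nonneg, div_le_one hJ0]
    exact hlt'.le
  unfold maj_p
  rw [if_pos hlt, norm_mul, norm_mul, Complex.norm_real, Complex.norm_real,
    Real.norm_of_nonneg h2, Real.norm_of_nonneg (by positivity)]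
  ring

/-- Proof. Let `j0 = ⌈J (a - w)⌉`, `j1 = ⌊J (b + w)⌋`, `n = (j1 - j0 + 1).toNat`. Then
`j0 - 1 < J(a-w) ≤ j0`, `J(b+w) < j1 + 1 = j0 + n` (note `j0 ≤ j1 + 1`, because
`J(b+w) - J(a-w) ≥ 2Jw ≥ 4 > 1`), `n ≤ J (b-a+2w) + 1`, and `n ≤ J` (as
`j1 ≤ J(b+w) < J(a-w) + J ≤ j0 + J`, so `j1 < j0 + J`). Let `c = 1/(1 - 1/(Jw))`,
`1 ≤ c ≤ 1 + 2/(Jw) ≤ 2` (as `Jw ≥ 2`) and `P(x) = c/J * ∑_{i<n} FK J (x - (j0+i)/J) ≥ 0`.
By `FK_eq` `P(x) = ∑_h p_h e(hx)` with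
`p_h = c * (1 - |h|/J) * (1/J) * ∑_{i<n} e(-h (j0+i)/J)` for `|h| < J` (put `p_h = 0` for `|h| ≥ J`).
This gives the first claim. Second claim: `P(x+m) = P(x)` for integers `m` (replace every
`ee (h (x+m))` by `ee (h x)`, `ee_add_int`), so we may assume `m = 0`, `a ≤ x ≤ b`; by `FK_sum` and
`FK_tail`, `∑_{i<n} FK J (x-(j0+i)/J) = J - ∑_{n≤i<J} ... ≥ J - 1/w = J (1 - 1/(Jw))`, so `P(x) ≥ 1`.
Third claim: `‖p_h‖ ≤ c n/J ≤ (1 + 2/(Jw)) (b-a+2w+1/J)`. Fourth claim: `coef_le` gives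
`‖p_h‖ ≤ c * (1/J) * J/(2|h|) ≤ 1/|h|`. -/
theorem majorant (J : ℕ) (a b w : ℝ) (hab : a ≤ b) (hw : 0 < w) (hJw : 2 ≤ J * w)
    (h1 : b - a + 2 * w < 1) :
    ∃ p : ℤ → ℂ,
      (∀ x : ℝ, ∃ r : ℝ, 0 ≤ r ∧ ∑ h ∈ Ioo (-(J : ℤ)) J, p h * ee (h * x) = r) ∧
      (∀ x : ℝ, ∀ m : ℤ, a ≤ x + m → x + m ≤ b →
        1 ≤ (∑ h ∈ Ioo (-(J : ℤ)) J, p h * ee (h * x)).re) ∧
      (∀ h, ‖p h‖ ≤ (b - a + 2 * w + 1 / J) * (1 + 2 / (J * w))) ∧
      (∀ h : ℤ, h ≠ 0 → |h| < J → ‖p h‖ ≤ 1 / |(h : ℝ)|) := by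
  have hJ1 : 1 ≤ J := by
    rcases Nat.eq_zero_or_pos J with h | h
    · subst h
      norm_num at hJw
    · exact h
  have hJ0 : (0 : ℝ) < J := by exact_mod_cast hJ1
  set T : ℝ := J * w with hT
  have hTpos : 0 < T := by linarith
  -- the integers `j0`, `j1`, `n`
  obtain ⟨j0, hj0a, hj0b⟩ : ∃ j0 : ℤ, (j0 : ℝ) - 1 < J * (a - w) ∧ J * (a - w) ≤ j0 :=
    ⟨⌈J * (a - w)⌉, by linarith [Int.ceil_lt_add_one (J * (a - w))], Int.le_ceil _⟩
  obtain ⟨j1, hj1a, hj1b⟩ : ∃ j1 : ℤ, (j1 : ℝ) ≤ J * (b + w) ∧ J * (b + w) < j1 + 1 :=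
    ⟨⌊J * (b + w)⌋, Int.floor_le _, Int.lt_floor_add_one _⟩
  have hdiff : (J : ℝ) * (b + w) - J * (a - w) = J * (b - a) + 2 * T := by
    rw [hT]; ring
  have hba : 0 ≤ (J : ℝ) * (b - a) := mul_nonneg hJ0.le (by linarith)
  have hle : j0 ≤ j1 := by
    have : (j0 : ℝ) < j1 + 1 := by linarith
    have h2 : j0 < j1 + 1 := by exact_mod_cast this
    omega
  obtain ⟨n, hn⟩ : ∃ n : ℕ, (n : ℤ) = j1 - j0 + 1 :=
    ⟨(j1 - j0 + 1).toNat, Int.toNat_of_nonneg (by omega)⟩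
  have hnR : (n : ℝ) = j1 - j0 + 1 := by exact_mod_cast hn
  have hn1 : (J : ℝ) * (b + w) < j0 + n := by rw [hnR]; linarith
  have hn2 : (n : ℝ) ≤ J * (b - a + 2 * w) + 1 := by
    have : (J : ℝ) * (b - a + 2 * w) = J * (b + w) - J * (a - w) := by ring
    rw [hnR, this]
    linarith
  have hn3 : n ≤ J := by
    have h2 : (J : ℝ) * (b - a + 2 * w) < J := by
      calc (J : ℝ) * (b - a + 2 * w) < J * 1 := mul_lt_mul_of_pos_left h1 hJ0
        _ = J := mul_one _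
    have h3 : (J : ℝ) * (b - a + 2 * w) = J * (b + w) - J * (a - w) := by ring
    have h4 : (j1 : ℝ) < j0 + J := by linarith
    have h5 : j1 < j0 + (J : ℤ) := by exact_mod_cast h4
    omega
  -- the constant
  obtain ⟨c, hc1, hc2, hc3, hc4⟩ : ∃ c : ℝ, 1 ≤ c ∧ c ≤ 1 + 2 / T ∧ c ≤ 2 ∧
      c * (1 - 1 / T) = 1 := by
    have hT1 : 0 < T - 1 := by linarith
    refine ⟨T / (T - 1), ?_, ?_, ?_, ?_⟩
    · rw [le_div_iff₀ hT1]
      linarith
    · rw [div_le_iff₀ hT1]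
      have : (1 + 2 / T) * (T - 1) = T + 1 - 2 / T := by
        field_simp
        ring
      rw [this]
      have : 2 / T ≤ 1 := by
        rw [div_le_one hTpos]
        exact hJw
      linarith
    · rw [div_le_iff₀ hT1]
      linarith
    · field_simp
  have hc0 : 0 ≤ c := by linarith
  have hper : ∀ (x : ℝ) (m : ℤ), ∑ h ∈ Ioo (-(J : ℤ)) J, maj_p J c j0 n h * ee (h * x) =
      (maj_P J c j0 n (x + m) : ℂ) := by
    intro x m
    rw [← maj_expand J hJ1]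
    refine sum_congr rfl fun h _ => ?_
    have : (h : ℝ) * (x + m) = h * x + ((h * m : ℤ) : ℝ) := by
      push_cast
      ring
    rw [this, ee_add_int]
  refine ⟨maj_p J c j0 n, ?_, ?_, ?_, ?_⟩
  · intro x
    exact ⟨maj_P J c j0 n x, maj_P_nonneg J c hc0 j0 n x, maj_expand J hJ1 c j0 n x⟩
  · intro x m hx1 hx2
    rw [hper x m, Complex.ofReal_re]
    have htail := FK_tail J n j0 a b w (x + m) hw (by linarith) hj0a hn1 hx1 hx2
    have hsum := FK_sum J hJ1 (x + m) j0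
    have hsplit : ∑ i ∈ range n, FK J (x + m - (j0 + i) / J) +
        ∑ i ∈ Ico n J, FK J (x + m - (j0 + i) / J) =
        ∑ i ∈ range J, FK J (x + m - (j0 + i) / J) := by
      rw [range_eq_Ico, range_eq_Ico]
      exact sum_Ico_consecutive _ (Nat.zero_le _) hn3
    have hlow : (J : ℝ) - 1 / w ≤ ∑ i ∈ range n, FK J (x + m - (j0 + i) / J) := by
      linarith
    unfold maj_P
    have hce : c / J * (J - 1 / w) = c * (1 - 1 / T) := by
      rw [hT]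
      field_simp
    calc (1 : ℝ) = c / J * (J - 1 / w) := by
          rw [hce, hc4]
      _ ≤ c / J * ∑ i ∈ range n, FK J (x + m - (j0 + i) / J) :=
          mul_le_mul_of_nonneg_left hlow (by positivity)
  · intro h
    by_cases hlt : |h| < (J : ℤ)
    · rw [maj_norm J c hc0 j0 n h hlt]
      have hlt' : |(h : ℝ)| < J := by exact_mod_cast hlt
      have h2 : 0 ≤ 1 - |(h : ℝ)| / J := by
        rw [sub_nonneg, div_le_one hJ0]
        exact hlt'.le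
      have h3 : 1 - |(h : ℝ)| / J ≤ 1 := by
        have : 0 ≤ |(h : ℝ)| / J := by positivity
        linarith
      have h4 : ‖∑ i ∈ range n, ee (-(h * (j0 + i) / J))‖ * (1 - |(h : ℝ)| / J) ≤ n * 1 :=
        mul_le_mul (maj_norm_sum_le J h j0 n) h3 h2 (Nat.cast_nonneg _)
      calc c * (1 / J) * (‖∑ i ∈ range n, ee (-(h * (j0 + i) / J))‖ * (1 - |(h : ℝ)| / J))
          ≤ c * (1 / J) * (n * 1) := mul_le_mul_of_nonneg_left h4 (by positivity)
        _ ≤ c * (1 / J) * (J * (b - a + 2 * w) + 1) := by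
            rw [mul_one]
            exact mul_le_mul_of_nonneg_left hn2 (by positivity)
        _ = (b - a + 2 * w + 1 / J) * c := by
            field_simp
        _ ≤ (b - a + 2 * w + 1 / J) * (1 + 2 / T) := by
            apply mul_le_mul_of_nonneg_left hc2
            have : 0 ≤ b - a := by linarith
            positivity
    · unfold maj_p
      rw [if_neg hlt, norm_zero]
      have : 0 ≤ b - a := by linarith
      positivity
  · intro h h0 hlt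
    rw [maj_norm J c hc0 j0 n h hlt]
    have hh : 0 < |(h : ℝ)| := by
      rw [abs_pos]
      exact_mod_cast h0
    calc c * (1 / J) * (‖∑ i ∈ range n, ee (-(h * (j0 + i) / J))‖ * (1 - |(h : ℝ)| / J))
        ≤ c * (1 / J) * (J / (2 * |(h : ℝ)|)) :=
          mul_le_mul_of_nonneg_left (coef_le J h h0 hlt j0 n) (by positivity)
      _ = c / 2 * (1 / |(h : ℝ)|) := by
          field_simp
      _ ≤ 1 * (1 / |(h : ℝ)|) := by
          apply mul_le_mul_of_nonneg_right _ (by positivity)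
          linarith
      _ = 1 / |(h : ℝ)| := one_mul _

end E2P
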