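import Pool.Agent.E2P.F4a

/-! [E2P-F4b] The majorant with simple parameters. -/

namespace E2P

open Finset

/-- Proof. Apply `majorant` with `w = κ (b-a)`: `J w = κ (b-a) J ≥ 2/κ ≥ 20`;
`b - a + 2w ≤ (1/2)(1+2/10) < 1`; `1/J ≤ κ²(b-a)/2`, so the bound of the third claim is at most
`(b-a)(1+2κ+κ²/2)(1+κ) ≤ (b-a)(1+4κ)`. -/
theorem majorant' (κ a b : ℝ) (J : ℕ) (hκ : 0 < κ) (hκ1 : κ ≤ 1 / 10) (hab : a < b)
    (hb : b - a ≤ 1 / 2) (hJ : 2 ≤ κ ^ 2 * (b - a) * J) :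
    ∃ p : ℤ → ℂ,
      (∀ x : ℝ, ∃ r : ℝ, 0 ≤ r ∧ ∑ h ∈ Ioo (-(J : ℤ)) J, p h * ee (h * x) = r) ∧
      (∀ x : ℝ, ∀ m : ℤ, a ≤ x + m → x + m ≤ b →
        1 ≤ (∑ h ∈ Ioo (-(J : ℤ)) J, p h * ee (h * x)).re) ∧
      (∀ h, ‖p h‖ ≤ (1 + 4 * κ) * (b - a)) ∧
      (∀ h : ℤ, h ≠ 0 → |h| < J → ‖p h‖ ≤ 1 / |(h : ℝ)|) := by
  have hd : 0 < b - a := sub_pos.2 hab
  have hκJ : 2 / κ ≤ J * (κ * (b - a)) := by
    rw [div_le_iff₀ hκ]
    calc (2 : ℝ) ≤ κ ^ 2 * (b - a) * J := hJ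
      _ = J * (κ * (b - a)) * κ := by ring
  have h20 : 20 ≤ 2 / κ := by
    rw [le_div_iff₀ hκ]
    linarith
  have hJw : 2 ≤ J * (κ * (b - a)) := by linarith
  have hJ0 : (0 : ℝ) < J := by
    by_contra hcon
    have h1 : (J : ℝ) = 0 := le_antisymm (not_lt.1 hcon) (Nat.cast_nonneg _)
    rw [h1, zero_mul] at hJw
    linarith
  have hsmall : b - a + 2 * (κ * (b - a)) < 1 := by nlinarith
  obtain ⟨p, hp1, hp2, hp3, hp4⟩ := majorant J a b (κ * (b - a)) hab.le (by positivity) hJw hsmall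
  refine ⟨p, hp1, hp2, fun h => (hp3 h).trans ?_, hp4⟩
  have h1 : (1 : ℝ) / J ≤ κ ^ 2 * (b - a) / 2 := by
    rw [div_le_iff₀ hJ0]
    linarith
  have h2 : 2 / (J * (κ * (b - a))) ≤ κ := by
    rw [div_le_iff₀ (by positivity)]
    rw [div_le_iff₀ hκ] at hκJ
    linarith
  have h3 : 0 ≤ 2 / (J * (κ * (b - a))) := by positivity
  calc (b - a + 2 * (κ * (b - a)) + 1 / J) * (1 + 2 / (J * (κ * (b - a))))
      ≤ (b - a + 2 * (κ * (b - a)) + κ ^ 2 * (b - a) / 2) * (1 + κ) := by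
        apply mul_le_mul _ _ _ _
        · linarith
        · linarith
        · linarith
        · positivity
    _ = (b - a) * ((1 + 2 * κ + κ ^ 2 / 2) * (1 + κ)) := by ring
    _ ≤ (b - a) * (1 + 4 * κ) := by
        apply mul_le_mul_of_nonneg_left _ hd.le
        nlinarith [sq_nonneg κ, mul_pos hκ hκ]
    _ = (1 + 4 * κ) * (b - a) := by ring

end E2P
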