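import Pool.Agent.E2P.Defs

/-! [E2P-G1a] Degenerate pairs: from the congruence to the equation. -/

namespace E2P

open Finset

private theorem G1a_bound (L J l1 l2 l3 l4 : ℕ) (h : ℤ) (hh : |h| < J)
    (a1 : L ≤ l1) (b1 : l1 ≤ 2 * L) (a2 : L ≤ l2) (b2 : l2 ≤ 2 * L)
    (b3 : l3 ≤ 2 * L) (b4 : l4 ≤ 2 * L) :
    |h * ((l1 : ℤ) - l2) * (l3 * l4)| ≤ 4 * J * L ^ 3 := by
  have e1 : |(l1 : ℤ) - l2| ≤ L := by
    rw [abs_le]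
    constructor <;> omega
  have e2 : |((l3 : ℤ) * l4)| ≤ (2 * L) * (2 * L) := by
    rw [abs_mul, Nat.abs_cast, Nat.abs_cast]
    have c3 : (l3 : ℤ) ≤ 2 * L := by exact_mod_cast b3
    have c4 : (l4 : ℤ) ≤ 2 * L := by exact_mod_cast b4
    exact mul_le_mul c3 c4 (by positivity) (by positivity)
  rw [abs_mul, abs_mul]
  calc |h| * |(l1 : ℤ) - l2| * |(l3 : ℤ) * l4| ≤ J * L * ((2 * L) * (2 * L)) :=
        mul_le_mul (mul_le_mul hh.le e1 (abs_nonneg _) (by positivity)) e2 (abs_nonneg _)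
          (by positivity)
    _ = 4 * J * L ^ 3 := by ring

/-- Proof. Let `t = ((l1,l2),h)`, `t' = ((l3,l4),h')`; all `l`'s are nonzero in `ZMod q` (primes
`≤ 2L < q`). `BB = 0` says `h (l2⁻¹ - l1⁻¹) = h' (l4⁻¹ - l3⁻¹)`; multiply by `l1 l2 l3 l4`:
`h (l1 - l2) l3 l4 = h' (l3 - l4) l1 l2` in `ZMod q` (`field_simp`), i.e. `q` divides the integer
`A - A'`, `A = h (l1-l2) l3 l4`, `A' = h' (l3-l4) l1 l2`. Since `|l1-l2| ≤ L`, `|A|, |A'| ≤ J L (2L)²`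
and `|A - A'| ≤ 8 J L³ < q`, so `A = A'` (`Int.eq_zero_of_abs_lt_dvd` or similar). -/
theorem BB_eq_zero (q L J : ℕ) [Fact q.Prime] (S : Finset ℕ)
    (hS : ∀ l ∈ S, l.Prime ∧ L ≤ l ∧ l ≤ 2 * L) (hL : 2 * L < q) (hbig : 8 * J * L ^ 3 < q)
    (t t' : (ℕ × ℕ) × ℤ) (ht : t ∈ TS S J) (ht' : t' ∈ TS S J) (hB : BB q t t' = 0) :
    t.2 * ((t.1.1 : ℤ) - t.1.2) * (t'.1.1 * t'.1.2) =
      t'.2 * ((t'.1.1 : ℤ) - t'.1.2) * (t.1.1 * t.1.2) := by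
  obtain ⟨⟨l1, l2⟩, h⟩ := t
  obtain ⟨⟨l3, l4⟩, h'⟩ := t'
  rw [mem_TS] at ht ht'
  obtain ⟨m1, m2, n12, hh0, hhJ⟩ := ht
  obtain ⟨m3, m4, n34, hh0', hhJ'⟩ := ht'
  unfold BB at hB
  simp only at *
  have nz : ∀ l ∈ S, (l : ZMod q) ≠ 0 := by
    intro l hl h0
    rw [ZMod.natCast_eq_zero_iff] at h0
    obtain ⟨p, a, b⟩ := hS l hl
    have := Nat.le_of_dvd p.pos h0
    omega
  have z1 := nz l1 m1
  have z2 := nz l2 m2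
  have z3 := nz l3 m3
  have z4 := nz l4 m4
  have hdvd : (q : ℤ) ∣ h * ((l1 : ℤ) - l2) * (l3 * l4) - h' * ((l3 : ℤ) - l4) * (l1 * l2) := by
    rw [← ZMod.intCast_zmod_eq_zero_iff_dvd _ q]
    push_cast
    have e1 : (h : ZMod q) * ((l1 : ZMod q) - l2) * (l3 * l4) =
        (h : ZMod q) * ((l2 : ZMod q)⁻¹ - (l1 : ZMod q)⁻¹) * (l1 * l2 * l3 * l4) := by
      field_simp
    have e2 : (h' : ZMod q) * ((l3 : ZMod q) - l4) * (l1 * l2) =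
        (h' : ZMod q) * ((l4 : ZMod q)⁻¹ - (l3 : ZMod q)⁻¹) * (l1 * l2 * l3 * l4) := by
      field_simp
    rw [e1, e2, ← sub_mul, hB, zero_mul]
  obtain ⟨_, a1, b1⟩ := hS l1 m1
  obtain ⟨_, a2, b2⟩ := hS l2 m2
  obtain ⟨_, a3, b3⟩ := hS l3 m3
  obtain ⟨_, a4, b4⟩ := hS l4 m4
  have A1 := G1a_bound L J l1 l2 l3 l4 h hhJ a1 b1 a2 b2 b3 b4
  have A2 := G1a_bound L J l3 l4 l1 l2 h' hhJ' a3 b3 a4 b4 b1 b2
  have hbig' : 8 * (J : ℤ) * L ^ 3 < q := by exact_mod_cast hbig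
  have hlt : |h * ((l1 : ℤ) - l2) * (l3 * l4) - h' * ((l3 : ℤ) - l4) * (l1 * l2)| < q := by
    have := abs_sub (h * ((l1 : ℤ) - l2) * (l3 * l4)) (h' * ((l3 : ℤ) - l4) * (l1 * l2))
    linarith
  have := Int.eq_zero_of_abs_lt_dvd hdvd hlt
  linarith

end E2P
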