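import Pool.Agent.E2P.Defs

/-! [E2P-G1b] Degenerate pairs: the equation. -/

namespace E2P

open Finset

private theorem G1b_one (l1 l2 l3 l4 : ℕ) (p1 : l1.Prime) (p2 : l2.Prime) (p3 : l3.Prime)
    (p4 : l4.Prime) (h12 : l1 ≠ l2) (h : ℤ)
    (hd : (l1 : ℤ) ∣ h * ((l1 : ℤ) - l2) * (l3 * l4)) :
    (l1 : ℤ) ∣ h ∨ l3 = l1 ∨ l4 = l1 := by
  have q1 : Prime (l1 : ℤ) := Nat.prime_iff_prime_int.1 p1
  rcases q1.dvd_or_dvd hd with h1 | h1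
  · rcases q1.dvd_or_dvd h1 with h2 | h2
    · exact Or.inl h2
    · exfalso
      have h3 : (l1 : ℤ) ∣ (l2 : ℤ) := by
        have := dvd_sub (dvd_refl (l1 : ℤ)) h2
        simpa using this
      have h4 : l1 ∣ l2 := by exact_mod_cast h3
      exact h12 ((Nat.prime_dvd_prime_iff_eq p1 p2).1 h4)
  · rcases q1.dvd_or_dvd h1 with h2 | h2
    · have h3 : l1 ∣ l3 := by exact_mod_cast h2
      exact Or.inr (Or.inl ((Nat.prime_dvd_prime_iff_eq p1 p3).1 h3).symm)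
    · have h3 : l1 ∣ l4 := by exact_mod_cast h2
      exact Or.inr (Or.inr ((Nat.prime_dvd_prime_iff_eq p1 p4).1 h3).symm)

/-- Proof. `l1` divides `h (l1 - l2) l3 l4`, and `l1 ∤ l1 - l2` (else `l1 ∣ l2`, so `l1 = l2`). So
`l1 ∣ h` or `l1 ∣ l3` (then `l1 = l3`) or `l1 ∣ l4` (then `l1 = l4`). The same for `l2`.
If `l1 ∤ h` and `l2 ∤ h`: `l1, l2 ∈ {l3, l4}` and `l1 ≠ l2`, hence the first alternative.
Otherwise `l1 ∣ h` or `l2 ∣ h`. They do not both divide `h`: else `l1 l2 ∣ h` (coprime), `h ≠ 0`, so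
`|h| ≥ l1 l2 ≥ L² ≥ J`, contradiction. So one of `l1, l2` does not divide `h`, and that one belongs
to `{l3, l4}`: second alternative. -/
theorem star_cases (L J l1 l2 l3 l4 : ℕ) (p1 : l1.Prime) (p2 : l2.Prime) (p3 : l3.Prime)
    (p4 : l4.Prime) (b1 : L ≤ l1) (b2 : L ≤ l2) (h12 : l1 ≠ l2) (h34 : l3 ≠ l4)
    (h h' : ℤ) (h0 : h ≠ 0) (hJ : |h| < J) (hJL : J ≤ L ^ 2)
    (star : h * ((l1 : ℤ) - l2) * (l3 * l4) = h' * ((l3 : ℤ) - l4) * (l1 * l2)) :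
    ((l3 = l1 ∧ l4 = l2) ∨ (l3 = l2 ∧ l4 = l1)) ∨
      (((l1 : ℤ) ∣ h ∨ (l2 : ℤ) ∣ h) ∧ (l3 = l1 ∨ l3 = l2 ∨ l4 = l1 ∨ l4 = l2)) := by
  have c1 : (l1 : ℤ) ∣ h ∨ l3 = l1 ∨ l4 = l1 := by
    apply G1b_one l1 l2 l3 l4 p1 p2 p3 p4 h12 h
    rw [star]
    exact ⟨h' * ((l3 : ℤ) - l4) * l2, by ring⟩
  have c2 : (l2 : ℤ) ∣ h ∨ l3 = l2 ∨ l4 = l2 := by
    apply G1b_one l2 l1 l3 l4 p2 p1 p3 p4 h12.symm h
    have e : h * ((l2 : ℤ) - l1) * (l3 * l4) = -(h' * ((l3 : ℤ) - l4) * (l1 * l2)) := by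
      rw [← star]
      ring
    rw [e]
    exact ⟨-(h' * ((l3 : ℤ) - l4) * l1), by ring⟩
  have nb : ¬ ((l1 : ℤ) ∣ h ∧ (l2 : ℤ) ∣ h) := by
    rintro ⟨u1, u2⟩
    have hc : IsCoprime (l1 : ℤ) (l2 : ℤ) :=
      Nat.isCoprime_iff_coprime.2 ((Nat.coprime_primes p1 p2).2 h12)
    have h3 : (l1 : ℤ) * l2 ∣ |h| := (dvd_abs _ _).2 (hc.mul_dvd u1 u2)
    have h4 := Int.le_of_dvd (abs_pos.2 h0) h3
    have h5 : (L : ℤ) * L ≤ l1 * l2 := by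
      have : L * L ≤ l1 * l2 := Nat.mul_le_mul b1 b2
      exact_mod_cast this
    have h6 : (J : ℤ) ≤ L ^ 2 := by exact_mod_cast hJL
    have h7 : (L : ℤ) ^ 2 = L * L := by ring
    omega
  rcases c1 with c1 | c1 | c1
  · rcases c2 with c2 | c2 | c2
    · exact absurd ⟨c1, c2⟩ nb
    · right
      exact ⟨Or.inl c1, Or.inr (Or.inl c2)⟩
    · right
      exact ⟨Or.inl c1, Or.inr (Or.inr (Or.inr c2))⟩
  · rcases c2 with c2 | c2 | c2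
    · right
      exact ⟨Or.inr c2, Or.inl c1⟩
    · exact absurd (c1.symm.trans c2) h12
    · left; left
      exact ⟨c1, c2⟩
  · rcases c2 with c2 | c2 | c2
    · right
      exact ⟨Or.inr c2, Or.inr (Or.inr (Or.inl c1))⟩
    · left; right
      exact ⟨c2, c1⟩
    · exact absurd (c1.symm.trans c2) h12

end E2P
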