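import Pool.Agent.E2P.Defs

/-! [E2P-G2a] Weighted sums over frequencies. -/

namespace E2P

open Finset

private theorem G2a_harm (J : ℕ) : ∑ n ∈ Ico 1 J, 1 / (n : ℝ) ≤ 1 + Real.log J := by
  have h1 : ∑ n ∈ Ico 1 J, 1 / (n : ℝ) ≤ ∑ i ∈ range J, 1 / ((i + 1 : ℕ) : ℝ) := by
    rw [sum_Ico_eq_sum_range]
    calc ∑ k ∈ range (J - 1), 1 / ((1 + k : ℕ) : ℝ)
        = ∑ k ∈ range (J - 1), 1 / ((k + 1 : ℕ) : ℝ) := by
          refine sum_congr rfl fun k _ => ?_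
          rw [add_comm]
      _ ≤ ∑ i ∈ range J, 1 / ((i + 1 : ℕ) : ℝ) := by
          apply sum_le_sum_of_subset_of_nonneg
          · exact range_mono (by omega)
          · intro i _ _
            positivity
  refine h1.trans ?_
  have h2 := harmonic_le_one_add_log J
  unfold harmonic at h2
  push_cast at h2
  simpa [one_div] using h2

private theorem G2a_set (J : ℕ) :
    (Ioo (-(J : ℤ)) J).erase 0 =
      (Ico 1 J).image (fun n : ℕ => (n : ℤ)) ∪ (Ico 1 J).image (fun n : ℕ => -(n : ℤ)) := by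
  ext h
  simp only [mem_erase, mem_Ioo, mem_union, mem_image, mem_Ico]
  constructor
  · rintro ⟨h0, h1, h2⟩
    rcases lt_or_gt_of_ne h0 with h3 | h3
    · right
      exact ⟨h.natAbs, by omega, by omega⟩
    · left
      exact ⟨h.natAbs, by omega, by omega⟩
  · rintro (⟨n, hn, rfl⟩ | ⟨n, hn, rfl⟩)
    · omega
    · omega

/-- Proof. Split into positive and negative `h`; each half is at most
`∑_{1≤h<J} 1/h ≤ 1 + log J` (`harmonic_le_one_add_log`). -/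
theorem sum_w (J : ℕ) (hJ : 1 ≤ J) (w : ℤ → ℝ)
    (hw : ∀ h : ℤ, h ≠ 0 → |h| < J → w h ≤ 1 / |(h : ℝ)|) :
    ∑ h ∈ (Ioo (-(J : ℤ)) J).erase 0, w h ≤ 2 * (1 + Real.log J) := by
  rw [G2a_set, sum_union, sum_image, sum_image]
  · have h1 : ∑ n ∈ Ico 1 J, w (n : ℤ) ≤ ∑ n ∈ Ico 1 J, 1 / (n : ℝ) := by
      refine sum_le_sum fun n hn => ?_
      rw [mem_Ico] at hn
      have := hw n (by omega) (by rw [Nat.abs_cast]; exact_mod_cast hn.2)
      simpa using this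
    have h2 : ∑ n ∈ Ico 1 J, w (-(n : ℤ)) ≤ ∑ n ∈ Ico 1 J, 1 / (n : ℝ) := by
      refine sum_le_sum fun n hn => ?_
      rw [mem_Ico] at hn
      have := hw (-n) (by omega) (by rw [abs_neg, Nat.abs_cast]; exact_mod_cast hn.2)
      simpa using this
    have h3 := G2a_harm J
    linarith
  · intro a _ b _ hab
    simpa using hab
  · intro a _ b _ hab
    simpa using hab
  · rw [disjoint_left]
    intro h h1 h2
    simp only [mem_image, mem_Ico] at h1 h2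
    obtain ⟨a, ha, rfl⟩ := h1
    obtain ⟨b, hb, hab⟩ := h2
    omega

/-- Proof. Write `h = l k`, `k ≠ 0`, `|k| < J` (as `|k| ≤ |h| < J`); `w h ≤ 1/(l |k|)`; so the sum is
at most `(1/l) ∑_{0<|k|<J} 1/|k| ≤ (2/l)(1 + log J)` (inject the index set into
`(Ioo (-J) J).erase 0` by `h ↦ h / l`; apply `sum_w` to `w k = 1/|k|`). -/
theorem sum_w_dvd (J l : ℕ) (hJ : 1 ≤ J) (hl : 1 ≤ l) (w : ℤ → ℝ)
    (hw : ∀ h : ℤ, h ≠ 0 → |h| < J → w h ≤ 1 / |(h : ℝ)|) :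
    ∑ h ∈ ((Ioo (-(J : ℤ)) J).erase 0).filter (fun h => (l : ℤ) ∣ h), w h ≤
      2 / l * (1 + Real.log J) := by
  have hl0 : (0 : ℝ) < l := by positivity
  have hlz : (l : ℤ) ≠ 0 := by omega
  set F := ((Ioo (-(J : ℤ)) J).erase 0).filter (fun h => (l : ℤ) ∣ h) with hF
  have hmem : ∀ h ∈ F, h ≠ 0 ∧ |h| < J ∧ (l : ℤ) ∣ h := by
    intro h hh
    rw [hF, mem_filter, mem_erase, mem_Ioo] at hh
    exact ⟨hh.1.1, abs_lt.2 hh.1.2, hh.2⟩
  have h1 : ∑ h ∈ F, w h ≤ ∑ h ∈ F, 1 / l * (1 / |((h / (l : ℤ) : ℤ) : ℝ)|) := by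
    refine sum_le_sum fun h hh => ?_
    obtain ⟨a, b, c⟩ := hmem h hh
    refine (hw h a b).trans (le_of_eq ?_)
    obtain ⟨k, rfl⟩ := c
    rw [Int.mul_ediv_cancel_left k hlz]
    push_cast
    rw [abs_mul, Nat.abs_cast, one_div_mul_one_div]
  have hinj : ∀ x ∈ F, ∀ y ∈ F, x / (l : ℤ) = y / (l : ℤ) → x = y := by
    intro x hx y hy hxy
    obtain ⟨_, _, c⟩ := hmem x hx
    obtain ⟨_, _, d⟩ := hmem y hy
    rw [← Int.ediv_mul_cancel c, ← Int.ediv_mul_cancel d, hxy]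
  have h2 : ∑ h ∈ F, (1 / |((h / (l : ℤ) : ℤ) : ℝ)|) =
      ∑ k ∈ F.image (fun h => h / (l : ℤ)), 1 / |(k : ℝ)| := by
    rw [sum_image hinj]
  have h3 : F.image (fun h => h / (l : ℤ)) ⊆ (Ioo (-(J : ℤ)) J).erase 0 := by
    intro k hk
    rw [mem_image] at hk
    obtain ⟨h, hh, rfl⟩ := hk
    obtain ⟨a, b, ⟨k, rfl⟩⟩ := hmem h hh
    rw [Int.mul_ediv_cancel_left k hlz, mem_erase, mem_Ioo, ← abs_lt]
    have hk0 : k ≠ 0 := by
      rintro rfl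
      simp at a
    refine ⟨hk0, ?_⟩
    rw [abs_mul, Nat.abs_cast] at b
    have h4 : (1 : ℤ) ≤ l := by exact_mod_cast hl
    nlinarith [abs_nonneg k]
  have h4 : ∑ k ∈ F.image (fun h => h / (l : ℤ)), 1 / |(k : ℝ)| ≤
      ∑ k ∈ (Ioo (-(J : ℤ)) J).erase 0, 1 / |(k : ℝ)| :=
    sum_le_sum_of_subset_of_nonneg h3 fun k _ _ => by positivity
  have h5 := sum_w J hJ (fun k => 1 / |(k : ℝ)|) (fun h _ _ => le_rfl)
  rw [← mul_sum, h2] at h1
  calc ∑ h ∈ F, w h ≤ 1 / l * ∑ k ∈ F.image (fun h => h / (l : ℤ)), 1 / |(k : ℝ)| := h1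
    _ ≤ 1 / l * (2 * (1 + Real.log J)) :=
      mul_le_mul_of_nonneg_left (h4.trans h5) (by positivity)
    _ = 2 / l * (1 + Real.log J) := by ring

end E2P
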