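import Pool.Agent.E2P.G2a

/-! [E2P-G2b] Weighted sums over triples. -/

namespace E2P

open Finset

theorem g2b_card (S : Finset ℕ) (L : ℕ) (hL : 1 ≤ L) (hS : ∀ l ∈ S, L ≤ l ∧ l ≤ 2 * L) :
    (S.offDiag.card : ℝ) ≤ 4 * (L : ℝ) ^ 2 := by
  have h1 : S ⊆ Icc L (2 * L) := fun l hl => mem_Icc.2 (hS l hl)
  have h2 : S.card ≤ 2 * L := by
    have := card_le_card h1
    rw [Nat.card_Icc] at this
    omega
  have h3 : S.offDiag.card ≤ (2 * L) * (2 * L) := by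
    rw [offDiag_card]
    exact (Nat.sub_le _ _).trans (Nat.mul_le_mul h2 h2)
  have h4 := (Nat.cast_le (α := ℝ)).2 h3
  push_cast at h4
  calc (S.offDiag.card : ℝ) ≤ 2 * L * (2 * L) := h4
    _ = 4 * (L : ℝ) ^ 2 := by ring

theorem g2b_log (J : ℕ) (hJ : 1 ≤ J) : 0 ≤ 1 + Real.log J := by
  have : 0 ≤ Real.log J := Real.log_nonneg (by exact_mod_cast hJ)
  linarith

/-- Proof. Product structure of `TS`: `∑_{(l1,l2) ∈ offDiag} ∑_h w h`; `#offDiag ≤ (#S)² ≤ (2L)²`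
(`#S ≤ L + 1 ≤ 2L`); `sum_w`. -/
theorem sum_TS (S : Finset ℕ) (L J : ℕ) (hL : 1 ≤ L) (hS : ∀ l ∈ S, L ≤ l ∧ l ≤ 2 * L)
    (hJ : 1 ≤ J) (w : ℤ → ℝ) (hw0 : ∀ h, 0 ≤ w h)
    (hw : ∀ h : ℤ, h ≠ 0 → |h| < J → w h ≤ 1 / |(h : ℝ)|) :
    ∑ t ∈ TS S J, w t.2 ≤ 8 * L ^ 2 * (1 + Real.log J) := by
  have hl := g2b_log J hJ
  unfold TS
  rw [sum_product]
  simp only
  rw [sum_const, nsmul_eq_mul]
  have h1 := sum_w J hJ w hw
  have h2 : 0 ≤ ∑ h ∈ (Ioo (-(J : ℤ)) J).erase 0, w h := sum_nonneg fun h _ => hw0 h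
  calc (S.offDiag.card : ℝ) * ∑ h ∈ (Ioo (-(J : ℤ)) J).erase 0, w h
      ≤ 4 * (L : ℝ) ^ 2 * (2 * (1 + Real.log J)) :=
        mul_le_mul (g2b_card S L hL hS) h1 h2 (by positivity)
    _ = 8 * L ^ 2 * (1 + Real.log J) := by ring

/-- Proof. At most `∑_{(l1,l2)} (∑_{h, l1 ∣ h} w h + ∑_{h, l2 ∣ h} w h)
≤ (2L)² * 2 * (2/L)(1+log J) = 16 L (1 + log J)` (`sum_w_dvd`, `l ≥ L`). -/
theorem sum_TS_dvd (S : Finset ℕ) (L J : ℕ) (hL : 1 ≤ L) (hS : ∀ l ∈ S, L ≤ l ∧ l ≤ 2 * L)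
    (hJ : 1 ≤ J) (w : ℤ → ℝ) (hw0 : ∀ h, 0 ≤ w h)
    (hw : ∀ h : ℤ, h ≠ 0 → |h| < J → w h ≤ 1 / |(h : ℝ)|) :
    ∑ t ∈ (TS S J).filter (fun t => (t.1.1 : ℤ) ∣ t.2 ∨ (t.1.2 : ℤ) ∣ t.2), w t.2 ≤
      16 * L * (1 + Real.log J) := by
  have hl := g2b_log J hJ
  have hL0 : (0 : ℝ) < L := by exact_mod_cast hL
  have h1 : ∑ t ∈ (TS S J).filter (fun t => (t.1.1 : ℤ) ∣ t.2 ∨ (t.1.2 : ℤ) ∣ t.2), w t.2 ≤
      ∑ t ∈ TS S J, ((if (t.1.1 : ℤ) ∣ t.2 then w t.2 else 0) +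
        (if (t.1.2 : ℤ) ∣ t.2 then w t.2 else 0)) := by
    rw [sum_filter]
    refine sum_le_sum fun t _ => ?_
    have h := hw0 t.2
    by_cases ha : (t.1.1 : ℤ) ∣ t.2 <;> by_cases hb : (t.1.2 : ℤ) ∣ t.2 <;> simp [ha, hb, h]
  refine h1.trans ?_
  unfold TS
  rw [sum_product]
  simp only
  have h2 : ∀ l : ℕ, L ≤ l → ∑ h ∈ (Ioo (-(J : ℤ)) J).erase 0, (if (l : ℤ) ∣ h then w h else 0) ≤
      2 / L * (1 + Real.log J) := by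
    intro l hl'
    rw [← sum_filter]
    refine (sum_w_dvd J l hJ (hL.trans hl') w hw).trans ?_
    apply mul_le_mul_of_nonneg_right _ hl
    apply div_le_div_of_nonneg_left (by norm_num) hL0
    exact_mod_cast hl'
  calc ∑ x ∈ S.offDiag, ∑ h ∈ (Ioo (-(J : ℤ)) J).erase 0,
        ((if (x.1 : ℤ) ∣ h then w h else 0) + (if (x.2 : ℤ) ∣ h then w h else 0))
      ≤ ∑ _ ∈ S.offDiag, 4 / L * (1 + Real.log J) := by
        refine sum_le_sum fun x hx => ?_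
        rw [mem_offDiag] at hx
        rw [sum_add_distrib]
        have h3 := h2 x.1 (hS _ hx.1).1
        have h4 := h2 x.2 (hS _ hx.2.1).1
        calc _ ≤ 2 / L * (1 + Real.log J) + 2 / L * (1 + Real.log J) := add_le_add h3 h4
          _ = 4 / L * (1 + Real.log J) := by ring
    _ = (S.offDiag.card : ℝ) * (4 / L * (1 + Real.log J)) := by rw [sum_const, nsmul_eq_mul]
    _ ≤ (4 * (L : ℝ) ^ 2) * (4 / L * (1 + Real.log J)) :=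
        mul_le_mul_of_nonneg_right (g2b_card S L hL hS) (by positivity)
    _ = 16 * L * (1 + Real.log J) := by
        field_simp
        ring

end E2P
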