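import Pool.Agent.E2P.G1b

/-! [E2P-G3a] Degenerate pairs: one fiber. -/

namespace E2P

open Finset

/-- For a fixed triple `t`, the weight of the triples `t'` with the relation. Proof. By `star_cases`
the pair `t'.1` is `(l1,l2)` or `(l2,l1)`, or (only if `l1 ∣ h` or `l2 ∣ h`) it has `l3 = l1` or
`l3 = l2` or `l4 = l1` or `l4 = l2`: at most `4 #S ≤ 8L` pairs (and then `2 ≤ 8 L`...: all the pairs
are among these `4 #S` ones, because also `(l1,l2)`, `(l2,l1)` are among them). For each pair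
`(l3,l4)` there is at most one `h'` (because `(l3 - l4) l1 l2 ≠ 0`). And `w h' ≤ P`. So the sum is
`≤ 2 P` if `l1 ∤ h` and `l2 ∤ h`, and `≤ 8 L P` otherwise; in both cases
`≤ 2P + (if l1 ∣ h ∨ l2 ∣ h then 8 L P else 0)`. -/
theorem deg_fiber (S : Finset ℕ) (L J : ℕ) (hL : 1 ≤ L)
    (hS : ∀ l ∈ S, l.Prime ∧ L ≤ l ∧ l ≤ 2 * L) (hJL : J ≤ L ^ 2) (w : ℤ → ℝ)
    (hw0 : ∀ h, 0 ≤ w h) (P : ℝ) (hP : ∀ h, w h ≤ P) (t : (ℕ × ℕ) × ℤ) (ht : t ∈ TS S J) :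
    ∑ t' ∈ (TS S J).filter (fun t' => t.2 * ((t.1.1 : ℤ) - t.1.2) * (t'.1.1 * t'.1.2) =
      t'.2 * ((t'.1.1 : ℤ) - t'.1.2) * (t.1.1 * t.1.2)), w t'.2 ≤
      2 * P + (if (t.1.1 : ℤ) ∣ t.2 ∨ (t.1.2 : ℤ) ∣ t.2 then 8 * L * P else 0) := by
  have hP0 : 0 ≤ P := (hw0 0).trans (hP 0)
  obtain ⟨⟨l1, l2⟩, h⟩ := t
  rw [mem_TS] at ht
  obtain ⟨m1, m2, h12, h0, hJ⟩ := ht
  dsimp only at m1 m2 h12 h0 hJ ⊢
  set F := (TS S J).filter (fun t' => h * ((l1 : ℤ) - l2) * (t'.1.1 * t'.1.2) =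
      t'.2 * ((t'.1.1 : ℤ) - t'.1.2) * (l1 * l2)) with hF
  have hcases : ∀ t' ∈ F, ((t'.1.1 = l1 ∧ t'.1.2 = l2) ∨ (t'.1.1 = l2 ∧ t'.1.2 = l1)) ∨
      (((l1 : ℤ) ∣ h ∨ (l2 : ℤ) ∣ h) ∧
        (t'.1.1 = l1 ∨ t'.1.1 = l2 ∨ t'.1.2 = l1 ∨ t'.1.2 = l2)) := by
    intro t' ht'
    rw [hF, mem_filter, mem_TS] at ht'
    obtain ⟨⟨m3, m4, h34, _, _⟩, hs⟩ := ht'
    exact star_cases L J l1 l2 t'.1.1 t'.1.2 (hS _ m1).1 (hS _ m2).1 (hS _ m3).1 (hS _ m4).1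
      (hS _ m1).2.1 (hS _ m2).2.1 h12 h34 h t'.2 h0 hJ hJL hs
  have hmem : ∀ t' ∈ F, t'.1.1 ∈ S ∧ t'.1.2 ∈ S := by
    intro t' ht'
    rw [hF, mem_filter, mem_TS] at ht'
    exact ⟨ht'.1.1, ht'.1.2.1⟩
  have hl1 : (l1 : ℤ) ≠ 0 := by exact_mod_cast (hS _ m1).1.ne_zero
  have hl2 : (l2 : ℤ) ≠ 0 := by exact_mod_cast (hS _ m2).1.ne_zero
  have hinj : Set.InjOn (Prod.fst : ((ℕ × ℕ) × ℤ) → ℕ × ℕ) (F : Set ((ℕ × ℕ) × ℤ)) := by
    rintro ⟨⟨l3, l4⟩, h'⟩ ht' ⟨⟨l5, l6⟩, h''⟩ ht'' heq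
    rw [mem_coe, hF, mem_filter, mem_TS] at ht' ht''
    dsimp only at ht' ht'' heq
    rw [Prod.mk.injEq] at heq
    obtain ⟨e1, e2⟩ := heq
    subst e1 e2
    obtain ⟨⟨_, _, h34, _, _⟩, hs⟩ := ht'
    obtain ⟨_, hs'⟩ := ht''
    have h34' : (l3 : ℤ) - l4 ≠ 0 := by
      rw [sub_ne_zero]
      exact_mod_cast h34
    have h5 : h' * (((l3 : ℤ) - l4) * (l1 * l2)) = h'' * (((l3 : ℤ) - l4) * (l1 * l2)) := by
      linear_combination hs' - hs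
    have h6 : ((l3 : ℤ) - l4) * (l1 * l2) ≠ 0 := mul_ne_zero h34' (mul_ne_zero hl1 hl2)
    rw [mul_right_cancel₀ h6 h5]
  have hcard : (F.image Prod.fst).card = F.card := card_image_of_injOn hinj
  have hsum : ∑ t' ∈ F, w t'.2 ≤ F.card * P := by
    calc ∑ t' ∈ F, w t'.2 ≤ ∑ t' ∈ F, P := sum_le_sum fun t' _ => hP _
      _ = F.card * P := by rw [sum_const, nsmul_eq_mul]
  refine hsum.trans ?_
  rw [← hcard]
  by_cases hd : (l1 : ℤ) ∣ h ∨ (l2 : ℤ) ∣ h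
  · rw [if_pos hd]
    have hsub : F.image Prod.fst ⊆
        (({l1} ×ˢ S) ∪ ({l2} ×ˢ S)) ∪ ((S ×ˢ {l1}) ∪ (S ×ˢ {l2})) := by
      intro x hx
      rw [mem_image] at hx
      obtain ⟨t', ht', rfl⟩ := hx
      obtain ⟨m3, m4⟩ := hmem t' ht'
      simp only [mem_union, mem_product, mem_singleton]
      rcases hcases t' ht' with (⟨e, _⟩ | ⟨e, _⟩) | ⟨_, e | e | e | e⟩
      · exact Or.inl (Or.inl ⟨e, m4⟩)
      · exact Or.inl (Or.inr ⟨e, m4⟩)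
      · exact Or.inl (Or.inl ⟨e, m4⟩)
      · exact Or.inl (Or.inr ⟨e, m4⟩)
      · exact Or.inr (Or.inl ⟨m3, e⟩)
      · exact Or.inr (Or.inr ⟨m3, e⟩)
    have hSc : S.card ≤ 2 * L := by
      have h7 : S ⊆ Icc L (2 * L) := fun l hl => mem_Icc.mpr (hS l hl).2
      have h8 := card_le_card h7
      rw [Nat.card_Icc] at h8
      omega
    have h9 : (F.image Prod.fst).card ≤ 8 * L := by
      refine (card_le_card hsub).trans ?_
      refine (card_union_le _ _).trans ?_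
      have a1 := card_union_le ({l1} ×ˢ S) ({l2} ×ˢ S)
      have a2 := card_union_le (S ×ˢ {l1}) (S ×ˢ {l2})
      simp only [card_product, card_singleton, one_mul, mul_one] at a1 a2
      omega
    have h10 : ((F.image Prod.fst).card : ℝ) ≤ 8 * L := by exact_mod_cast h9
    have h11 : ((F.image Prod.fst).card : ℝ) * P ≤ 8 * L * P :=
      mul_le_mul_of_nonneg_right h10 hP0
    linarith
  · rw [if_neg hd, add_zero]
    have hsub : F.image Prod.fst ⊆ {(l1, l2), (l2, l1)} := by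
      intro x hx
      rw [mem_image] at hx
      obtain ⟨t', ht', rfl⟩ := hx
      simp only [mem_insert, mem_singleton]
      rcases hcases t' ht' with (⟨e, e'⟩ | ⟨e, e'⟩) | ⟨e, _⟩
      · exact Or.inl (Prod.ext e e')
      · exact Or.inr (Prod.ext e e')
      · exact absurd e hd
    have h9 : (F.image Prod.fst).card ≤ 2 := (card_le_card hsub).trans card_le_two
    have h10 : ((F.image Prod.fst).card : ℝ) ≤ 2 := by exact_mod_cast h9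
    exact mul_le_mul_of_nonneg_right h10 hP0

end E2P
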