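import Pool.Agent.E2P.G2b
import Pool.Agent.E2P.G3a

/-! [E2P-G3b] Degenerate pairs: the weighted count. -/

namespace E2P

open Finset

/-- Proof. `∑_t w(h) ∑_{t'} w(h') ≤ ∑_t w(h) (2P + [l1 ∣ h or l2 ∣ h] 8 L P)
≤ 2P * 8L²(1+log J) + 8LP * 16 L (1+log J) = 144 L² P (1+log J)` (`sum_TS`, `sum_TS_dvd`,
`deg_fiber`). -/
theorem deg_sum (S : Finset ℕ) (L J : ℕ) (hL : 1 ≤ L)
    (hS : ∀ l ∈ S, l.Prime ∧ L ≤ l ∧ l ≤ 2 * L) (hJ : 1 ≤ J) (hJL : J ≤ L ^ 2) (w : ℤ → ℝ)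
    (hw0 : ∀ h, 0 ≤ w h) (P : ℝ) (hP : ∀ h, w h ≤ P)
    (hw : ∀ h : ℤ, h ≠ 0 → |h| < J → w h ≤ 1 / |(h : ℝ)|) :
    ∑ t ∈ TS S J, ∑ t' ∈ (TS S J).filter (fun t' =>
      t.2 * ((t.1.1 : ℤ) - t.1.2) * (t'.1.1 * t'.1.2) =
      t'.2 * ((t'.1.1 : ℤ) - t'.1.2) * (t.1.1 * t.1.2)), w t.2 * w t'.2 ≤
      144 * L ^ 2 * P * (1 + Real.log J) := by
  have hP0 : 0 ≤ P := (hw0 0).trans (hP 0)
  have hlog : 0 ≤ 1 + Real.log J := by
    have : 0 ≤ Real.log J := Real.log_natCast_nonneg J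
    linarith
  have hLR : (0 : ℝ) ≤ L := Nat.cast_nonneg L
  have hS' : ∀ l ∈ S, L ≤ l ∧ l ≤ 2 * L := fun l hl => (hS l hl).2
  have s1 := sum_TS S L J hL hS' hJ w hw0 hw
  have s2 := sum_TS_dvd S L J hL hS' hJ w hw0 hw
  calc ∑ t ∈ TS S J, ∑ t' ∈ (TS S J).filter (fun t' =>
      t.2 * ((t.1.1 : ℤ) - t.1.2) * (t'.1.1 * t'.1.2) =
      t'.2 * ((t'.1.1 : ℤ) - t'.1.2) * (t.1.1 * t.1.2)), w t.2 * w t'.2
      ≤ ∑ t ∈ TS S J, (w t.2 * (2 * P) +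
        (if (t.1.1 : ℤ) ∣ t.2 ∨ (t.1.2 : ℤ) ∣ t.2 then w t.2 * (8 * L * P) else 0)) := by
        refine sum_le_sum fun t ht => ?_
        rw [← mul_sum]
        refine (mul_le_mul_of_nonneg_left
          (deg_fiber S L J hL hS hJL w hw0 P hP t ht) (hw0 t.2)).trans (le_of_eq ?_)
        rw [mul_add]
        congr 1
        split_ifs
        · rfl
        · rw [mul_zero]
    _ = (∑ t ∈ TS S J, w t.2) * (2 * P) +
        (∑ t ∈ (TS S J).filter (fun t => (t.1.1 : ℤ) ∣ t.2 ∨ (t.1.2 : ℤ) ∣ t.2), w t.2) *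
          (8 * L * P) := by
        rw [sum_add_distrib, sum_mul, sum_mul, sum_filter]
    _ ≤ (8 * L ^ 2 * (1 + Real.log J)) * (2 * P) + (16 * L * (1 + Real.log J)) * (8 * L * P) := by
        apply add_le_add
        · exact mul_le_mul_of_nonneg_right s1 (by positivity)
        · exact mul_le_mul_of_nonneg_right s2 (by positivity)
    _ = 144 * L ^ 2 * P * (1 + Real.log J) := by ring

end E2P
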