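import Pool.Agent.MP_2f88e5_nt.Hyp
import Pool.Agent.E2P.Defs

/-! [E2P-K1] Incomplete Kloosterman sums along a progression. -/

namespace E2P

open Finset
open Pool.Agent.MP_2f88e5_nt (lin kl sum_lin kl_le kl_zero_left lin_zero hyp_sum_char)

private lemma kl_prog_unit (q : ℕ) [Fact q.Prime] (u B : ZMod q) :
    (∑ x : (ZMod q)ˣ, (∑ h : ZMod q, (ZMod.stdAddChar (h * (u - (x : ZMod q))) : ℂ)) *
      ZMod.stdAddChar (B * ((x⁻¹ : (ZMod q)ˣ) : ZMod q))) =
    (q : ℂ) * (if u = 0 then (0 : ℂ) else ZMod.stdAddChar (B * u⁻¹)) := by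
  simp_rw [hyp_sum_char]
  by_cases hu : u = 0
  · subst hu
    rw [if_pos rfl, mul_zero]
    apply sum_eq_zero
    intro x _
    rw [if_neg, zero_mul]
    rw [zero_sub, neg_eq_zero]
    exact x.ne_zero
  · rw [if_neg hu, sum_eq_single (Units.mk0 u hu)]
    · simp only [Units.val_mk0, sub_self, if_true, Units.val_inv_eq_inv_val]
    · intro x _ hx
      rw [if_neg, zero_mul]
      intro h
      apply hx
      apply Units.ext
      rw [Units.val_mk0]
      exact (sub_eq_zero.mp h).symm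
    · intro h
      exact absurd (mem_univ _) h

private lemma kl_prog_eq (q : ℕ) [Fact q.Prime] (α β B : ZMod q) (N : ℕ) :
    ∑ h : ZMod q, lin q α β N h * kl q (-h) B =
    (q : ℂ) * ∑ i ∈ range N, (if α + β * (i : ZMod q) = 0 then (0 : ℂ) else
      ZMod.stdAddChar (B * (α + β * (i : ZMod q))⁻¹)) := by
  have h1 : ∀ h : ZMod q, lin q α β N h * kl q (-h) B =
      ∑ i ∈ range N, ∑ x : (ZMod q)ˣ,
        (ZMod.stdAddChar (h * ((α + β * (i : ZMod q)) - (x : ZMod q))) : ℂ) *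
        ZMod.stdAddChar (B * ((x⁻¹ : (ZMod q)ˣ) : ZMod q)) := by
    intro h
    rw [lin, kl, sum_mul_sum]
    refine sum_congr rfl fun i _ => sum_congr rfl fun x _ => ?_
    rw [← AddChar.map_add_eq_mul, ← AddChar.map_add_eq_mul]
    congr 1
    ring
  rw [sum_congr rfl fun h _ => h1 h, sum_comm, mul_sum]
  refine sum_congr rfl fun i _ => ?_
  rw [sum_comm, ← kl_prog_unit]
  refine sum_congr rfl fun x _ => ?_
  rw [sum_mul]

/-- Proof. `∑_{h : ZMod q} lin q α β N h * kl q (-h) B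
  = ∑_{i<N} ∑_{x unit} (∑_h e(h (α+βi-x))) e(B x⁻¹)`
and `∑_h e(h u) = q` or `0` according to `u = 0` or not (`hyp_sum_char`); the unit `x` with
`x = α+βi` exists iff `α+βi ≠ 0`. So the sum of the statement equals
`(1/q) ∑_h lin q α β N h * kl q (-h) B` (compare the proof of `count_eq` in
`Pool/Agent/MP_2f88e5_nt/Hyp.lean`). The term `h = 0` is `N * kl q 0 B = -N` (`lin_zero`,
`kl_zero_left`). For `h ≠ 0`, `‖kl q (-h) B‖ ≤ 2 q^(3/4)` (`kl_le`) and
`∑_{h≠0} ‖lin q α β N h‖ ≤ q (1+log q)` (`sum_lin`). -/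
theorem kl_prog (q : ℕ) [Fact q.Prime] (α β B : ZMod q) (hβ : β ≠ 0) (hB : B ≠ 0) (N : ℕ) :
    ‖∑ i ∈ range N, (if α + β * (i : ZMod q) = 0 then (0 : ℂ) else
      ZMod.stdAddChar (B * (α + β * (i : ZMod q))⁻¹))‖ ≤
      N / q + 2 * (q : ℝ) ^ (3 / 4 : ℝ) * (1 + Real.log q) := by
  have hq0 : (0 : ℝ) < q := by exact_mod_cast (Fact.out : q.Prime).pos
  set T : ℂ := ∑ i ∈ range N, (if α + β * (i : ZMod q) = 0 then (0 : ℂ) else
      ZMod.stdAddChar (B * (α + β * (i : ZMod q))⁻¹)) with hT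
  have hkey : ∑ h : ZMod q, lin q α β N h * kl q (-h) B = (q : ℂ) * T := kl_prog_eq q α β B N
  have hsplit : ∑ h : ZMod q, lin q α β N h * kl q (-h) B =
      ∑ h ∈ univ.erase (0 : ZMod q), lin q α β N h * kl q (-h) B +
        lin q α β N 0 * kl q (-0) B :=
    (Finset.sum_erase_add univ (fun h => lin q α β N h * kl q (-h) B)
      (mem_univ (0 : ZMod q))).symm
  rw [neg_zero, kl_zero_left q B hB, lin_zero] at hsplit
  have hb : ‖∑ h ∈ univ.erase (0 : ZMod q), lin q α β N h * kl q (-h) B‖ ≤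
      (q * (1 + Real.log q)) * (2 * (q : ℝ) ^ (3 / 4 : ℝ)) := by
    calc ‖∑ h ∈ univ.erase (0 : ZMod q), lin q α β N h * kl q (-h) B‖
        ≤ ∑ h ∈ univ.erase (0 : ZMod q), ‖lin q α β N h‖ * (2 * (q : ℝ) ^ (3 / 4 : ℝ)) := by
          refine (norm_sum_le _ _).trans (sum_le_sum fun h hh => ?_)
          rw [norm_mul]
          apply mul_le_mul_of_nonneg_left _ (norm_nonneg _)
          exact kl_le q _ _ (neg_ne_zero.mpr (mem_erase.mp hh).1) hB
      _ = (∑ h ∈ univ.erase (0 : ZMod q), ‖lin q α β N h‖) * (2 * (q : ℝ) ^ (3 / 4 : ℝ)) := by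
          rw [sum_mul]
      _ ≤ (q * (1 + Real.log q)) * (2 * (q : ℝ) ^ (3 / 4 : ℝ)) := by
          apply mul_le_mul_of_nonneg_right _ (by positivity)
          exact sum_lin q α β hβ N
  have hn : (q : ℝ) * ‖T‖ ≤ (q * (1 + Real.log q)) * (2 * (q : ℝ) ^ (3 / 4 : ℝ)) + N := by
    have h1 : (q : ℝ) * ‖T‖ = ‖(q : ℂ) * T‖ := by
      rw [norm_mul, Complex.norm_natCast]
    rw [h1, ← hkey, hsplit]
    refine (norm_add_le _ _).trans (add_le_add hb ?_)
    rw [norm_mul, norm_neg, norm_one, mul_one, Complex.norm_natCast]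
  have h2 : ‖T‖ ≤ ((q * (1 + Real.log q)) * (2 * (q : ℝ) ^ (3 / 4 : ℝ)) + N) / q := by
    rw [le_div_iff₀ hq0, mul_comm]
    exact hn
  have h3 : ((q * (1 + Real.log q)) * (2 * (q : ℝ) ^ (3 / 4 : ℝ)) + N) / q =
      N / q + 2 * (q : ℝ) ^ (3 / 4 : ℝ) * (1 + Real.log q) := by
    field_simp
    ring
  rw [← h3]
  exact h2

end E2P
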