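import Pool.Agent.E2P.Defs

/-! [E2P-K2a] Splitting an interval into progressions. -/

namespace E2P

open Finset

/-- Splitting an interval into progressions modulo `R`. For `a < R` put
`N a = #{j : u + a + R j < v}`, i.e. `N a = (v - (u + a) + R - 1) / R` (natural number operations).
Proof. Every `n ∈ [u, v)` is uniquely `u + a + R j` with `a < R`
(`a = (n-u) % R`, `j = (n-u) / R`), and `u + a + R j < v` iff `j < N a`. Also
`N a ≤ (v-u)/R + 1`. -/
theorem sum_split (R u v : ℕ) (hR : 1 ≤ R) (huv : u ≤ v) (F : ℕ → ℂ) :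
    ∃ N : ℕ → ℕ, (∀ a < R, (N a : ℝ) ≤ ((v : ℝ) - u) / R + 1) ∧
      ∑ n ∈ Ico u v, F n = ∑ a ∈ range R, ∑ j ∈ range (N a), F (u + a + R * j) := by
  have hR0 : (0 : ℝ) < R := by exact_mod_cast hR
  have key : ∀ a j : ℕ, j < (v - (u + a) + R - 1) / R ↔ u + a + R * j < v := by
    intro a j
    rw [← Nat.succ_le_iff, Nat.le_div_iff_mul_le hR, Nat.succ_mul, mul_comm j R]
    omega
  refine ⟨fun a => (v - (u + a) + R - 1) / R, fun a _ => ?_, ?_⟩
  · have h1 : (v - (u + a) + R - 1) / R * R ≤ v - (u + a) + R - 1 := Nat.div_mul_le_self _ _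
    have h2 : (v - (u + a) + R - 1) / R * R ≤ (v - u) + R := by omega
    have h3 : ((((v - (u + a) + R - 1) / R : ℕ) : ℝ)) * R ≤ ((v : ℝ) - u) + R := by
      have := (Nat.cast_le (α := ℝ)).2 h2
      push_cast [Nat.cast_sub huv] at this
      exact this
    have h4 : ((v : ℝ) - u) / R + 1 = (((v : ℝ) - u) + R) / R := by
      field_simp
    rw [h4, le_div_iff₀ hR0]
    exact h3
  · rw [Finset.sum_sigma']
    refine Finset.sum_bij' (fun n _ => (⟨(n - u) % R, (n - u) / R⟩ : (_ : ℕ) × ℕ))
      (fun x _ => u + x.1 + R * x.2) ?_ ?_ ?_ ?_ ?_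
    · intro n hn
      rw [mem_Ico] at hn
      have h1 := Nat.mod_add_div (n - u) R
      have h2 := Nat.mod_lt (n - u) hR
      rw [mem_sigma, mem_range, mem_range]
      refine ⟨h2, (key _ _).2 ?_⟩
      show u + (n - u) % R + R * ((n - u) / R) < v
      omega
    · intro x hx
      rw [mem_sigma, mem_range, mem_range] at hx
      rw [mem_Ico]
      exact ⟨by omega, (key _ _).1 hx.2⟩
    · intro n hn
      rw [mem_Ico] at hn
      have h1 := Nat.mod_add_div (n - u) R
      show u + (n - u) % R + R * ((n - u) / R) = n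
      omega
    · intro x hx
      rw [mem_sigma, mem_range, mem_range] at hx
      have h1 : u + x.1 + R * x.2 - u = x.1 + R * x.2 := by omega
      have h2 : (x.1 + R * x.2) % R = x.1 := by
        rw [Nat.add_mul_mod_self_left, Nat.mod_eq_of_lt hx.1]
      have h3 : (x.1 + R * x.2) / R = x.2 := by
        rw [Nat.add_mul_div_left _ _ hR, Nat.div_eq_of_lt hx.1, zero_add]
      show (⟨(u + x.1 + R * x.2 - u) % R, (u + x.1 + R * x.2 - u) / R⟩ : (_ : ℕ) × ℕ) = x
      rw [h1, h2, h3]
    · intro n hn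
      rw [mem_Ico] at hn
      have h1 := Nat.mod_add_div (n - u) R
      show F n = F (u + (n - u) % R + R * ((n - u) / R))
      congr 1
      omega

end E2P
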