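import Pool.Agent.E2P.K1
import Pool.Agent.E2P.K2a

/-! [E2P-K2b] Incomplete Kloosterman sums with a periodic weight. -/

namespace E2P

open Finset

/-- Proof. `sum_split`; `G (u+a+R j) = G (u+a)` by periodicity (induction on `j`), so the inner sum
is `G (u+a) * ∑_{j<N a} (if α + β j = 0 then 0 else e(B (α+βj)⁻¹))` with `α = u + a`, `β = R` in
`ZMod q` (`q ∣ n ↔ (n : ZMod q) = 0`, `ZMod.natCast_eq_zero_iff`), `β ≠ 0`. Use `kl_prog`; sum over
`a < R`: `∑_a (N a/q) ≤ ((v-u) + R)/q`. -/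
theorem kl_periodic (q R : ℕ) [Fact q.Prime] (hR : 1 ≤ R) (hRq : ¬ q ∣ R) (G : ℕ → ℂ)
    (hG : ∀ n, ‖G n‖ ≤ 1) (hper : ∀ n, G (n + R) = G n) (B : ZMod q) (hB : B ≠ 0)
    (u v : ℕ) (huv : u ≤ v) :
    ‖∑ n ∈ Ico u v, G n * (if q ∣ n then (0 : ℂ) else ZMod.stdAddChar (B * (n : ZMod q)⁻¹))‖ ≤
      (((v : ℝ) - u) + R) / q + 2 * R * (q : ℝ) ^ (3 / 4 : ℝ) * (1 + Real.log q) := by
  have hq : q.Prime := Fact.out
  have hq0 : (0 : ℝ) < q := by exact_mod_cast hq.pos
  have hR0 : (0 : ℝ) < R := by positivity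
  have hβ : (R : ZMod q) ≠ 0 := by
    rw [Ne, ZMod.natCast_eq_zero_iff]
    exact hRq
  obtain ⟨N, hN, hsum⟩ := sum_split R u v hR huv
    (fun n => G n * (if q ∣ n then (0 : ℂ) else ZMod.stdAddChar (B * (n : ZMod q)⁻¹)))
  rw [hsum]
  have hperj : ∀ n j : ℕ, G (n + R * j) = G n := by
    intro n j
    induction j with
    | zero => simp
    | succ j ih =>
      rw [← ih, ← hper (n + R * j)]
      congr 1
      ring
  have hin : ∀ a ∈ range R, ‖∑ j ∈ range (N a), G (u + a + R * j) *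
      (if q ∣ (u + a + R * j) then (0 : ℂ) else
        ZMod.stdAddChar (B * ((u + a + R * j : ℕ) : ZMod q)⁻¹))‖ ≤
      (((v : ℝ) - u) / R + 1) / q + 2 * (q : ℝ) ^ (3 / 4 : ℝ) * (1 + Real.log q) := by
    intro a ha
    rw [mem_range] at ha
    have h1 : ∑ j ∈ range (N a), G (u + a + R * j) *
        (if q ∣ (u + a + R * j) then (0 : ℂ) else
          ZMod.stdAddChar (B * ((u + a + R * j : ℕ) : ZMod q)⁻¹)) =
        G (u + a) * ∑ j ∈ range (N a),
          (if ((u + a : ℕ) : ZMod q) + (R : ZMod q) * (j : ZMod q) = 0 then (0 : ℂ) else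
          ZMod.stdAddChar (B * (((u + a : ℕ) : ZMod q) + (R : ZMod q) * (j : ZMod q))⁻¹)) := by
      rw [mul_sum]
      refine sum_congr rfl fun j _ => ?_
      rw [hperj]
      have h2 : ((u + a + R * j : ℕ) : ZMod q) =
          ((u + a : ℕ) : ZMod q) + (R : ZMod q) * (j : ZMod q) := by
        push_cast
        ring
      have h3 : q ∣ (u + a + R * j) ↔
          ((u + a : ℕ) : ZMod q) + (R : ZMod q) * (j : ZMod q) = 0 := by
        rw [← h2, ZMod.natCast_eq_zero_iff]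
      rw [h2]
      simp only [h3]
    rw [h1, norm_mul]
    have h4 := kl_prog q ((u + a : ℕ) : ZMod q) (R : ZMod q) B hβ hB (N a)
    have h5 : (N a : ℝ) / q ≤ (((v : ℝ) - u) / R + 1) / q :=
      div_le_div_of_nonneg_right (hN a ha) hq0.le
    calc ‖G (u + a)‖ * _ ≤ 1 * _ := mul_le_mul_of_nonneg_right (hG _) (norm_nonneg _)
      _ ≤ _ := by
        rw [one_mul]
        linarith
  refine (norm_sum_le _ _).trans ((sum_le_sum hin).trans (le_of_eq ?_))
  rw [sum_const, card_range, nsmul_eq_mul]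
  field_simp

end E2P
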