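import Pool.Agent.E2P.Defs

/-! [E2P-K3a] Correlation of two summands: factorisation. -/

namespace E2P

open Finset

/-- Product form of `ff`. Proof. `h * xx l l' q n = (-h) * (val/l) + h * (val'/q)`; `ee_add` and
`ee_std` (twice, with the integer `-h` and modulus `l`, and with the integer `h` and modulus `q`). -/
theorem ff_eq (q : ℕ) (hq : q.Prime) (t : (ℕ × ℕ) × ℤ) (hl : t.1.1.Prime) (n : ℕ) :
    ff q t n = if t.1.1 ∣ n then 0 else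
      (haveI : NeZero t.1.1 := ⟨hl.ne_zero⟩
      ZMod.stdAddChar (((-t.2 : ℤ) : ZMod t.1.1) * ((n : ZMod t.1.1) * (q : ZMod t.1.1))⁻¹)) *
      (haveI : NeZero q := ⟨hq.ne_zero⟩
      ZMod.stdAddChar ((t.2 : ZMod q) *
        (((t.1.2 : ZMod q)⁻¹ - (t.1.1 : ZMod q)⁻¹) * (n : ZMod q)⁻¹))) := by
  haveI h1 : NeZero t.1.1 := ⟨hl.ne_zero⟩
  haveI h2 : NeZero q := ⟨hq.ne_zero⟩
  unfold ff
  split_ifs with h
  · rfl
  · rw [← ee_std, ← ee_std, ← ee_add]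
    congr 1
    unfold xx
    push_cast
    ring

/-- Proof. Let `l = t.1.1`, `l' = t'.1.1` and
`G n = (if l ∣ n then 0 else e_l(-h ((n)(q))⁻¹)) * conj (if l' ∣ n then 0 else e_{l'}(-h' (n q)⁻¹))`;
it depends only on `n mod l` and `n mod l'`, so it has the period `l l'` (`(n + l l' : ZMod l) = n`,
`Nat.dvd_add_left`), and its norm is at most 1. By `ff_eq`, `ee_conj`/`AddChar.map_neg_eq_conj` and
`AddChar.map_add_eq_mul`, `ff q t n * conj (ff q t' n) = G n * e_q(h c n⁻¹ - h' c' n⁻¹)`, with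
`c = l'⁻¹ - l⁻¹` etc., and `h c n⁻¹ - h' c' n⁻¹ = BB q t t' * n⁻¹`. -/
theorem ff_factor (q : ℕ) [Fact q.Prime] (t t' : (ℕ × ℕ) × ℤ) (hl : t.1.1.Prime)
    (hl' : t'.1.1.Prime) :
    ∃ G : ℕ → ℂ, (∀ n, ‖G n‖ ≤ 1) ∧ (∀ n, G (n + t.1.1 * t'.1.1) = G n) ∧
      ∀ n, ff q t n * (starRingEnd ℂ) (ff q t' n) =
        G n * ZMod.stdAddChar (BB q t t' * (n : ZMod q)⁻¹) := by
  haveI h1 : NeZero t.1.1 := ⟨hl.ne_zero⟩
  haveI h2 : NeZero t'.1.1 := ⟨hl'.ne_zero⟩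
  have hq : q.Prime := Fact.out
  refine ⟨fun n => (if t.1.1 ∣ n then 0 else ZMod.stdAddChar
      (((-t.2 : ℤ) : ZMod t.1.1) * ((n : ZMod t.1.1) * (q : ZMod t.1.1))⁻¹)) *
    (starRingEnd ℂ) (if t'.1.1 ∣ n then 0 else ZMod.stdAddChar
      (((-t'.2 : ℤ) : ZMod t'.1.1) * ((n : ZMod t'.1.1) * (q : ZMod t'.1.1))⁻¹)), ?_, ?_, ?_⟩
  · intro n
    rw [norm_mul, RCLike.norm_conj]
    apply mul_le_one₀ _ (norm_nonneg _) _
    · split_ifs
      · simp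
      · rw [AddChar.norm_apply]
    · split_ifs
      · simp
      · rw [AddChar.norm_apply]
  · intro n
    have e1 : t.1.1 ∣ n + t.1.1 * t'.1.1 ↔ t.1.1 ∣ n :=
      Nat.dvd_add_left (dvd_mul_right _ _)
    have e2 : t'.1.1 ∣ n + t.1.1 * t'.1.1 ↔ t'.1.1 ∣ n :=
      Nat.dvd_add_left (dvd_mul_left _ _)
    have e3 : ((n + t.1.1 * t'.1.1 : ℕ) : ZMod t.1.1) = n := by
      push_cast
      rw [ZMod.natCast_self]
      ring
    have e4 : ((n + t.1.1 * t'.1.1 : ℕ) : ZMod t'.1.1) = n := by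
      push_cast
      rw [ZMod.natCast_self]
      ring
    simp only [e1, e2, e3, e4]
  · intro n
    rw [ff_eq q hq t hl n, ff_eq q hq t' hl' n]
    by_cases c1 : t.1.1 ∣ n
    · simp [c1]
    by_cases c2 : t'.1.1 ∣ n
    · simp [c2]
    simp only [if_neg c1, if_neg c2, map_mul]
    have e : BB q t t' * (n : ZMod q)⁻¹ =
        (t.2 : ZMod q) * (((t.1.2 : ZMod q)⁻¹ - (t.1.1 : ZMod q)⁻¹) * (n : ZMod q)⁻¹) +
        -((t'.2 : ZMod q) * (((t'.1.2 : ZMod q)⁻¹ - (t'.1.1 : ZMod q)⁻¹) * (n : ZMod q)⁻¹)) := by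
      unfold BB
      ring
    rw [e, AddChar.map_add_eq_mul, AddChar.map_neg_eq_conj]
    ring

end E2P
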