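import Pool.Agent.E2P.K2b
import Pool.Agent.E2P.K3a

/-! [E2P-K3b] Correlation of two summands: bound. -/

namespace E2P

open Finset

/-- Proof. `ff_factor` and `kl_periodic` with `R = t.1.1 * t'.1.1` (prime to `q`), after writing the
filtered sum as `∑_{n ∈ Ico u v} G n * (if q ∣ n then 0 else ...)` (`sum_filter`). Since
`R ≤ 4L²`, the bound of `kl_periodic` is at most the one stated. -/
theorem ff_corr (q L : ℕ) [Fact q.Prime] (t t' : (ℕ × ℕ) × ℤ) (hl : t.1.1.Prime)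
    (hl' : t'.1.1.Prime) (hL : t.1.1 ≤ 2 * L) (hL' : t'.1.1 ≤ 2 * L) (hq : 2 * L < q)
    (hB : BB q t t' ≠ 0) (u v : ℕ) (huv : u ≤ v) :
    ‖∑ n ∈ (Ico u v).filter (fun n => ¬ q ∣ n), ff q t n * (starRingEnd ℂ) (ff q t' n)‖ ≤
      (((v : ℝ) - u) + 4 * L ^ 2) / q +
        8 * L ^ 2 * (q : ℝ) ^ (3 / 4 : ℝ) * (1 + Real.log q) := by
  have hqp : q.Prime := Fact.out
  obtain ⟨G, hG, hper, hfac⟩ := ff_factor q t t' hl hl'
  have hR : 1 ≤ t.1.1 * t'.1.1 := Nat.mul_pos hl.pos hl'.pos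
  have hRq : ¬ q ∣ t.1.1 * t'.1.1 := by
    intro h
    rcases (Nat.Prime.dvd_mul hqp).1 h with h | h
    · have := Nat.le_of_dvd hl.pos h
      omega
    · have := Nat.le_of_dvd hl'.pos h
      omega
  have key := kl_periodic q (t.1.1 * t'.1.1) hR hRq G hG hper (BB q t t') hB u v huv
  have e : ∑ n ∈ (Ico u v).filter (fun n => ¬ q ∣ n), ff q t n * (starRingEnd ℂ) (ff q t' n) =
      ∑ n ∈ Ico u v, G n * (if q ∣ n then (0 : ℂ) else
        ZMod.stdAddChar (BB q t t' * (n : ZMod q)⁻¹)) := by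
    rw [sum_filter]
    apply sum_congr rfl
    intro n _
    by_cases c : q ∣ n
    · simp [c]
    · simp only [c, not_false_eq_true, if_true, if_false]
      exact hfac n
  rw [e]
  refine key.trans ?_
  have hq0 : (0 : ℝ) < q := by exact_mod_cast hqp.pos
  have hR4 : ((t.1.1 * t'.1.1 : ℕ) : ℝ) ≤ 4 * (L : ℝ) ^ 2 := by
    have : t.1.1 * t'.1.1 ≤ (2 * L) * (2 * L) := Nat.mul_le_mul hL hL'
    have h2 : ((t.1.1 * t'.1.1 : ℕ) : ℝ) ≤ ((2 * L) * (2 * L) : ℕ) := by exact_mod_cast this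
    refine h2.trans (le_of_eq ?_)
    push_cast
    ring
  have hlog : 0 ≤ Real.log q := Real.log_natCast_nonneg q
  have h34 : 0 ≤ (q : ℝ) ^ (3 / 4 : ℝ) := Real.rpow_nonneg hq0.le _
  have a1 : (((v : ℝ) - u) + ((t.1.1 * t'.1.1 : ℕ) : ℝ)) / q ≤ (((v : ℝ) - u) + 4 * L ^ 2) / q := by
    apply div_le_div_of_nonneg_right _ hq0.le
    linarith
  have a2 : 2 * ((t.1.1 * t'.1.1 : ℕ) : ℝ) * (q : ℝ) ^ (3 / 4 : ℝ) * (1 + Real.log q) ≤
      8 * L ^ 2 * (q : ℝ) ^ (3 / 4 : ℝ) * (1 + Real.log q) := by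
    apply mul_le_mul_of_nonneg_right _ (by linarith)
    apply mul_le_mul_of_nonneg_right _ h34
    linarith
  linarith

end E2P
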