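import Pool.Agent.E2P.Defs

/-! [E2P-P1] The phase identity. -/

namespace E2P

open Finset

/-- Proof. Let `v1 = ((n q)⁻¹ : ZMod l).val` and `v2 = ((l'⁻¹ - l⁻¹) n⁻¹ : ZMod q).val`. It suffices
that the integer `s + v1 q - v2 l` is divisible by `l q` (then divide by `l q`). As `l`, `q` are
distinct primes (hence coprime) it suffices to check it modulo `l` and modulo `q`
(`IsCoprime.mul_dvd` / `Int.natAbs`, or `ZMod.intCast_zmod_eq_zero_iff_dvd`).
Modulo `l`: `n s = l m - 1 = -1` in `ZMod l`, so `n ≠ 0` and `s = - n⁻¹`; `v1 = n⁻¹ q⁻¹`, `q ≠ 0` in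
`ZMod l`; so `s + v1 q - v2 l = - n⁻¹ + n⁻¹ = 0`.
Modulo `q`: `n ≠ 0`, `l ≠ 0` in `ZMod q`, and `l' m = 1` gives `m = l'⁻¹`; `n s = l m - 1`, so
`s = (l l'⁻¹ - 1) n⁻¹ = l (l'⁻¹ - l⁻¹) n⁻¹ = l v2`. -/
theorem phase (l l' q n m s : ℕ) (hl : l.Prime) (hq : q.Prime) (hlq : l ≠ q) (hnq : ¬ q ∣ n)
    (h1 : l * m = n * s + 1) (h2 : l' * m ≡ 1 [MOD q]) :
    ∃ z : ℤ, (s : ℝ) / (l * q) = xx l l' q n + z := by
  haveI : Fact l.Prime := ⟨hl⟩
  haveI : Fact q.Prime := ⟨hq⟩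
  set v1 : ℕ := (((n : ZMod l) * (q : ZMod l))⁻¹ : ZMod l).val with hv1
  set v2 : ℕ := ((((l' : ZMod q)⁻¹ - (l : ZMod q)⁻¹) * (n : ZMod q)⁻¹ : ZMod q)).val with hv2
  have hcop : IsCoprime (l : ℤ) (q : ℤ) := by
    rw [Nat.isCoprime_iff_coprime]
    exact (Nat.coprime_primes hl hq).mpr hlq
  have hql : (q : ZMod l) ≠ 0 := by
    rw [Ne, ZMod.natCast_eq_zero_iff]
    intro h
    exact hlq ((Nat.prime_dvd_prime_iff_eq hl hq).mp h)
  have hlq' : (l : ZMod q) ≠ 0 := by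
    rw [Ne, ZMod.natCast_eq_zero_iff]
    intro h
    exact hlq ((Nat.prime_dvd_prime_iff_eq hq hl).mp h).symm
  have hnq' : (n : ZMod q) ≠ 0 := by
    rw [Ne, ZMod.natCast_eq_zero_iff]
    exact hnq
  have e1 : ((n : ZMod l) * s) = -1 := by
    have h := congrArg (fun k : ℕ => (k : ZMod l)) h1
    simp only [Nat.cast_mul, Nat.cast_add, Nat.cast_one, ZMod.natCast_self, zero_mul] at h
    linear_combination -h
  have hnl : (n : ZMod l) ≠ 0 := by
    intro h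
    rw [h, zero_mul] at e1
    have : (1 : ZMod l) = 0 := by linear_combination e1
    exact one_ne_zero this
  have e2 : (l' : ZMod q) * m = 1 := by
    have h := (ZMod.natCast_eq_natCast_iff _ _ _).mpr h2
    simpa using h
  have hl'q : (l' : ZMod q) ≠ 0 := by
    intro h
    rw [h, zero_mul] at e2
    exact one_ne_zero e2.symm
  have e3 : (l : ZMod q) * m = n * s + 1 := by
    have h := congrArg (fun k : ℕ => (k : ZMod q)) h1
    simpa using h
  have cv1 : ((v1 : ℕ) : ZMod l) = ((n : ZMod l) * (q : ZMod l))⁻¹ := by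
    rw [hv1, ZMod.natCast_zmod_val]
  have cv2 : ((v2 : ℕ) : ZMod q) = ((l' : ZMod q)⁻¹ - (l : ZMod q)⁻¹) * (n : ZMod q)⁻¹ := by
    rw [hv2, ZMod.natCast_zmod_val]
  have d1 : (l : ℤ) ∣ (s : ℤ) + v1 * q - v2 * l := by
    rw [← ZMod.intCast_zmod_eq_zero_iff_dvd]
    push_cast
    rw [cv1, ZMod.natCast_self, mul_zero, sub_zero]
    have : (n : ZMod l) * ((s : ZMod l) + ((n : ZMod l) * (q : ZMod l))⁻¹ * q) = 0 := by
      rw [mul_add, e1]
      field_simp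
      ring
    exact (mul_eq_zero.mp this).resolve_left hnl
  have d2 : (q : ℤ) ∣ (s : ℤ) + v1 * q - v2 * l := by
    rw [← ZMod.intCast_zmod_eq_zero_iff_dvd]
    push_cast
    rw [cv2, ZMod.natCast_self, mul_zero, add_zero]
    have hm : (m : ZMod q) = (l' : ZMod q)⁻¹ := eq_inv_of_mul_eq_one_right e2
    have : (n : ZMod q) * ((s : ZMod q) -
        ((l' : ZMod q)⁻¹ - (l : ZMod q)⁻¹) * (n : ZMod q)⁻¹ * l) = 0 := by
      rw [hm] at e3
      have e4 : (n : ZMod q) * s = l * (l' : ZMod q)⁻¹ - 1 := by linear_combination -e3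
      rw [mul_sub, e4]
      field_simp
      ring
    exact (mul_eq_zero.mp this).resolve_left hnq'
  obtain ⟨z, hz⟩ := hcop.mul_dvd d1 d2
  refine ⟨z, ?_⟩
  have hlR : (l : ℝ) ≠ 0 := by exact_mod_cast hl.ne_zero
  have hqR : (q : ℝ) ≠ 0 := by exact_mod_cast hq.ne_zero
  have hzR : (s : ℝ) + v1 * q - v2 * l = l * q * z := by exact_mod_cast hz
  unfold xx
  rw [← hv1, ← hv2]
  field_simp
  linear_combination hzR

end E2P
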