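import Pool.Agent.E2P.Defs

/-! [E2P-S1] Second moment for a fixed modulus. -/

namespace E2P

open Finset

/-- Proof. `‖bb n‖² = bb n * conj (bb n) = ∑_{t,t'} p_h conj(p_h') ff t n conj (ff t' n)`; sum over
`n`, exchange, take norms: the left side (a nonnegative real, equal to the norm of its cast to `ℂ`)
is at most `∑_{t,t'} ‖p_h‖ ‖p_h'‖ ‖∑_n ff t n conj(ff t' n)‖`. If `BB q t t' ≠ 0` use `hK`; if
`BB q t t' = 0` bound the inner sum trivially by the number of terms, at most `v - u`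
(`norm_ff_le`). Finally `∑_{t,t'} ‖p_h‖ ‖p_h'‖ K = K (∑_t ‖p_h‖)²` (`K ≥ 0` is a hypothesis). -/
theorem second_moment (S : Finset ℕ) (J : ℕ) (p : ℤ → ℂ) (q u v : ℕ) (huv : u ≤ v) (K : ℝ)
    (hK0 : 0 ≤ K)
    (hK : ∀ t ∈ TS S J, ∀ t' ∈ TS S J, BB q t t' ≠ 0 →
      ‖∑ n ∈ (Ico u v).filter (fun n => ¬ q ∣ n), ff q t n * (starRingEnd ℂ) (ff q t' n)‖ ≤ K) :
    ∑ n ∈ (Ico u v).filter (fun n => ¬ q ∣ n), ‖bb S J p q n‖ ^ 2 ≤
      ((v : ℝ) - u) * ∑ t ∈ TS S J, ∑ t' ∈ (TS S J).filter (fun t' => BB q t t' = 0),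
        ‖p t.2‖ * ‖p t'.2‖ + K * (∑ t ∈ TS S J, ‖p t.2‖) ^ 2 := by
  set A := (Ico u v).filter (fun n => ¬ q ∣ n) with hA
  have hcard : (A.card : ℝ) ≤ (v : ℝ) - u := by
    have h1 : A.card ≤ v - u := (card_filter_le _ _).trans_eq (Nat.card_Ico u v)
    have h2 : ((v - u : ℕ) : ℝ) = (v : ℝ) - u := by
      rw [Nat.cast_sub huv]
    rw [← h2]
    exact_mod_cast h1
  have hvu : (0 : ℝ) ≤ (v : ℝ) - u := by
    have : (u : ℝ) ≤ v := by exact_mod_cast huv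
    linarith
  -- the left side as a complex number
  have hexp : ((∑ n ∈ A, ‖bb S J p q n‖ ^ 2 : ℝ) : ℂ) =
      ∑ t ∈ TS S J, ∑ t' ∈ TS S J, p t.2 * (starRingEnd ℂ) (p t'.2) *
        ∑ n ∈ A, ff q t n * (starRingEnd ℂ) (ff q t' n) := by
    push_cast
    have h1 : ∀ n ∈ A, ((‖bb S J p q n‖ : ℂ)) ^ 2 =
        ∑ t ∈ TS S J, ∑ t' ∈ TS S J, p t.2 * (starRingEnd ℂ) (p t'.2) *
          (ff q t n * (starRingEnd ℂ) (ff q t' n)) := by
      intro n _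
      have h2 : ((‖bb S J p q n‖ : ℂ)) ^ 2 = bb S J p q n * (starRingEnd ℂ) (bb S J p q n) := by
        rw [Complex.mul_conj, Complex.normSq_eq_norm_sq]
        push_cast
        rfl
      rw [h2, bb, map_sum, sum_mul_sum]
      refine sum_congr rfl fun t _ => sum_congr rfl fun t' _ => ?_
      rw [map_mul]
      ring
    rw [sum_congr rfl h1, sum_comm]
    refine sum_congr rfl fun t _ => ?_
    rw [sum_comm]
    refine sum_congr rfl fun t' _ => ?_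
    rw [mul_sum]
  have hnn : 0 ≤ ∑ n ∈ A, ‖bb S J p q n‖ ^ 2 := sum_nonneg fun n _ => by positivity
  have hnorm : ∑ n ∈ A, ‖bb S J p q n‖ ^ 2 =
      ‖((∑ n ∈ A, ‖bb S J p q n‖ ^ 2 : ℝ) : ℂ)‖ := by
    rw [Complex.norm_real, Real.norm_of_nonneg hnn]
  rw [hnorm, hexp]
  have hpair : ∀ t ∈ TS S J, ∀ t' ∈ TS S J,
      ‖p t.2 * (starRingEnd ℂ) (p t'.2) * ∑ n ∈ A, ff q t n * (starRingEnd ℂ) (ff q t' n)‖ ≤
        ((v : ℝ) - u) * (if BB q t t' = 0 then ‖p t.2‖ * ‖p t'.2‖ else 0) +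
          K * (‖p t.2‖ * ‖p t'.2‖) := by
    intro t ht t' ht'
    rw [norm_mul, norm_mul, RCLike.norm_conj]
    have hp0 : 0 ≤ ‖p t.2‖ * ‖p t'.2‖ := by positivity
    by_cases hB : BB q t t' = 0
    · rw [if_pos hB]
      have h1 : ‖∑ n ∈ A, ff q t n * (starRingEnd ℂ) (ff q t' n)‖ ≤ (v : ℝ) - u := by
        calc ‖∑ n ∈ A, ff q t n * (starRingEnd ℂ) (ff q t' n)‖
            ≤ ∑ n ∈ A, ‖ff q t n * (starRingEnd ℂ) (ff q t' n)‖ := norm_sum_le _ _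
          _ ≤ ∑ n ∈ A, (1 : ℝ) := by
              refine sum_le_sum fun n _ => ?_
              rw [norm_mul, RCLike.norm_conj]
              exact mul_le_one₀ (norm_ff_le _ _ _) (norm_nonneg _) (norm_ff_le _ _ _)
          _ = A.card := by simp
          _ ≤ _ := hcard
      have h2 := mul_le_mul_of_nonneg_left h1 hp0
      have h3 : 0 ≤ K * (‖p t.2‖ * ‖p t'.2‖) := mul_nonneg hK0 hp0
      linarith
    · rw [if_neg hB, mul_zero, zero_add]
      have h1 := hK t ht t' ht' hB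
      have h2 := mul_le_mul_of_nonneg_left h1 hp0
      linarith
  calc ‖∑ t ∈ TS S J, ∑ t' ∈ TS S J, p t.2 * (starRingEnd ℂ) (p t'.2) *
        ∑ n ∈ A, ff q t n * (starRingEnd ℂ) (ff q t' n)‖
      ≤ ∑ t ∈ TS S J, ∑ t' ∈ TS S J, ‖p t.2 * (starRingEnd ℂ) (p t'.2) *
        ∑ n ∈ A, ff q t n * (starRingEnd ℂ) (ff q t' n)‖ :=
        (norm_sum_le _ _).trans (sum_le_sum fun t _ => norm_sum_le _ _)
    _ ≤ ∑ t ∈ TS S J, ∑ t' ∈ TS S J,
        (((v : ℝ) - u) * (if BB q t t' = 0 then ‖p t.2‖ * ‖p t'.2‖ else 0) +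
          K * (‖p t.2‖ * ‖p t'.2‖)) :=
        sum_le_sum fun t ht => sum_le_sum fun t' ht' => hpair t ht t' ht'
    _ = _ := by
        simp only [sum_add_distrib, sum_filter]
        rw [sq, sum_mul_sum]
        simp only [mul_sum]

end E2P
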