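import Pool.Agent.E2P.S1
import Pool.Agent.E2P.K3b
import Pool.Agent.E2P.G1a
import Pool.Agent.E2P.G3b

/-! [E2P-S2] The bound of the second moment. -/

namespace E2P

open Finset

/-- Proof. `second_moment` with `K` the bound of `ff_corr` (`u ≤ q` gives nothing more, it is
nonnegative). The double sum over `BB q t t' = 0` is at most the double sum of `deg_sum` with
`w h = ‖p h‖` (`BB_eq_zero`: the filter `BB = 0` is contained in the filter of `deg_sum`,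
nonnegative terms), hence `≤ 144 L² P (1+log J)`. And `∑_t ‖p_h‖ ≤ 8 L² (1+log J)` (`sum_TS`). -/
theorem second_moment_le (S : Finset ℕ) (L J : ℕ) (hL : 1 ≤ L)
    (hS : ∀ l ∈ S, l.Prime ∧ L ≤ l ∧ l ≤ 2 * L) (hJ : 1 ≤ J) (hJL : J ≤ L ^ 2) (p : ℤ → ℂ)
    (P : ℝ) (hP : ∀ h, ‖p h‖ ≤ P) (hp : ∀ h : ℤ, h ≠ 0 → |h| < J → ‖p h‖ ≤ 1 / |(h : ℝ)|)
    (q u v : ℕ) (hq : q.Prime) (hqL : 2 * L < q) (hbig : 8 * J * L ^ 3 < q) (huv : u ≤ v) :
    ∑ n ∈ (Ico u v).filter (fun n => ¬ q ∣ n), ‖bb S J p q n‖ ^ 2 ≤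
      ((v : ℝ) - u) * (144 * L ^ 2 * P * (1 + Real.log J)) +
      ((((v : ℝ) - u) + 4 * L ^ 2) / q + 8 * L ^ 2 * (q : ℝ) ^ (3 / 4 : ℝ) * (1 + Real.log q)) *
        (8 * L ^ 2 * (1 + Real.log J)) ^ 2 := by
  haveI : Fact q.Prime := ⟨hq⟩
  have hvu : (0 : ℝ) ≤ (v : ℝ) - u := by
    have : (u : ℝ) ≤ v := by exact_mod_cast huv
    linarith
  have hq1 : (1 : ℝ) ≤ q := by exact_mod_cast hq.one_lt.le
  have hlogq : 0 ≤ Real.log q := Real.log_nonneg hq1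
  have hlogJ : 0 ≤ Real.log J := Real.log_nonneg (by exact_mod_cast hJ)
  set K : ℝ := (((v : ℝ) - u) + 4 * L ^ 2) / q +
    8 * L ^ 2 * (q : ℝ) ^ (3 / 4 : ℝ) * (1 + Real.log q) with hKdef
  have hK0 : 0 ≤ K := by positivity
  have h1 := second_moment S J p q u v huv K hK0 (by
    intro t ht t' ht' hB
    have h := mem_TS.1 ht
    have h' := mem_TS.1 ht'
    exact ff_corr q L t t' (hS _ h.1).1 (hS _ h'.1).1 (hS _ h.1).2.2 (hS _ h'.1).2.2 hqL hB u v huv)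
  have h2 := deg_sum S L J hL hS hJ hJL (fun h => ‖p h‖) (fun h => norm_nonneg _) P hP hp
  have h3 := sum_TS S L J hL (fun l hl => (hS l hl).2) hJ (fun h => ‖p h‖)
    (fun h => norm_nonneg _) hp
  have h4 : ∑ t ∈ TS S J, ∑ t' ∈ (TS S J).filter (fun t' => BB q t t' = 0),
        ‖p t.2‖ * ‖p t'.2‖ ≤ 144 * L ^ 2 * P * (1 + Real.log J) := by
    refine le_trans ?_ h2
    refine sum_le_sum fun t ht => ?_
    refine sum_le_sum_of_subset_of_nonneg ?_ fun t' _ _ => by positivity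
    intro t' ht'
    rw [mem_filter] at ht' ⊢
    exact ⟨ht'.1, BB_eq_zero q L J S hS hqL hbig t t' ht ht'.1 ht'.2⟩
  have h5 : (∑ t ∈ TS S J, ‖p t.2‖) ^ 2 ≤ (8 * L ^ 2 * (1 + Real.log J)) ^ 2 :=
    pow_le_pow_left₀ (sum_nonneg fun t _ => norm_nonneg _) h3 2
  calc ∑ n ∈ (Ico u v).filter (fun n => ¬ q ∣ n), ‖bb S J p q n‖ ^ 2
      ≤ _ := h1
    _ ≤ _ := add_le_add (mul_le_mul_of_nonneg_left h4 hvu) (mul_le_mul_of_nonneg_left h5 hK0)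

end E2P
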