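import Pool.Agent.E2P.P1

/-! [E2P-S3a] One quadruple. -/

namespace E2P

open Finset

/-- Proof. (i) `N2 ≤ 1`: if `m, m'` are both counted then `q1 ∣ l (m - m')`, `q1 ∤ l`
(`l < u ≤ q1`, both primes), so `q1 ∣ m - m'`; the same for `q2`, so `q1 q2 ∣ m - m'`, and
`|m - m'| < M < u² ≤ q1 q2`, so `m = m'`. (ii) If no `m` is counted use `hpos`. (iii) If `m` is
counted: `l m = q1 s + 1` for a natural number `s` (`1 ≤ l m`; `Nat.ModEq`), so by `phase`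
(`n = q1`, `q = q2`; `¬ q2 ∣ q1` as they are distinct primes; `l ≠ q2` as `l < u ≤ q2`)
`s/(l q2) = xx l l' q2 q1 + z`. Now `s/(l q2) = (l m - 1)/(l q1 q2)`, which is
`≥ (m-1)/(q1 q2) ≥ M / v²` (as `m ≥ M+1`, `q1, q2 < v`) and `≤ m/(q1 q2) ≤ 2M/u²`. So `hone`
applies. -/
theorem N2_le (M u v l l' q1 q2 : ℕ) (J : ℕ) (p : ℤ → ℂ)
    (hpos : ∀ x : ℝ, ∃ r : ℝ, 0 ≤ r ∧ ∑ h ∈ Ioo (-(J : ℤ)) J, p h * ee (h * x) = r)
    (hone : ∀ x : ℝ, ∀ m : ℤ, (M : ℝ) / v ^ 2 ≤ x + m → x + m ≤ 2 * M / u ^ 2 →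
        1 ≤ (∑ h ∈ Ioo (-(J : ℤ)) J, p h * ee (h * x)).re)
    (hu : 1 ≤ u) (hM : M < u ^ 2) (hl : l.Prime) (hlu : l < u) (hlu' : l' < u) (hl' : l'.Prime)
    (h1 : q1.Prime) (h2 : q2.Prime) (hu1 : u ≤ q1) (hu2 : u ≤ q2) (hv1 : q1 < v) (hv2 : q2 < v)
    (h12 : q1 ≠ q2) :
    (N2 M q1 q2 l l' : ℝ) ≤ (∑ h ∈ Ioo (-(J : ℤ)) J, p h * ee (h * xx l l' q2 q1)).re := by
  have hcop1 : Nat.Coprime q1 l :=
    (Nat.coprime_primes h1 hl).2 (by omega)
  have hcop2 : Nat.Coprime q2 l' :=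
    (Nat.coprime_primes h2 hl').2 (by omega)
  have hcop : Nat.Coprime q1 q2 := (Nat.coprime_primes h1 h2).2 h12
  have huq : u ^ 2 ≤ q1 * q2 := by
    rw [sq]
    exact Nat.mul_le_mul hu1 hu2
  have hle1 : N2 M q1 q2 l l' ≤ 1 := by
    unfold N2
    rw [Finset.card_le_one]
    intro m hm m' hm'
    rw [mem_filter, mem_Ioc] at hm hm'
    obtain ⟨⟨a1, a2⟩, a3, a4⟩ := hm
    obtain ⟨⟨b1, b2⟩, b3, b4⟩ := hm'
    have c1 : m ≡ m' [MOD q1] :=
      Nat.ModEq.cancel_left_of_coprime hcop1 (a3.trans b3.symm)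
    have c2 : m ≡ m' [MOD q2] :=
      Nat.ModEq.cancel_left_of_coprime hcop2 (a4.trans b4.symm)
    have c3 : m ≡ m' [MOD q1 * q2] := (Nat.modEq_and_modEq_iff_modEq_mul hcop).1 ⟨c1, c2⟩
    refine c3.eq_of_abs_lt ?_
    have hlt : (M : ℤ) < ((q1 * q2 : ℕ) : ℤ) := by
      exact_mod_cast lt_of_lt_of_le hM huq
    rw [abs_lt]
    constructor
    · have h3 : (m : ℤ) ≤ 2 * M := by exact_mod_cast a2
      have h4 : (M : ℤ) < m' := by exact_mod_cast b1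
      linarith
    · have h3 : (m' : ℤ) ≤ 2 * M := by exact_mod_cast b2
      have h4 : (M : ℤ) < m := by exact_mod_cast a1
      linarith
  rcases Nat.eq_zero_or_pos (N2 M q1 q2 l l') with h0 | h0
  · rw [h0, Nat.cast_zero]
    obtain ⟨r, hr, he⟩ := hpos (xx l l' q2 q1)
    rw [he, Complex.ofReal_re]
    exact hr
  · have hN : N2 M q1 q2 l l' = 1 := by omega
    rw [hN, Nat.cast_one]
    have h0' := h0
    unfold N2 at h0'
    obtain ⟨m, hm⟩ := Finset.card_pos.1 h0'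
    rw [mem_filter, mem_Ioc] at hm
    obtain ⟨⟨a1, a2⟩, a3, a4⟩ := hm
    have hm1 : 1 ≤ m := by omega
    have hl2 := hl.two_le
    have hlm : 1 ≤ l * m := Nat.one_le_iff_ne_zero.2 (by positivity)
    obtain ⟨s, hs⟩ : ∃ s, l * m = q1 * s + 1 := by
      obtain ⟨s, hs⟩ := (Nat.modEq_iff_dvd' hlm).1 a3.symm
      exact ⟨s, by omega⟩
    have hnd : ¬ q2 ∣ q1 := by
      intro hd
      exact h12 ((Nat.prime_dvd_prime_iff_eq h2 h1).1 hd).symm
    obtain ⟨z, hz⟩ := phase l l' q2 q1 m s hl h2 (by omega) hnd hs a4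
    have hl0 : (0 : ℝ) < l := by exact_mod_cast hl.pos
    have hl1 : (1 : ℝ) ≤ l := by exact_mod_cast hl.one_lt.le
    have hq1 : (0 : ℝ) < q1 := by exact_mod_cast h1.pos
    have hq2 : (0 : ℝ) < q2 := by exact_mod_cast h2.pos
    have hsR : (l : ℝ) * m = q1 * s + 1 := by exact_mod_cast hs
    have hmR : (M : ℝ) + 1 ≤ m := by exact_mod_cast a1
    have hmR2 : (m : ℝ) ≤ 2 * M := by exact_mod_cast a2
    have huR : (1 : ℝ) ≤ u := by exact_mod_cast hu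
    have hu1R : (u : ℝ) ≤ q1 := by exact_mod_cast hu1
    have hu2R : (u : ℝ) ≤ q2 := by exact_mod_cast hu2
    have hv1R : (q1 : ℝ) ≤ v := by exact_mod_cast hv1.le
    have hv2R : (q2 : ℝ) ≤ v := by exact_mod_cast hv2.le
    have hM0 : (0 : ℝ) ≤ M := Nat.cast_nonneg M
    have hseq : (s : ℝ) / (l * q2) = (l * m - 1) / l / (q1 * q2) := by
      have h5 : (s : ℝ) = (l * m - 1) / q1 := by
        rw [eq_div_iff hq1.ne']
        linarith
      rw [h5]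
      field_simp
    have hlow : (M : ℝ) ≤ (l * m - 1) / l := by
      rw [le_div_iff₀ hl0]
      nlinarith
    have hupp : ((l : ℝ) * m - 1) / l ≤ 2 * M := by
      rw [div_le_iff₀ hl0]
      nlinarith
    have hqq : (q1 : ℝ) * q2 ≤ v ^ 2 := by
      rw [sq]
      exact mul_le_mul hv1R hv2R hq2.le (by linarith)
    have hqq2 : (u : ℝ) ^ 2 ≤ q1 * q2 := by
      rw [sq]
      exact mul_le_mul hu1R hu2R (by linarith) hq1.le
    have hqq0 : (0 : ℝ) < q1 * q2 := mul_pos hq1 hq2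
    refine hone (xx l l' q2 q1) z ?_ ?_
    · rw [← hz, hseq]
      exact div_le_div₀ (le_trans hM0 hlow) hlow hqq0 hqq
    · rw [← hz, hseq]
      exact div_le_div₀ (by linarith) hupp (by positivity) hqq2

end E2P
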