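import Pool.Agent.E2P.S3a

/-! [E2P-S3b] Quadruples with distinct moduli and distinct multipliers. -/

namespace E2P

open Finset

/-- the sum over the multipliers, for one pair of moduli -/
private theorem s3b_inner (E S : Finset ℕ) (M u v J : ℕ) (p : ℤ → ℂ) (P : ℝ)
    (hE : ∀ q ∈ E, q.Prime ∧ u ≤ q ∧ q < v) (hS : ∀ l ∈ S, l.Prime ∧ l < u) (hu : 1 ≤ u)
    (hM : M < u ^ 2) (hJ : 1 ≤ J)
    (hpos : ∀ x : ℝ, ∃ r : ℝ, 0 ≤ r ∧ ∑ h ∈ Ioo (-(J : ℤ)) J, p h * ee (h * x) = r)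
    (hone : ∀ x : ℝ, ∀ m : ℤ, (M : ℝ) / v ^ 2 ≤ x + m → x + m ≤ 2 * M / u ^ 2 →
        1 ≤ (∑ h ∈ Ioo (-(J : ℤ)) J, p h * ee (h * x)).re)
    (hP : ∀ h, ‖p h‖ ≤ P) (x : ℕ × ℕ) (hx : x ∈ E.offDiag) :
    ∑ y ∈ S.offDiag, (N2 M x.1 x.2 y.1 y.2 : ℝ) ≤
      (S.card : ℝ) ^ 2 * P + ‖bb S J p x.2 x.1‖ := by
  have hP0 : 0 ≤ P := (norm_nonneg _).trans (hP 0)
  rw [mem_offDiag] at hx
  obtain ⟨hx1, hx2, hx12⟩ := hx
  obtain ⟨a1, a2, a3⟩ := hE x.1 hx1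
  obtain ⟨b1, b2, b3⟩ := hE x.2 hx2
  have hle : ∀ y ∈ S.offDiag, (N2 M x.1 x.2 y.1 y.2 : ℝ) ≤
      (p 0).re + (∑ h ∈ (Ioo (-(J : ℤ)) J).erase 0, p h * ff x.2 (y, h) x.1).re := by
    intro y hy
    rw [mem_offDiag] at hy
    obtain ⟨hy1, hy2, hy12⟩ := hy
    obtain ⟨c1, c2⟩ := hS y.1 hy1
    obtain ⟨d1, d2⟩ := hS y.2 hy2
    refine (N2_le M u v y.1 y.2 x.1 x.2 J p hpos hone hu hM c1 c2 d2 d1 a1 b1 a2 b2 a3 b3
      hx12).trans (le_of_eq ?_)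
    have h0 : (0 : ℤ) ∈ Ioo (-(J : ℤ)) J := by
      rw [mem_Ioo]
      omega
    rw [← Finset.add_sum_erase _ _ h0, Complex.add_re]
    congr 2
    · rw [Int.cast_zero, zero_mul, ee_zero, mul_one]
    · refine Finset.sum_congr rfl fun h _ => ?_
      unfold ff
      have hnd : ¬ y.1 ∣ x.1 := by
        intro hd
        have := (Nat.prime_dvd_prime_iff_eq c1 a1).1 hd
        omega
      rw [if_neg hnd]
  have hcard : (S.offDiag.card : ℝ) ≤ (S.card : ℝ) ^ 2 := by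
    rw [sq]
    have h1 : S.offDiag.card ≤ S.card * S.card := by
      rw [Finset.offDiag_card]
      exact Nat.sub_le _ _
    exact_mod_cast h1
  calc ∑ y ∈ S.offDiag, (N2 M x.1 x.2 y.1 y.2 : ℝ)
      ≤ ∑ y ∈ S.offDiag,
          ((p 0).re + (∑ h ∈ (Ioo (-(J : ℤ)) J).erase 0, p h * ff x.2 (y, h) x.1).re) :=
        Finset.sum_le_sum hle
    _ = S.offDiag.card * (p 0).re + (bb S J p x.2 x.1).re := by
        rw [Finset.sum_add_distrib, Finset.sum_const, nsmul_eq_mul]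
        congr 1
        unfold bb TS
        rw [Finset.sum_product, Complex.re_sum]
    _ ≤ (S.card : ℝ) ^ 2 * P + ‖bb S J p x.2 x.1‖ := by
        refine add_le_add ?_ (Complex.re_le_norm _)
        calc (S.offDiag.card : ℝ) * (p 0).re ≤ S.offDiag.card * P :=
              mul_le_mul_of_nonneg_left ((Complex.re_le_norm _).trans (hP 0)) (Nat.cast_nonneg _)
          _ ≤ (S.card : ℝ) ^ 2 * P := mul_le_mul_of_nonneg_right hcard hP0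

/-- Proof. Sum `N2_le` over `(q1,q2) ∈ E.offDiag`, `(l,l') ∈ S.offDiag`. The term `h = 0` of the sum is
`p 0`, real part `≤ ‖p 0‖ ≤ P`; total at most `(#E)² (#S)² P`. The sum over `h ≠ 0` and over
`(l,l')` is `bb S J p q2 q1` (here `ff q2 t q1 = ee (h * xx ...)` because `l ∤ q1`: distinct primes).
So the rest is `≤ ∑_{q2 ∈ E} ∑_{q1 ∈ E, q1 ≠ q2} ‖bb S J p q2 q1‖`; for fixed `q2`, Cauchy-Schwarz
(`Finset.inner_mul_le_norm_mul_norm` / `Finset.sum_mul_sq_le_sq_mul_sq`, or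
`sq_sum_le_card_mul_sum_sq`): `≤ √(#E) * √(∑_{n ∈ [u,v), q2 ∤ n} ‖bb n‖²) ≤ √(#E * Q)`. -/
theorem N2_sum_le (E S : Finset ℕ) (M u v J : ℕ) (p : ℤ → ℂ) (P Q : ℝ)
    (hE : ∀ q ∈ E, q.Prime ∧ u ≤ q ∧ q < v) (hS : ∀ l ∈ S, l.Prime ∧ l < u) (hu : 1 ≤ u)
    (hM : M < u ^ 2) (hJ : 1 ≤ J)
    (hpos : ∀ x : ℝ, ∃ r : ℝ, 0 ≤ r ∧ ∑ h ∈ Ioo (-(J : ℤ)) J, p h * ee (h * x) = r)
    (hone : ∀ x : ℝ, ∀ m : ℤ, (M : ℝ) / v ^ 2 ≤ x + m → x + m ≤ 2 * M / u ^ 2 →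
        1 ≤ (∑ h ∈ Ioo (-(J : ℤ)) J, p h * ee (h * x)).re)
    (hP : ∀ h, ‖p h‖ ≤ P)
    (hQ : ∀ q ∈ E, ∑ n ∈ (Ico u v).filter (fun n => ¬ q ∣ n), ‖bb S J p q n‖ ^ 2 ≤ Q) :
    ∑ x ∈ E.offDiag, ∑ y ∈ S.offDiag, (N2 M x.1 x.2 y.1 y.2 : ℝ) ≤
      (E.card : ℝ) ^ 2 * (S.card : ℝ) ^ 2 * P + E.card * √(E.card * Q) := by
  have hP0 : 0 ≤ P := (norm_nonneg _).trans (hP 0)
  have hcard : (E.offDiag.card : ℝ) ≤ (E.card : ℝ) ^ 2 := by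
    rw [sq]
    have h1 : E.offDiag.card ≤ E.card * E.card := by
      rw [Finset.offDiag_card]
      exact Nat.sub_le _ _
    exact_mod_cast h1
  have hrow : ∀ q2 ∈ E, ∑ q1 ∈ E.filter (fun q1 => q1 ≠ q2), ‖bb S J p q2 q1‖ ≤
      √(E.card * Q) := by
    intro q2 hq2
    apply Real.le_sqrt_of_sq_le
    have hQ0 : 0 ≤ ∑ q1 ∈ E.filter (fun q1 => q1 ≠ q2), ‖bb S J p q2 q1‖ ^ 2 :=
      Finset.sum_nonneg fun _ _ => sq_nonneg _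
    have hsub : ∑ q1 ∈ E.filter (fun q1 => q1 ≠ q2), ‖bb S J p q2 q1‖ ^ 2 ≤ Q := by
      refine le_trans (Finset.sum_le_sum_of_subset_of_nonneg ?_ fun _ _ _ => sq_nonneg _)
        (hQ q2 hq2)
      intro q1 hq1
      rw [mem_filter] at hq1
      obtain ⟨a1, a2, a3⟩ := hE q1 hq1.1
      obtain ⟨b1, b2, b3⟩ := hE q2 hq2
      rw [mem_filter, mem_Ico]
      refine ⟨⟨a2, a3⟩, fun hd => ?_⟩
      exact hq1.2 ((Nat.prime_dvd_prime_iff_eq b1 a1).1 hd).symm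
    have hcE : (((E.filter fun q1 => q1 ≠ q2).card : ℕ) : ℝ) ≤ E.card := by
      exact_mod_cast Finset.card_filter_le _ _
    calc (∑ q1 ∈ E.filter (fun q1 => q1 ≠ q2), ‖bb S J p q2 q1‖) ^ 2
        ≤ ((E.filter fun q1 => q1 ≠ q2).card : ℝ) *
            ∑ q1 ∈ E.filter (fun q1 => q1 ≠ q2), ‖bb S J p q2 q1‖ ^ 2 :=
          sq_sum_le_card_mul_sum_sq
      _ ≤ E.card * Q := mul_le_mul hcE hsub hQ0 (Nat.cast_nonneg _)
  have hoff : ∑ x ∈ E.offDiag, ‖bb S J p x.2 x.1‖ =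
      ∑ q2 ∈ E, ∑ q1 ∈ E.filter (fun q1 => q1 ≠ q2), ‖bb S J p q2 q1‖ := by
    have h1 : E.offDiag = (E ×ˢ E).filter (fun x => x.1 ≠ x.2) := by
      ext x
      rw [mem_offDiag, mem_filter, mem_product, and_assoc]
    rw [h1, Finset.sum_filter, Finset.sum_product_right]
    refine Finset.sum_congr rfl fun q2 _ => ?_
    rw [Finset.sum_filter]
  calc ∑ x ∈ E.offDiag, ∑ y ∈ S.offDiag, (N2 M x.1 x.2 y.1 y.2 : ℝ)
      ≤ ∑ x ∈ E.offDiag, ((S.card : ℝ) ^ 2 * P + ‖bb S J p x.2 x.1‖) :=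
        Finset.sum_le_sum fun x hx =>
          s3b_inner E S M u v J p P hE hS hu hM hJ hpos hone hP x hx
    _ = E.offDiag.card * ((S.card : ℝ) ^ 2 * P) +
          ∑ q2 ∈ E, ∑ q1 ∈ E.filter (fun q1 => q1 ≠ q2), ‖bb S J p q2 q1‖ := by
        rw [Finset.sum_add_distrib, Finset.sum_const, nsmul_eq_mul, hoff]
    _ ≤ (E.card : ℝ) ^ 2 * ((S.card : ℝ) ^ 2 * P) + ∑ _q2 ∈ E, √(E.card * Q) := by
        refine add_le_add (mul_le_mul_of_nonneg_right hcard (by positivity)) ?_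
        exact Finset.sum_le_sum hrow
    _ = (E.card : ℝ) ^ 2 * (S.card : ℝ) ^ 2 * P + E.card * √(E.card * Q) := by
        rw [Finset.sum_const, nsmul_eq_mul]
        ring

end E2P
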