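import Pool.Agent.E2P.Defs

/-! [E2P-V1a] The lower bound of the variance. -/

namespace E2P

open Finset

/-- Proof. `PM M ⊆ Ioc M (2M)`, the terms are nonnegative. Exchanging sums,
`∑_{m ∈ PM M} AA E (PL L) m = ∑_{q ∈ E} TT L M q ≤ #E * #PL * #PM / (2u) = A0 #PM / 2`. So
`D := ∑_{m ∈ PM} (A0 - AA m) ≥ A0 #PM / 2 ≥ 0`, and `D² ≤ #PM * ∑_{m ∈ PM} (A0 - AA m)²`
(`sq_sum_le_card_mul_sum_sq`). If `#PM = 0` the claim is trivial, otherwise divide. -/
theorem var_lower (E : Finset ℕ) (L M u : ℕ) (hu : 1 ≤ u) (A0 : ℝ)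
    (hA0 : A0 = E.card * (PL L).card / u)
    (hex : ∀ q ∈ E, (TT L M q : ℝ) ≤ (PL L).card * (PM M).card / (2 * u)) :
    A0 ^ 2 * (PM M).card / 4 ≤ ∑ m ∈ Ioc M (2 * M), ((AA E (PL L) m : ℝ) - A0) ^ 2 := by
  have hu0 : (0 : ℝ) < u := by exact_mod_cast hu
  have hA00 : 0 ≤ A0 := by
    rw [hA0]
    positivity
  have hsub : PM M ⊆ Ioc M (2 * M) := filter_subset _ _
  have hle : ∑ m ∈ PM M, ((AA E (PL L) m : ℝ) - A0) ^ 2 ≤
      ∑ m ∈ Ioc M (2 * M), ((AA E (PL L) m : ℝ) - A0) ^ 2 :=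
    sum_le_sum_of_subset_of_nonneg hsub fun m _ _ => sq_nonneg _
  refine le_trans ?_ hle
  -- exchange of the sums
  have hex2 : ∑ m ∈ PM M, (AA E (PL L) m : ℝ) = ∑ q ∈ E, (TT L M q : ℝ) := by
    have h1 : ∀ m, (AA E (PL L) m : ℝ) =
        ∑ q ∈ E, ∑ l ∈ PL L, if l * m ≡ 1 [MOD q] then (1 : ℝ) else 0 := by
      intro m
      unfold AA
      rw [card_filter, sum_product]
      push_cast
      rfl
    have h2 : ∀ q, (TT L M q : ℝ) =
        ∑ l ∈ PL L, ∑ m ∈ PM M, if l * m ≡ 1 [MOD q] then (1 : ℝ) else 0 := by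
      intro q
      unfold TT
      rw [card_filter, sum_product]
      push_cast
      rfl
    rw [sum_congr rfl fun m _ => h1 m, sum_congr rfl fun q _ => h2 q, sum_comm]
    refine sum_congr rfl fun q _ => ?_
    rw [sum_comm]
  have hsumle : ∑ m ∈ PM M, (AA E (PL L) m : ℝ) ≤ A0 * (PM M).card / 2 := by
    rw [hex2]
    calc ∑ q ∈ E, (TT L M q : ℝ) ≤ ∑ _q ∈ E, ((PL L).card * (PM M).card / (2 * u) : ℝ) :=
          sum_le_sum fun q hq => hex q hq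
      _ = A0 * (PM M).card / 2 := by
          rw [sum_const, nsmul_eq_mul, hA0]
          field_simp
  have hD : A0 * (PM M).card / 2 ≤ ∑ m ∈ PM M, (A0 - (AA E (PL L) m : ℝ)) := by
    rw [sum_sub_distrib, sum_const, nsmul_eq_mul]
    linarith
  have hCS := sq_sum_le_card_mul_sum_sq (s := PM M) (f := fun m => A0 - (AA E (PL L) m : ℝ))
  have hD0 : 0 ≤ A0 * (PM M).card / 2 := by positivity
  have hsq : (A0 * (PM M).card / 2) ^ 2 ≤ (∑ m ∈ PM M, (A0 - (AA E (PL L) m : ℝ))) ^ 2 :=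
    pow_le_pow_left₀ hD0 hD 2
  have hsym : ∑ m ∈ PM M, (A0 - (AA E (PL L) m : ℝ)) ^ 2 =
      ∑ m ∈ PM M, ((AA E (PL L) m : ℝ) - A0) ^ 2 :=
    sum_congr rfl fun m _ => by ring
  rw [hsym] at hCS
  rcases Nat.eq_zero_or_pos (PM M).card with h0 | hpos
  · rw [h0]
    simp only [Nat.cast_zero, mul_zero, zero_div]
    exact sum_nonneg fun m _ => sq_nonneg _
  · have hc : (0 : ℝ) < (PM M).card := by exact_mod_cast hpos
    have h := hsq.trans hCS
    have e : (A0 * (PM M).card / 2) ^ 2 = (PM M).card * (A0 ^ 2 * (PM M).card / 4) := by ring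
    rw [e] at h
    exact le_of_mul_le_mul_left h hc

end E2P
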