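import Pool.Agent.E2P.Defs

/-! [E2P-V1b] The expansion of the variance. -/

namespace E2P

open Finset

private noncomputable def vx (q l m : ℕ) : ℝ := if l * m ≡ 1 [MOD q] then 1 else 0

private theorem vx_AA (E S : Finset ℕ) (m : ℕ) : (AA E S m : ℝ) = ∑ q ∈ E, ∑ l ∈ S, vx q l m := by
  unfold AA vx
  rw [card_filter, sum_product]
  push_cast
  rfl

private theorem vx_N1 (M q l : ℕ) : (N1 M q l : ℝ) = ∑ m ∈ Ioc M (2 * M), vx q l m := by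
  unfold N1 vx
  rw [card_filter]
  push_cast
  rfl

private theorem vx_N2 (M q q' l l' : ℕ) :
    (N2 M q q' l l' : ℝ) = ∑ m ∈ Ioc M (2 * M), vx q l m * vx q' l' m := by
  unfold N2 vx
  rw [card_filter]
  push_cast
  refine sum_congr rfl fun m _ => ?_
  by_cases h1 : l * m ≡ 1 [MOD q] <;> by_cases h2 : l' * m ≡ 1 [MOD q'] <;> simp [h1, h2]

/-- Proof. `(A - A0)² = A² - 2 A0 A + A0²`; `AA m = ∑_{q ∈ E} ∑_{l ∈ S} [l m ≡ 1 mod q]`, so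
`AA m ^ 2 = ∑_{q,q',l,l'} [l m ≡ 1 (q)] [l' m ≡ 1 (q')]`; sum over the `M` integers
`m ∈ (M, 2M]` and exchange. -/
theorem var_expand (E S : Finset ℕ) (M : ℕ) (A0 : ℝ) :
    ∑ m ∈ Ioc M (2 * M), ((AA E S m : ℝ) - A0) ^ 2 =
      ∑ q ∈ E, ∑ q' ∈ E, ∑ l ∈ S, ∑ l' ∈ S, (N2 M q q' l l' : ℝ) -
      2 * A0 * ∑ q ∈ E, ∑ l ∈ S, (N1 M q l : ℝ) + M * A0 ^ 2 := by
  have h1 : ∑ q ∈ E, ∑ l ∈ S, (N1 M q l : ℝ) = ∑ m ∈ Ioc M (2 * M), (AA E S m : ℝ) := by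
    simp_rw [vx_AA, vx_N1]
    symm
    rw [sum_comm]
    refine sum_congr rfl fun q _ => ?_
    rw [sum_comm]
  have h2 : ∑ q ∈ E, ∑ q' ∈ E, ∑ l ∈ S, ∑ l' ∈ S, (N2 M q q' l l' : ℝ) =
      ∑ m ∈ Ioc M (2 * M), (AA E S m : ℝ) ^ 2 := by
    simp_rw [vx_AA, vx_N2]
    symm
    have e1 : ∀ m : ℕ, (∑ q ∈ E, ∑ l ∈ S, vx q l m) ^ 2 =
        ∑ q ∈ E, ∑ q' ∈ E, ∑ l ∈ S, ∑ l' ∈ S, vx q l m * vx q' l' m := by
      intro m
      rw [sq, sum_mul_sum]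
      refine sum_congr rfl fun q _ => sum_congr rfl fun q' _ => ?_
      rw [sum_mul_sum]
    rw [sum_congr rfl fun m _ => e1 m, sum_comm]
    refine sum_congr rfl fun q _ => ?_
    rw [sum_comm]
    refine sum_congr rfl fun q' _ => ?_
    rw [sum_comm]
    refine sum_congr rfl fun l _ => ?_
    rw [sum_comm]
  have h3 : ∑ m ∈ Ioc M (2 * M), ((AA E S m : ℝ) - A0) ^ 2 =
      ∑ m ∈ Ioc M (2 * M), (AA E S m : ℝ) ^ 2 -
      2 * A0 * ∑ m ∈ Ioc M (2 * M), (AA E S m : ℝ) + M * A0 ^ 2 := by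
    have e2 : (M : ℝ) * A0 ^ 2 = ∑ m ∈ Ioc M (2 * M), A0 ^ 2 := by
      rw [sum_const, Nat.card_Ioc, nsmul_eq_mul]
      congr 2
      omega
    rw [e2, mul_sum, ← sum_sub_distrib, ← sum_add_distrib]
    refine sum_congr rfl fun m _ => ?_
    ring
  rw [h1, h2, h3]

end E2P
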