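import Pool.Agent.E2P.Defs

/-! [E2P-V2] Counting in (M, 2M]. -/

namespace E2P

open Finset

/-- Proof. `l` is invertible modulo `q`: there is `c` with `l c ≡ 1 mod q`, and `l m ≡ 1` iff
`m ≡ c mod q`. The number of `m ∈ (M, 2M]` in a residue class modulo `q` is `M/q` up to an error
at most 1 (`Nat.Ioc_filter_modEq_card` / `Int.Ioc_filter_modEq_card`, floor differences). -/
theorem N1_bounds (M q l : ℕ) (hq : q.Prime) (h : ¬ q ∣ l) : |(N1 M q l : ℝ) - M / q| ≤ 1 := by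
  have hcop : Nat.Coprime q l := (Nat.Prime.coprime_iff_not_dvd hq).2 h
  obtain ⟨c, hc⟩ : ∃ c, l * c ≡ 1 [MOD q] := by
    obtain ⟨c, hc⟩ := Nat.exists_mul_mod_eq_one_of_coprime hcop.symm hq.one_lt
    refine ⟨c, ?_⟩
    unfold Nat.ModEq
    rw [hc.2, Nat.mod_eq_of_lt hq.one_lt]
  have hfil : ((Ioc M (2 * M)).filter fun m => l * m ≡ 1 [MOD q]) =
      (Ioc M (2 * M)).filter fun m => m ≡ c [MOD q] := by
    refine filter_congr fun m _ => ⟨fun hm => ?_, fun hm => ?_⟩
    · exact Nat.ModEq.cancel_left_of_coprime hcop (hm.trans hc.symm)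
    · exact (hm.mul_left l).trans hc
  have hcard := Nat.Ioc_filter_modEq_card M (2 * M) hq.pos c
  have hq0 : (0 : ℚ) < q := by exact_mod_cast hq.pos
  unfold N1
  rw [hfil]
  set x : ℚ := (((2 * M : ℕ) : ℚ) - c) / q with hx
  set y : ℚ := ((M : ℚ) - c) / q with hy
  have hxy : x - y = M / q := by
    rw [hx, hy, ← sub_div]
    congr 1
    push_cast
    ring
  have hMq : (0 : ℚ) ≤ M / q := by positivity
  have hfl : ⌊y⌋ ≤ ⌊x⌋ := Int.floor_le_floor (by linarith)
  rw [max_eq_left (by linarith)] at hcard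
  have hN : ((#{x ∈ Ioc M (2 * M) | x ≡ c [MOD q]} : ℕ) : ℚ) = (⌊x⌋ : ℚ) - ⌊y⌋ := by
    exact_mod_cast hcard
  have h1 := Int.floor_le x
  have h2 := Int.lt_floor_add_one x
  have h3 := Int.floor_le y
  have h4 := Int.lt_floor_add_one y
  have hfin : |((#{x ∈ Ioc M (2 * M) | x ≡ c [MOD q]} : ℕ) : ℚ) - M / q| ≤ 1 := by
    rw [hN, ← hxy, abs_le]
    constructor <;> linarith
  have hfin2 : ((|((#{x ∈ Ioc M (2 * M) | x ≡ c [MOD q]} : ℕ) : ℚ) - M / q| : ℚ) : ℝ) ≤ 1 := by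
    exact_mod_cast hfin
  rw [Rat.cast_abs] at hfin2
  push_cast at hfin2
  exact hfin2

/-- Proof. If `m` is counted then `l m ≡ l' m` and `m` is prime to `q`, so `l ≡ l' mod q` with
`l, l' < q`. -/
theorem N2_same_zero (M q l l' : ℕ) (hl : l < q) (hl' : l' < q) (h : l ≠ l') :
    N2 M q q l l' = 0 := by
  unfold N2
  rw [card_eq_zero, filter_eq_empty_iff]
  rintro m - ⟨h1, h2⟩
  have hcop : Nat.Coprime m q := Nat.coprime_of_mul_modEq_one l (by rwa [mul_comm])
  have h3 : l ≡ l' [MOD q] :=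
    Nat.ModEq.cancel_right_of_coprime hcop.symm (h1.trans h2.symm)
  exact h (Nat.ModEq.eq_of_lt_of_lt h3 hl hl')

theorem N2_same (M q l : ℕ) : N2 M q q l l = N1 M q l := by
  unfold N2 N1
  simp only [and_self]

/-- Proof. For `1 ≤ n`, let `T` be the set of the primes `l ∈ [L, 2L]` dividing `n`; the product of
the elements of `T` divides `n` (distinct primes; `Finset.prod_primes_dvd`), and it is at least
`L ^ #T`. So `#T * log L ≤ log n`, and `log L ≥ 1` because `L ≥ 3 > e`. -/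
theorem card_dvd_le (L n : ℕ) (hL : 3 ≤ L) (hn : 1 ≤ n) :
    (((PL L).filter fun l => l ∣ n).card : ℝ) ≤ Real.log n := by
  set T := (PL L).filter fun l => l ∣ n with hT
  have hmem : ∀ l ∈ T, L ≤ l ∧ l.Prime ∧ l ∣ n := by
    intro l hl
    rw [hT, mem_filter, PL, mem_filter, mem_Icc] at hl
    exact ⟨hl.1.1.1, hl.1.2, hl.2⟩
  have hdvd : (∏ l ∈ T, l) ∣ n :=
    Finset.prod_primes_dvd n (fun l hl => (hmem l hl).2.1.prime) fun l hl => (hmem l hl).2.2
  have hle : L ^ T.card ≤ n := by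
    calc L ^ T.card ≤ ∏ l ∈ T, l := Finset.pow_card_le_prod _ _ _ fun l hl => (hmem l hl).1
      _ ≤ n := Nat.le_of_dvd hn hdvd
  have hL0 : (0 : ℝ) < L := by
    have : 0 < L := by omega
    exact_mod_cast this
  have hlog : (T.card : ℝ) * Real.log L ≤ Real.log n := by
    rw [← Real.log_pow]
    refine Real.log_le_log (by positivity) ?_
    exact_mod_cast hle
  have hlogL : 1 ≤ Real.log L := by
    rw [Real.le_log_iff_exp_le hL0]
    have h1 := Real.exp_one_lt_d9
    have h2 : (3 : ℝ) ≤ L := by exact_mod_cast hL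
    linarith
  have hT0 : (0 : ℝ) ≤ T.card := Nat.cast_nonneg _
  nlinarith

end E2P
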