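import Pool.Agent.E2P.V2

/-! [E2P-V3] The terms with distinct moduli and equal multipliers. -/

namespace E2P

open Finset

theorem V3_mod {q1 q2 l m : ℕ} (h1 : q1.Prime) (h2 : q2.Prime) (hne : q1 ≠ q2)
    (hm1 : l * m ≡ 1 [MOD q1]) (hm2 : l * m ≡ 1 [MOD q2]) (hlm : 1 < l * m) :
    ∃ t : ℕ, 1 ≤ t ∧ l * m = 1 + q1 * q2 * t := by
  have hc : Nat.Coprime q1 q2 := (Nat.coprime_primes h1 h2).2 hne
  have h3 : l * m ≡ 1 [MOD q1 * q2] := (Nat.modEq_and_modEq_iff_modEq_mul hc).1 ⟨hm1, hm2⟩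
  have h4 : q1 * q2 ∣ l * m - 1 := (Nat.modEq_iff_dvd' hlm.le).1 h3.symm
  obtain ⟨t, ht⟩ := h4
  refine ⟨t, ?_, by omega⟩
  rcases Nat.eq_zero_or_pos t with h5 | h5
  · rw [h5, mul_zero] at ht
    omega
  · exact h5

theorem V3_one (L M u q1 q2 : ℕ) (hL : 3 ≤ L) (hM : 1 ≤ M) (h1 : q1.Prime) (h2 : q2.Prime)
    (hne : q1 ≠ q2) (hq1 : u ≤ q1) (hq2 : u ≤ q2) (hu : 1 ≤ u) (hLM : L * M ≤ u ^ 2) (l : ℕ)
    (hl : l ∈ PL L) : N2 M q1 q2 l l ≤
      (((Icc 1 3).filter fun t => 1 + q1 * q2 * t ≤ 4 * u ^ 2).filter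
        fun t => l ∣ 1 + q1 * q2 * t).card := by
  unfold PL at hl
  rw [mem_filter, mem_Icc] at hl
  have hQ : u ^ 2 < q1 * q2 := by
    rcases Nat.lt_or_gt_of_ne hne with h | h
    · have h3 : u * (u + 1) ≤ q1 * q2 := Nat.mul_le_mul hq1 (by omega)
      nlinarith
    · have h3 : (u + 1) * u ≤ q1 * q2 := Nat.mul_le_mul (by omega) hq2
      nlinarith
  unfold N2
  refine Finset.card_le_card_of_injOn (fun m => (l * m - 1) / (q1 * q2)) ?_ ?_
  · intro m hm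
    rw [mem_coe, mem_filter, mem_Ioc] at hm
    obtain ⟨⟨hm1, hm2⟩, hm3, hm4⟩ := hm
    have hlm : 1 < l * m := by
      have h5 : 3 * 1 ≤ l * m := Nat.mul_le_mul (by omega) (by omega)
      omega
    obtain ⟨t, ht1, ht⟩ := V3_mod h1 h2 hne hm3 hm4 hlm
    have hle : l * m ≤ 4 * u ^ 2 := by
      have h5 : l * m ≤ (2 * L) * (2 * M) := Nat.mul_le_mul hl.1.2 hm2
      have h6 : (2 * L) * (2 * M) = 4 * (L * M) := by ring
      omega
    have hQ0 : 0 < q1 * q2 := by omega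
    have hdiv : (l * m - 1) / (q1 * q2) = t := by
      rw [ht, Nat.add_sub_cancel_left, Nat.mul_div_cancel_left _ hQ0]
    have ht3 : t ≤ 3 := by
      by_contra h7
      have h8 : (q1 * q2) * 4 ≤ (q1 * q2) * t := Nat.mul_le_mul_left _ (by omega)
      omega
    rw [mem_coe, mem_filter, mem_filter, mem_Icc]
    simp only [hdiv]
    rw [← ht]
    exact ⟨⟨⟨ht1, ht3⟩, hle⟩, dvd_mul_right l m⟩
  · intro m hm m' hm' he
    rw [mem_coe, mem_filter, mem_Ioc] at hm hm'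
    obtain ⟨⟨hm1, hm2⟩, hm3, hm4⟩ := hm
    obtain ⟨⟨hm1', hm2'⟩, hm3', hm4'⟩ := hm'
    have hlm : 1 < l * m := by
      have h5 : 3 * 1 ≤ l * m := Nat.mul_le_mul (by omega) (by omega)
      omega
    have hlm' : 1 < l * m' := by
      have h5 : 3 * 1 ≤ l * m' := Nat.mul_le_mul (by omega) (by omega)
      omega
    obtain ⟨t, ht1, ht⟩ := V3_mod h1 h2 hne hm3 hm4 hlm
    obtain ⟨t', ht1', ht'⟩ := V3_mod h1 h2 hne hm3' hm4' hlm'
    have hQ0 : 0 < q1 * q2 := by omega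
    have hdiv : (l * m - 1) / (q1 * q2) = t := by
      rw [ht, Nat.add_sub_cancel_left, Nat.mul_div_cancel_left _ hQ0]
    have hdiv' : (l * m' - 1) / (q1 * q2) = t' := by
      rw [ht', Nat.add_sub_cancel_left, Nat.mul_div_cancel_left _ hQ0]
    simp only [hdiv, hdiv'] at he
    have h9 : l * m = l * m' := by rw [ht, ht', he]
    exact Nat.eq_of_mul_eq_mul_left (by omega) h9

theorem V3_pair (L M u q1 q2 : ℕ) (hL : 3 ≤ L) (hM : 1 ≤ M) (h1 : q1.Prime) (h2 : q2.Prime)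
    (hne : q1 ≠ q2) (hq1 : u ≤ q1) (hq2 : u ≤ q2) (hu : 1 ≤ u) (hLM : L * M ≤ u ^ 2) :
    ∑ l ∈ PL L, (N2 M q1 q2 l l : ℝ) ≤ 6 * Real.log (2 * u) := by
  set T := (Icc 1 3).filter fun t => 1 + q1 * q2 * t ≤ 4 * u ^ 2 with hT
  have hu' : (1 : ℝ) ≤ u := by exact_mod_cast hu
  have hlog0 : 0 ≤ Real.log (2 * u) := Real.log_nonneg (by linarith)
  have hsw : ∑ l ∈ PL L, (T.filter fun t => l ∣ 1 + q1 * q2 * t).card =
      ∑ t ∈ T, ((PL L).filter fun l => l ∣ 1 + q1 * q2 * t).card := by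
    simp only [Finset.card_filter]
    exact Finset.sum_comm
  have hcard : T.card ≤ 3 := (Finset.card_filter_le _ _).trans (by simp)
  calc ∑ l ∈ PL L, (N2 M q1 q2 l l : ℝ)
      ≤ ∑ l ∈ PL L, ((T.filter fun t => l ∣ 1 + q1 * q2 * t).card : ℝ) := by
        apply Finset.sum_le_sum
        intro l hl
        exact_mod_cast V3_one L M u q1 q2 hL hM h1 h2 hne hq1 hq2 hu hLM l hl
    _ = ∑ t ∈ T, (((PL L).filter fun l => l ∣ 1 + q1 * q2 * t).card : ℝ) := by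
        exact_mod_cast hsw
    _ ≤ ∑ _t ∈ T, 2 * Real.log (2 * u) := by
        apply Finset.sum_le_sum
        intro t ht
        have h3 := card_dvd_le L (1 + q1 * q2 * t) hL (by omega)
        refine h3.trans ?_
        have h4 : 2 * Real.log (2 * u) = Real.log (4 * (u : ℝ) ^ 2) := by
          have h5 : (4 : ℝ) * (u : ℝ) ^ 2 = (2 * u) ^ 2 := by ring
          rw [h5, Real.log_pow]
          push_cast
          ring
        rw [h4]
        apply Real.log_le_log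
        · exact_mod_cast (by omega : 0 < 1 + q1 * q2 * t)
        · have h6 := (mem_filter.1 ht).2
          exact_mod_cast h6
    _ = T.card * (2 * Real.log (2 * u)) := by
        rw [Finset.sum_const, nsmul_eq_mul]
    _ ≤ 3 * (2 * Real.log (2 * u)) := by
        apply mul_le_mul_of_nonneg_right _ (by linarith)
        exact_mod_cast hcard
    _ = 6 * Real.log (2 * u) := by ring

/-- Proof. Let `(q1,q2) ∈ E.offDiag`: `q1 q2 > u²` (distinct, both `≥ u`). If `m` is counted for `l`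
then `n := l m` is `≡ 1` modulo `q1 q2`, `1 < n ≤ (2L)(2M) ≤ 4u²`, so `n = 1 + q1 q2 t` with
`1 ≤ t ≤ 3` (`q1 q2 t < 4 u²`). The map `(l, m) ↦ (t, l)` is injective, and `l` is a prime of
`[L,2L]` dividing `1 + q1 q2 t ≤ 4u²`: by `card_dvd_le` at most `log (4u²) = 2 log (2u)` values.
So `∑_l N2 ≤ 3 * 2 log (2u)`; sum over at most `(#E)²` pairs. -/
theorem N2_diag (E : Finset ℕ) (L M u : ℕ) (hL : 3 ≤ L) (hM : 1 ≤ M) (hu : 1 ≤ u)
    (hE : ∀ q ∈ E, q.Prime ∧ u ≤ q) (hLM : L * M ≤ u ^ 2) :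
    ∑ x ∈ E.offDiag, ∑ l ∈ PL L, (N2 M x.1 x.2 l l : ℝ) ≤
      6 * (E.card : ℝ) ^ 2 * Real.log (2 * u) := by
  have hu' : (1 : ℝ) ≤ u := by exact_mod_cast hu
  have hlog0 : 0 ≤ Real.log (2 * u) := Real.log_nonneg (by linarith)
  have hc : E.offDiag.card ≤ E.card ^ 2 := by
    rw [Finset.offDiag_card, pow_two]
    exact Nat.sub_le _ _
  calc ∑ x ∈ E.offDiag, ∑ l ∈ PL L, (N2 M x.1 x.2 l l : ℝ)
      ≤ ∑ _x ∈ E.offDiag, 6 * Real.log (2 * u) := by
        apply Finset.sum_le_sum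
        intro x hx
        rw [mem_offDiag] at hx
        exact V3_pair L M u x.1 x.2 hL hM (hE _ hx.1).1 (hE _ hx.2.1).1 hx.2.2 (hE _ hx.1).2
          (hE _ hx.2.1).2 hu hLM
    _ = E.offDiag.card * (6 * Real.log (2 * u)) := by
        rw [Finset.sum_const, nsmul_eq_mul]
    _ ≤ (E.card : ℝ) ^ 2 * (6 * Real.log (2 * u)) := by
        apply mul_le_mul_of_nonneg_right _ (by linarith)
        exact_mod_cast hc
    _ = 6 * (E.card : ℝ) ^ 2 * Real.log (2 * u) := by ring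

end E2P
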