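import Pool.Agent.E2P.V1a
import Pool.Agent.E2P.V1b
import Pool.Agent.E2P.V3

/-! [E2P-V4] Assembly of the variance inequality. -/

namespace E2P

open Finset

private theorem v4_split {α : Type*} [DecidableEq α] (E : Finset α) (F : α → α → ℝ) :
    ∑ q ∈ E, ∑ q' ∈ E, F q q' = ∑ q ∈ E, F q q + ∑ x ∈ E.offDiag, F x.1 x.2 := by
  rw [← Finset.sum_product', ← Finset.diag_union_offDiag,
    Finset.sum_union (Finset.disjoint_diag_offDiag _), Finset.sum_diag]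

/-- Proof. `var_lower` and `var_expand`. In the quadruple sum: the terms `q = q'` give
`∑_{q,l} N1 M q l` (`N2_same`, `N2_same_zero`: the primes `l ≤ 2L < u ≤ q`), at most
`#E #PL (M/u + 1)` (`N1_bounds`, `q ≥ u`); the terms `q ≠ q'`, `l = l'` give at most
`6 (#E)² log (2u)` (`N2_diag`); the terms `q ≠ q'`, `l ≠ l'` are the double sum over
`E.offDiag`, `(PL L).offDiag`, at most `R` by hypothesis. And
`∑_{q,l} N1 ≥ #E #PL (M/v - 1)` (`q ≤ v`), `A0 ≥ 0`. -/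
theorem var_ineq (E : Finset ℕ) (L M u v : ℕ) (hL : 3 ≤ L) (hM : 1 ≤ M) (hu : 1 ≤ u)
    (hE : ∀ q ∈ E, q.Prime ∧ u ≤ q ∧ q < v) (hLM : L * M ≤ u ^ 2) (hLu : 2 * L < u) (A0 R : ℝ)
    (hA0 : A0 = E.card * (PL L).card / u)
    (hex : ∀ q ∈ E, (TT L M q : ℝ) ≤ (PL L).card * (PM M).card / (2 * u))
    (hR : ∑ x ∈ E.offDiag, ∑ y ∈ (PL L).offDiag, (N2 M x.1 x.2 y.1 y.2 : ℝ) ≤ R) :
    A0 ^ 2 * (PM M).card / 4 ≤ R + 6 * (E.card : ℝ) ^ 2 * Real.log (2 * u) +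
      E.card * (PL L).card * ((M : ℝ) / u + 1) -
      2 * A0 * (E.card * (PL L).card * ((M : ℝ) / v - 1)) + M * A0 ^ 2 := by
  have hu0 : (0 : ℝ) < u := by exact_mod_cast hu
  have hA00 : 0 ≤ A0 := by rw [hA0]; positivity
  have h1 := var_lower E L M u hu A0 hA0 hex
  rw [var_expand] at h1
  have hPL : ∀ l ∈ PL L, l.Prime ∧ l < u := by
    intro l hl
    simp only [PL, mem_filter, mem_Icc] at hl
    exact ⟨hl.2, by omega⟩
  have hnd : ∀ q ∈ E, ∀ l ∈ PL L, ¬ q ∣ l := by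
    intro q hq l hl hdvd
    have := Nat.le_of_dvd (hPL l hl).1.pos hdvd
    have := (hPL l hl).2
    have := (hE q hq).2.1
    omega
  -- bounds for `N1`
  have hN1 : ∀ q ∈ E, ∀ l ∈ PL L, (N1 M q l : ℝ) ≤ (M : ℝ) / u + 1 ∧
      (M : ℝ) / v - 1 ≤ (N1 M q l : ℝ) := by
    intro q hq l hl
    obtain ⟨hqp, huq, hqv⟩ := hE q hq
    have hb := abs_le.1 (N1_bounds M q l hqp (hnd q hq l hl))
    have huq' : (u : ℝ) ≤ q := by exact_mod_cast huq
    have hqv' : (q : ℝ) ≤ v := by exact_mod_cast hqv.le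
    have hq0 : (0 : ℝ) < q := lt_of_lt_of_le hu0 huq'
    have e1 : (M : ℝ) / q ≤ (M : ℝ) / u := div_le_div_of_nonneg_left (by positivity) hu0 huq'
    have e2 : (M : ℝ) / v ≤ (M : ℝ) / q := div_le_div_of_nonneg_left (by positivity) hq0 hqv'
    constructor <;> linarith [hb.1, hb.2]
  -- the quadruple sum
  have hquad : ∑ q ∈ E, ∑ q' ∈ E, ∑ l ∈ PL L, ∑ l' ∈ PL L, (N2 M q q' l l' : ℝ) =
      ∑ q ∈ E, ∑ l ∈ PL L, (N1 M q l : ℝ) +
        (∑ x ∈ E.offDiag, ∑ l ∈ PL L, (N2 M x.1 x.2 l l : ℝ) +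
          ∑ x ∈ E.offDiag, ∑ y ∈ (PL L).offDiag, (N2 M x.1 x.2 y.1 y.2 : ℝ)) := by
    rw [v4_split E (fun q q' => ∑ l ∈ PL L, ∑ l' ∈ PL L, (N2 M q q' l l' : ℝ))]
    congr 1
    · refine Finset.sum_congr rfl fun q hq => ?_
      rw [v4_split (PL L) (fun l l' => (N2 M q q l l' : ℝ))]
      have h0 : ∑ x ∈ (PL L).offDiag, (N2 M q q x.1 x.2 : ℝ) = 0 := by
        refine Finset.sum_eq_zero fun x hx => ?_
        rw [mem_offDiag] at hx
        obtain ⟨hx1, hx2, hx3⟩ := hx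
        have huq := (hE q hq).2.1
        rw [N2_same_zero M q x.1 x.2 (lt_of_lt_of_le (hPL _ hx1).2 huq)
          (lt_of_lt_of_le (hPL _ hx2).2 huq) hx3]
        simp
      rw [h0, add_zero]
      refine Finset.sum_congr rfl fun l _ => ?_
      rw [N2_same]
    · rw [← Finset.sum_add_distrib]
      refine Finset.sum_congr rfl fun x _ => ?_
      exact v4_split (PL L) (fun l l' => (N2 M x.1 x.2 l l' : ℝ))
  have hup : ∑ q ∈ E, ∑ l ∈ PL L, (N1 M q l : ℝ) ≤ E.card * (PL L).card * ((M : ℝ) / u + 1) := by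
    calc ∑ q ∈ E, ∑ l ∈ PL L, (N1 M q l : ℝ) ≤ ∑ q ∈ E, ∑ l ∈ PL L, ((M : ℝ) / u + 1) :=
          Finset.sum_le_sum fun q hq => Finset.sum_le_sum fun l hl => (hN1 q hq l hl).1
      _ = _ := by
          rw [Finset.sum_const, Finset.sum_const, nsmul_eq_mul, nsmul_eq_mul]
          ring
  have hlow : E.card * (PL L).card * ((M : ℝ) / v - 1) ≤ ∑ q ∈ E, ∑ l ∈ PL L, (N1 M q l : ℝ) := by
    calc E.card * (PL L).card * ((M : ℝ) / v - 1) = ∑ q ∈ E, ∑ l ∈ PL L, ((M : ℝ) / v - 1) := by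
          rw [Finset.sum_const, Finset.sum_const, nsmul_eq_mul, nsmul_eq_mul]
          ring
      _ ≤ _ := Finset.sum_le_sum fun q hq => Finset.sum_le_sum fun l hl => (hN1 q hq l hl).2
  have hdiag := N2_diag E L M u hL hM hu (fun q hq => ⟨(hE q hq).1, (hE q hq).2.1⟩) hLM
  rw [hquad] at h1
  have hlow' : 2 * A0 * (E.card * (PL L).card * ((M : ℝ) / v - 1)) ≤
      2 * A0 * ∑ q ∈ E, ∑ l ∈ PL L, (N1 M q l : ℝ) :=
    mul_le_mul_of_nonneg_left hlow (by positivity)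
  linarith

end E2P
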