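import Pool.Agent.E2P.Defs

/-! [E2P-Z1] Size facts. -/

namespace E2P

open Finset

private theorem z1_large (c2 B : ℝ) (hc2 : 0 < c2) : ∃ X0 : ℝ, ∀ X : ℝ, X0 ≤ X →
    0 < X ∧ B ≤ Real.log X ∧ 10 ≤ Real.log X ∧ 5 / c2 ^ 2 ≤ Real.log X ∧
    100 * Real.log X ^ 2 / c2 ^ 2 ≤ X ^ (1 / 8 : ℝ) := by
  refine ⟨max (Real.exp (max 10 (max B (5 / c2 ^ 2)))) ((1024 * (100 / c2 ^ 2)) ^ 16), ?_⟩
  intro X hX
  have h1 : Real.exp (max 10 (max B (5 / c2 ^ 2))) ≤ X := (le_max_left _ _).trans hX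
  have h2 : (1024 * (100 / c2 ^ 2)) ^ 16 ≤ X := (le_max_right _ _).trans hX
  have hX0 : 0 < X := lt_of_lt_of_le (Real.exp_pos _) h1
  have h3 : max 10 (max B (5 / c2 ^ 2)) ≤ Real.log X := (Real.le_log_iff_exp_le hX0).2 h1
  have h10 : 10 ≤ Real.log X := (le_max_left _ _).trans h3
  have hB : B ≤ Real.log X := (le_max_left _ _).trans ((le_max_right _ _).trans h3)
  have h5 : 5 / c2 ^ 2 ≤ Real.log X := (le_max_right _ _).trans ((le_max_right _ _).trans h3)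
  refine ⟨hX0, hB, h10, h5, ?_⟩
  have hw : 1024 * (100 / c2 ^ 2) ≤ X ^ (1 / 16 : ℝ) := by
    have h6 : ((1024 * (100 / c2 ^ 2)) ^ 16) ^ (1 / 16 : ℝ) ≤ X ^ (1 / 16 : ℝ) :=
      Real.rpow_le_rpow (by positivity) h2 (by norm_num)
    have h7 : ((1024 * (100 / c2 ^ 2)) ^ 16) ^ (1 / 16 : ℝ) = 1024 * (100 / c2 ^ 2) := by
      rw [← Real.rpow_natCast, ← Real.rpow_mul (by positivity)]
      norm_num
    rwa [h7] at h6
  have hlog : Real.log X ≤ 32 * X ^ (1 / 32 : ℝ) := by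
    have := Real.log_le_rpow_div hX0.le (show (0 : ℝ) < 1 / 32 by norm_num)
    linarith
  have hw2 : X ^ (1 / 32 : ℝ) * X ^ (1 / 32 : ℝ) = X ^ (1 / 16 : ℝ) := by
    rw [← Real.rpow_add hX0]
    norm_num
  have hy2 : X ^ (1 / 16 : ℝ) * X ^ (1 / 16 : ℝ) = X ^ (1 / 8 : ℝ) := by
    rw [← Real.rpow_add hX0]
    norm_num
  have hw0 : 0 < X ^ (1 / 16 : ℝ) := Real.rpow_pos_of_pos hX0 _
  have hv0 : 0 < X ^ (1 / 32 : ℝ) := Real.rpow_pos_of_pos hX0 _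
  have hsq : Real.log X ^ 2 ≤ 1024 * X ^ (1 / 16 : ℝ) := by
    calc Real.log X ^ 2 ≤ (32 * X ^ (1 / 32 : ℝ)) ^ 2 := by
          gcongr
      _ = 1024 * (X ^ (1 / 32 : ℝ) * X ^ (1 / 32 : ℝ)) := by ring
      _ = _ := by rw [hw2]
  calc 100 * Real.log X ^ 2 / c2 ^ 2 ≤ 100 * (1024 * X ^ (1 / 16 : ℝ)) / c2 ^ 2 := by gcongr
    _ = (1024 * (100 / c2 ^ 2)) * X ^ (1 / 16 : ℝ) := by ring
    _ ≤ X ^ (1 / 16 : ℝ) * X ^ (1 / 16 : ℝ) := by gcongr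
    _ = _ := hy2

/-- All the size facts which are used. Proof. Write `x = log X`, `κ = c2 / x`. For `X` large `x ≥ B`,
`x ≥ 10` and `x` is as large as needed, and every fixed power of `x` times every constant is below
`X^(1/8)` (`isLittleO_log_rpow_rpow_atTop`). From `L⁴ Z² X^(3/4) ≤ X`: `L⁴ Z² ≤ X^(1/4)`, so
`L Z ≤ X^(1/8)`, `L ≤ X^(1/16)`; from `Z x^10 ≤ L`: `L ≥ x^10 ≥ 4` and `Z ≤ L`.
`M = ⌊u²/(LZ)⌋ ≥ u²/(LZ) - 1 ≥ u²/(2LZ)` (as `u² ≥ X² ≥ 2LZ`), `L M ≤ u²/Z ≤ u²`, `M ≤ u²/4 < u²`.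
`u ≤ κ M` because `κ M ≥ κ u²/(2LZ)` and `κ u ≥ c2 X/x ≥ 2 X^(1/8) ≥ 2LZ`. `W ≤ κ X ≤ κ u`, `κ ≤ 1/10`.
`log M ≤ 2 log u ≤ 2 (x + log 2) ≤ 4 x`, `log (2u) ≤ x + log 4 ≤ 2x`.
`J = ⌈4LZ/κ²⌉`, `J ≤ 5LZ/κ² = 5 L Z x²/c2² ≤ L²` because `Z x^10 ≤ L` and `x^8 ≥ 5/c2²`;
`8 J L³ ≤ 40 L⁴ Z x²/c2² ≤ 40 X^(1/4) x²/c2² < X ≤ u`; `log J ≤ 2 log L ≤ x/8`, so
`1 + log J ≤ x`. `4L² ≤ 4 X^(1/8) ≤ X`. -/
theorem facts (c2 B : ℝ) (hc2 : 0 < c2) (hc2' : c2 ≤ 1) : ∃ X0 : ℝ, ∀ X L Z u W : ℕ,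
    X0 ≤ X → 1 ≤ L → 1 ≤ Z → X ≤ u → u ≤ 2 * X → (W : ℝ) ≤ c2 * X / Real.log X →
    (Z : ℝ) * Real.log X ^ 10 ≤ L → (L : ℝ) ^ 4 * Z ^ 2 * (X : ℝ) ^ (3 / 4 : ℝ) ≤ X →
    B ≤ Real.log X ∧ 10 ≤ Real.log X ∧ 1 ≤ X ∧ 4 ≤ L ∧ Z ≤ L ∧ 2 * L < u ∧
    2 ≤ u ^ 2 / (L * Z) ∧ L * (u ^ 2 / (L * Z)) ≤ u ^ 2 ∧ u ^ 2 / (L * Z) < u ^ 2 ∧
    (u : ℝ) ^ 2 ≤ 2 * L * Z * ((u ^ 2 / (L * Z) : ℕ) : ℝ) ∧
    ((u ^ 2 / (L * Z) : ℕ) : ℝ) * (L * Z) ≤ (u : ℝ) ^ 2 ∧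
    c2 / Real.log X ≤ 1 / 10 ∧
    (u : ℝ) ≤ c2 / Real.log X * ((u ^ 2 / (L * Z) : ℕ) : ℝ) ∧
    (W : ℝ) ≤ c2 / Real.log X * u ∧ W ≤ X ∧
    Real.log L ≤ Real.log X ∧ Real.log ((u ^ 2 / (L * Z) : ℕ) : ℝ) ≤ 4 * Real.log X ∧
    Real.log (2 * u) ≤ 2 * Real.log X ∧ 4 * L ^ 2 ≤ X ∧
    ∃ J : ℕ, 1 ≤ J ∧ J ≤ L ^ 2 ∧ 8 * J * L ^ 3 < u ∧
      4 * (L : ℝ) * Z ≤ (c2 / Real.log X) ^ 2 * J ∧ 1 + Real.log J ≤ Real.log X := by
  obtain ⟨X0, hX0⟩ := z1_large c2 B hc2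
  refine ⟨X0, ?_⟩
  intro X L Z u W hX hL hZ hXu huX hW hZL hLX
  obtain ⟨hXpos, hB, hx10, hx5, hxy⟩ := hX0 X hX
  set x := Real.log X with hx
  set y := (X : ℝ) ^ (1 / 8 : ℝ) with hy
  have hx0 : 0 < x := by linarith
  have hLR : (1 : ℝ) ≤ L := by exact_mod_cast hL
  have hZR : (1 : ℝ) ≤ Z := by exact_mod_cast hZ
  have hXuR : (X : ℝ) ≤ u := by exact_mod_cast hXu
  have huXR : (u : ℝ) ≤ 2 * X := by exact_mod_cast huX
  have hc22 : c2 ^ 2 ≤ 1 := pow_le_one₀ hc2.le hc2'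
  have hc22' : 0 < c2 ^ 2 := by positivity
  -- `y` is large
  have hx2 : 100 * x ^ 2 ≤ 100 * x ^ 2 / c2 ^ 2 := by
    rw [le_div_iff₀ hc22']
    have : 0 ≤ 100 * x ^ 2 := by positivity
    nlinarith
  have hy4 : (10000 : ℝ) ≤ y := by nlinarith
  have hy0 : 0 < y := by linarith
  have hy1 : 1 ≤ y := by linarith
  have hy8 : y ^ 8 = X := by
    rw [hy, ← Real.rpow_natCast, ← Real.rpow_mul hXpos.le]
    norm_num
  have hy6 : (X : ℝ) ^ (3 / 4 : ℝ) = y ^ 6 := by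
    rw [hy, ← Real.rpow_natCast, ← Real.rpow_mul hXpos.le]
    norm_num
  have hyX : y ≤ X := by
    rw [← hy8]
    calc y = y ^ 1 := (pow_one y).symm
      _ ≤ y ^ 8 := pow_le_pow_right₀ hy1 (by norm_num)
  have h2yX : 4 * y < X := by
    rw [← hy8]
    calc 4 * y < y * y := by nlinarith
      _ = y ^ 2 := by ring
      _ ≤ y ^ 8 := pow_le_pow_right₀ hy1 (by norm_num)
  -- `L² Z ≤ y`
  have hLZ4 : (L : ℝ) ^ 4 * Z ^ 2 ≤ y ^ 2 := by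
    rw [hy6, ← hy8] at hLX
    have h1 : ((L : ℝ) ^ 4 * Z ^ 2) * y ^ 6 ≤ y ^ 2 * y ^ 6 := by
      calc ((L : ℝ) ^ 4 * Z ^ 2) * y ^ 6 ≤ y ^ 8 := hLX
        _ = _ := by ring
    exact le_of_mul_le_mul_right h1 (by positivity)
  have hL2Z : (L : ℝ) ^ 2 * Z ≤ y := by
    have h1 : ((L : ℝ) ^ 2 * Z) ^ 2 ≤ y ^ 2 := by
      calc ((L : ℝ) ^ 2 * Z) ^ 2 = (L : ℝ) ^ 4 * Z ^ 2 := by ring
        _ ≤ _ := hLZ4
    exact le_of_sq_le_sq h1 hy0.le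
  have hLL : (L : ℝ) ≤ (L : ℝ) ^ 2 := by nlinarith
  have hL2 : (L : ℝ) ^ 2 ≤ y := by
    calc (L : ℝ) ^ 2 = (L : ℝ) ^ 2 * 1 := (mul_one _).symm
      _ ≤ (L : ℝ) ^ 2 * Z := by gcongr
      _ ≤ y := hL2Z
  have hLZ : (L : ℝ) * Z ≤ y := by
    calc (L : ℝ) * Z ≤ (L : ℝ) ^ 2 * Z := by gcongr
      _ ≤ y := hL2Z
  have hLy : (L : ℝ) ≤ y := hLL.trans hL2
  -- powers of `x`
  have hx10' : (10 : ℝ) ≤ x ^ 10 := by
    calc (10 : ℝ) ≤ x := hx10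
      _ = x ^ 1 := (pow_one x).symm
      _ ≤ x ^ 10 := pow_le_pow_right₀ (by linarith) (by norm_num)
  have hL4R : (4 : ℝ) ≤ L := by
    calc (4 : ℝ) ≤ 1 * 10 := by norm_num
      _ ≤ Z * x ^ 10 := by gcongr
      _ ≤ L := hZL
  have hL4 : 4 ≤ L := by exact_mod_cast hL4R
  have hZLR : (Z : ℝ) ≤ L := by
    calc (Z : ℝ) = Z * 1 := (mul_one _).symm
      _ ≤ Z * x ^ 10 := by gcongr; linarith
      _ ≤ L := hZL
  have hZLn : Z ≤ L := by exact_mod_cast hZLR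
  have hu4 : 4 * y < u := lt_of_lt_of_le h2yX hXuR
  have h2Lu : 2 * L < u := by
    have : (2 : ℝ) * L < u := by linarith
    exact_mod_cast this
  have hupos : 0 < u := by omega
  have huR : (0 : ℝ) < u := by exact_mod_cast hupos
  have hu1 : (1 : ℝ) ≤ u := by exact_mod_cast hupos
  -- the number `M`
  have hLZn : 0 < L * Z := Nat.mul_pos hL hZ
  have h2LZ : 2 * (L * Z) ≤ u ^ 2 := by
    have : (2 : ℝ) * (L * Z) ≤ (u : ℝ) ^ 2 := by nlinarith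
    exact_mod_cast this
  set M := u ^ 2 / (L * Z) with hM
  have hM2 : 2 ≤ M := (Nat.le_div_iff_mul_le hLZn).2 h2LZ
  have hMle : M * (L * Z) ≤ u ^ 2 := Nat.div_mul_le_self _ _
  have hMlt : u ^ 2 < (L * Z) * (M + 1) := Nat.lt_mul_div_succ _ hLZn
  have hMltR : (u : ℝ) ^ 2 < (L * Z) * (M + 1) := by exact_mod_cast hMlt
  have hMleR : (M : ℝ) * (L * Z) ≤ (u : ℝ) ^ 2 := by exact_mod_cast hMle
  have hM2R : (2 : ℝ) ≤ M := by exact_mod_cast hM2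
  have hLZR : (0 : ℝ) < L * Z := by positivity
  have hu2M : (u : ℝ) ^ 2 ≤ 2 * L * Z * M := by nlinarith
  have hκ : c2 / x ≤ 1 / 10 := by
    rw [div_le_div_iff₀ hx0 (by norm_num)]
    linarith
  have hκ0 : 0 < c2 / x := by positivity
  -- `κ u ≥ 2 L Z`
  have hκu : 2 * (L * Z) ≤ c2 / x * u := by
    have h1 : 2 * x / c2 ≤ y := by
      have h2 : 2 * x / c2 ≤ 100 * x ^ 2 / c2 ^ 2 := by
        rw [div_le_div_iff₀ hc2 hc22']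
        have e1 : 2 * x * c2 ^ 2 = (2 * x * c2) * c2 := by ring
        rw [e1]
        apply mul_le_mul_of_nonneg_right _ hc2.le
        nlinarith
      exact h2.trans hxy
    have h3 : 2 * y * (x / c2) ≤ u := by
      have h4 : 2 * y * (x / c2) = y * (2 * x / c2) := by ring
      rw [h4]
      calc y * (2 * x / c2) ≤ y * y := by gcongr
        _ = y ^ 2 := by ring
        _ ≤ y ^ 8 := pow_le_pow_right₀ hy1 (by norm_num)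
        _ = X := hy8
        _ ≤ u := hXuR
    have h5 : 2 * y ≤ c2 / x * u := by
      have h6 : 2 * y = c2 / x * (2 * y * (x / c2)) := by field_simp
      rw [h6]
      gcongr
    linarith
  have huM : (u : ℝ) ≤ c2 / x * M := by
    have h1 : (u : ℝ) * (2 * (L * Z)) ≤ (c2 / x * M) * (2 * (L * Z)) := by
      calc (u : ℝ) * (2 * (L * Z)) ≤ u * (c2 / x * u) := by gcongr
        _ = c2 / x * (u : ℝ) ^ 2 := by ring
        _ ≤ c2 / x * (2 * L * Z * M) := by gcongr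
        _ = _ := by ring
    exact le_of_mul_le_mul_right h1 (by positivity)
  have hWu : (W : ℝ) ≤ c2 / x * u := by
    calc (W : ℝ) ≤ c2 * X / x := hW
      _ = c2 / x * X := by ring
      _ ≤ c2 / x * u := by gcongr
  have hWX : W ≤ X := by
    have : (W : ℝ) ≤ X := by
      calc (W : ℝ) ≤ c2 * X / x := hW
        _ = c2 / x * X := by ring
        _ ≤ 1 * X := by gcongr; linarith
        _ = X := one_mul _
    exact_mod_cast this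
  have hX1R : (1 : ℝ) ≤ X := by linarith
  have hX1 : 1 ≤ X := by exact_mod_cast hX1R
  have hlogL : Real.log L ≤ x := Real.log_le_log (by linarith) (hLy.trans hyX)
  have hlog2 : Real.log 2 ≤ 1 := by
    have := Real.log_two_lt_d9
    linarith
  have hlogu : Real.log u ≤ x + 1 := by
    calc Real.log u ≤ Real.log (2 * X) := Real.log_le_log huR huXR
      _ = Real.log 2 + x := by rw [Real.log_mul (by norm_num) hXpos.ne']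
      _ ≤ x + 1 := by linarith
  have hlogM : Real.log (M : ℝ) ≤ 4 * x := by
    have h1 : (M : ℝ) ≤ (u : ℝ) ^ 2 := by
      have h2 : M ≤ u ^ 2 := Nat.div_le_self _ _
      exact_mod_cast h2
    calc Real.log (M : ℝ) ≤ Real.log ((u : ℝ) ^ 2) := Real.log_le_log (by linarith) h1
      _ = 2 * Real.log u := by rw [Real.log_pow]; norm_num
      _ ≤ 4 * x := by linarith
  have hlog2u : Real.log (2 * u) ≤ 2 * x := by
    rw [Real.log_mul (by norm_num) huR.ne']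
    linarith
  have h4L2 : 4 * L ^ 2 ≤ X := by
    have : (4 : ℝ) * (L : ℝ) ^ 2 ≤ X := by linarith
    exact_mod_cast this
  -- the number `J`
  have hr0 : 0 < 4 * (L : ℝ) * Z * (x ^ 2 / c2 ^ 2) := by positivity
  have hr1 : 1 ≤ (L : ℝ) * Z * (x ^ 2 / c2 ^ 2) := by
    have h1 : 1 ≤ x ^ 2 / c2 ^ 2 := by
      rw [le_div_iff₀ hc22']
      nlinarith
    calc (1 : ℝ) = 1 * 1 * 1 := by norm_num
      _ ≤ (L : ℝ) * Z * (x ^ 2 / c2 ^ 2) := by gcongr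
  set J := ⌈4 * (L : ℝ) * Z * (x ^ 2 / c2 ^ 2)⌉₊ with hJ
  have hJ1 : 1 ≤ J := Nat.ceil_pos.2 hr0
  have hJge : 4 * (L : ℝ) * Z * (x ^ 2 / c2 ^ 2) ≤ J := Nat.le_ceil _
  have hJle : (J : ℝ) ≤ 5 * (L * Z * (x ^ 2 / c2 ^ 2)) := by
    have h1 : (J : ℝ) < 4 * (L : ℝ) * Z * (x ^ 2 / c2 ^ 2) + 1 := Nat.ceil_lt_add_one hr0.le
    linarith
  have hJL : (J : ℝ) ≤ (L : ℝ) ^ 2 := by
    have h1 : 5 / c2 ^ 2 ≤ x ^ 8 := by
      calc 5 / c2 ^ 2 ≤ x := hx5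
        _ = x ^ 1 := (pow_one x).symm
        _ ≤ x ^ 8 := pow_le_pow_right₀ (by linarith) (by norm_num)
    calc (J : ℝ) ≤ 5 * (L * Z * (x ^ 2 / c2 ^ 2)) := hJle
      _ = L * (Z * (x ^ 2 * (5 / c2 ^ 2))) := by ring
      _ ≤ L * (Z * (x ^ 2 * x ^ 8)) := by gcongr
      _ = L * (Z * x ^ 10) := by ring
      _ ≤ L * L := by gcongr
      _ = _ := by ring
  have hJL3 : 8 * (J : ℝ) * (L : ℝ) ^ 3 < u := by
    have h1 : 40 * (x ^ 2 / c2 ^ 2) ≤ y := by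
      calc 40 * (x ^ 2 / c2 ^ 2) ≤ 100 * (x ^ 2 / c2 ^ 2) := by gcongr; norm_num
        _ = 100 * x ^ 2 / c2 ^ 2 := by ring
        _ ≤ y := hxy
    calc 8 * (J : ℝ) * (L : ℝ) ^ 3 ≤ 8 * (5 * (L * Z * (x ^ 2 / c2 ^ 2))) * (L : ℝ) ^ 3 := by gcongr
      _ = ((L : ℝ) ^ 4 * Z) * (40 * (x ^ 2 / c2 ^ 2)) := by ring
      _ ≤ ((L : ℝ) ^ 4 * Z ^ 2) * y := by
          gcongr
          nlinarith
      _ ≤ y ^ 2 * y := by gcongr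
      _ = y ^ 3 := by ring
      _ < y ^ 8 := pow_lt_pow_right₀ (by linarith) (by norm_num)
      _ = X := hy8
      _ ≤ u := hXuR
  refine ⟨hB, hx10, hX1, hL4, hZLn, h2Lu, hM2, ?_, ?_, hu2M, hMleR, hκ, huM, hWu, hWX, hlogL, hlogM,
    hlog2u, h4L2, J, hJ1, ?_, ?_, ?_, ?_⟩
  · calc L * M ≤ L * Z * M := by
          calc L * M = L * 1 * M := by ring
            _ ≤ L * Z * M := by gcongr
      _ = M * (L * Z) := by ring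
      _ ≤ u ^ 2 := hMle
  · apply Nat.div_lt_self (by positivity)
    nlinarith
  · exact_mod_cast hJL
  · exact_mod_cast hJL3
  · calc 4 * (L : ℝ) * Z = (c2 / x) ^ 2 * (4 * (L : ℝ) * Z * (x ^ 2 / c2 ^ 2)) := by field_simp
      _ ≤ (c2 / x) ^ 2 * J := by gcongr
  · have hlogy : Real.log y = x / 8 := by
      rw [hy, Real.log_rpow hXpos]
      ring
    have hJ0 : (0 : ℝ) < J := by exact_mod_cast hJ1
    have h1 : Real.log J ≤ Real.log y := Real.log_le_log hJ0 (hJL.trans hL2)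
    rw [hlogy] at h1
    linarith

end E2P
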