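import Pool.Agent.E2P.Defs

/-! [E2P-Z2] The final algebra of the block theorem. -/

namespace E2P

open Finset

/-- Proof. If `e = 0` trivial. Let `e > 0`; `S > 0`, `A0 > 0`. By `hpm`,
`A0² pm / 4 ≥ c1 A0² M/(16 x)` and `11 c1/(352 x) = c1/(32 x)`, so by `main`
`(c1/(32x)) A0² M ≤ e √(e Q) + 6 e² lg + 2 A0 M`. Also `A0² M = e² S² M/u² ≥ e² S²/(2LZ) ≥
e² c1² L/(2 Z x²)` (`hM2`, `hS`). One of the three terms on the right is at least a third of the left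
side.
(1) `2 A0 M ≥ (c1/(96x)) A0² M`: `A0 ≤ 192 x/c1`, `e = A0 u/S ≤ (192x/c1)(2X)(x/(c1 L)) =
384 X x²/(c1² L)`.
(2) `6 e² lg ≥ (c1/(96x)) e² c1² L/(2Zx²)`: `L ≤ (1152/c1³) Z x³ lg ≤ (2304/c1³) Z x⁴ < Z x^10`,
contradiction with `H2`.
(3) `e √(e Q) ≥ e² c1³ L/(192 Z x³)`: square, `e ≤ Q (192 Z x³)²/(c1³ L)²
= (36864/c1^6) Z² x^6/L² (288 X L/Z + 3200 L^6 Y x³)
= (36864/c1^6) (288 X Z x^6/L + 3200 L⁴ Z² Y x^9)`; and `36864 * 3200 < 10^9`. -/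
theorem final_algebra (c1 x X Y L Z e S u M A0 Q pm lg : ℝ) (hc1 : 0 < c1) (hc1' : c1 ≤ 1)
    (hx : 1 ≤ x) (hX : 0 < X) (hY : 0 < Y) (hL : 0 < L) (hZ : 1 ≤ Z) (he : 0 ≤ e) (hu : 0 < u)
    (hu2 : u ≤ 2 * X) (hM : 0 < M) (hM2 : u ^ 2 ≤ 2 * L * Z * M) (hS : c1 * L / x ≤ S)
    (hA0 : A0 = e * S / u) (hpm : c1 * M / (4 * x) ≤ pm)
    (hQ : Q = 288 * X * L / Z + 3200 * L ^ 6 * Y * x ^ 3) (hlg : lg ≤ 2 * x)
    (hbig : 2304 / c1 ^ 3 < x ^ 6) (H2 : Z * x ^ 10 ≤ L)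
    (main : A0 ^ 2 * pm / 4 ≤ 11 * (c1 / 352 / x) * A0 ^ 2 * M + e * √(e * Q) + 6 * e ^ 2 * lg +
      2 * A0 * M) :
    e ≤ 10 ^ 9 / c1 ^ 6 * (X * Z * x ^ 6 / L + L ^ 4 * Z ^ 2 * Y * x ^ 9) := by
  have hx0 : 0 < x := by linarith
  have hZ0 : 0 < Z := by linarith
  rcases eq_or_lt_of_le he with he0 | he0
  · rw [← he0]
    positivity
  have hS0 : 0 < S := lt_of_lt_of_le (by positivity) hS
  have hA : 0 < A0 := by rw [hA0]; positivity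
  -- the lower bound of `T = A0² M`
  have hT : e ^ 2 * (c1 ^ 2 * L / (2 * Z * x ^ 2)) ≤ A0 ^ 2 * M := by
    have h1 : u ^ 2 / (2 * L * Z) ≤ M := by
      rw [div_le_iff₀ (by positivity)]
      linarith
    have h2 : (c1 * L / x) ^ 2 ≤ S ^ 2 := by gcongr
    calc e ^ 2 * (c1 ^ 2 * L / (2 * Z * x ^ 2)) = e ^ 2 * (c1 * L / x) ^ 2 / (2 * L * Z) := by
          field_simp
      _ ≤ e ^ 2 * S ^ 2 / (2 * L * Z) := by gcongr
      _ = (e * S / u) ^ 2 * (u ^ 2 / (2 * L * Z)) := by field_simp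
      _ ≤ (e * S / u) ^ 2 * M := by gcongr
      _ = A0 ^ 2 * M := by rw [hA0]
  -- the main inequality
  have hmain : c1 / (32 * x) * (A0 ^ 2 * M) ≤ e * √(e * Q) + 6 * e ^ 2 * lg + 2 * A0 * M := by
    have h1 : A0 ^ 2 * (c1 * M / (4 * x)) / 4 ≤ A0 ^ 2 * pm / 4 := by gcongr
    have h2 : A0 ^ 2 * (c1 * M / (4 * x)) / 4 = c1 / (16 * x) * (A0 ^ 2 * M) := by
      field_simp
      ring
    have h3 : 11 * (c1 / 352 / x) * A0 ^ 2 * M = c1 / (32 * x) * (A0 ^ 2 * M) := by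
      field_simp
      ring
    have h4 : c1 / (16 * x) * (A0 ^ 2 * M) = c1 / (32 * x) * (A0 ^ 2 * M) +
        c1 / (32 * x) * (A0 ^ 2 * M) := by
      field_simp
      ring
    linarith
  have h3 : c1 / (96 * x) * (A0 ^ 2 * M) ≤ e * √(e * Q) ∨
      c1 / (96 * x) * (A0 ^ 2 * M) ≤ 6 * e ^ 2 * lg ∨
      c1 / (96 * x) * (A0 ^ 2 * M) ≤ 2 * A0 * M := by
    by_contra hcon
    push Not at hcon
    obtain ⟨h1, h2, h3⟩ := hcon
    have h4 : c1 / (32 * x) * (A0 ^ 2 * M) = 3 * (c1 / (96 * x) * (A0 ^ 2 * M)) := by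
      field_simp
      ring
    linarith
  have hcoef : c1 / (96 * x) * (e ^ 2 * (c1 ^ 2 * L / (2 * Z * x ^ 2))) =
      e ^ 2 * (c1 ^ 3 * L / (192 * Z * x ^ 3)) := by
    field_simp
    ring
  have hT' : e ^ 2 * (c1 ^ 3 * L / (192 * Z * x ^ 3)) ≤ c1 / (96 * x) * (A0 ^ 2 * M) := by
    rw [← hcoef]
    gcongr
  have hc6 : 0 < c1 ^ 6 := by positivity
  rcases h3 with h3 | h3 | h3
  · -- (1)
    have h4 := hT'.trans h3
    have h5 : e * (c1 ^ 3 * L / (192 * Z * x ^ 3)) ≤ √(e * Q) := by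
      have h6 : e * (e * (c1 ^ 3 * L / (192 * Z * x ^ 3))) ≤ e * √(e * Q) := by
        calc e * (e * (c1 ^ 3 * L / (192 * Z * x ^ 3))) = e ^ 2 * (c1 ^ 3 * L / (192 * Z * x ^ 3)) := by
              ring
          _ ≤ _ := h4
      exact le_of_mul_le_mul_left h6 he0
    have hQ0 : 0 < Q := by rw [hQ]; positivity
    have h6 : (e * (c1 ^ 3 * L / (192 * Z * x ^ 3))) ^ 2 ≤ e * Q := by
      calc (e * (c1 ^ 3 * L / (192 * Z * x ^ 3))) ^ 2 ≤ (√(e * Q)) ^ 2 := by gcongr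
        _ = e * Q := Real.sq_sqrt (by positivity)
    have h7 : e * (c1 ^ 3 * L / (192 * Z * x ^ 3)) ^ 2 ≤ Q := by
      have h8 : e * (e * (c1 ^ 3 * L / (192 * Z * x ^ 3)) ^ 2) ≤ e * Q := by
        calc e * (e * (c1 ^ 3 * L / (192 * Z * x ^ 3)) ^ 2) =
              (e * (c1 ^ 3 * L / (192 * Z * x ^ 3))) ^ 2 := by ring
          _ ≤ _ := h6
      exact le_of_mul_le_mul_left h8 he0
    have h9 : e ≤ Q / (c1 ^ 3 * L / (192 * Z * x ^ 3)) ^ 2 := by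
      rw [le_div_iff₀ (by positivity)]
      exact h7
    refine h9.trans ?_
    have h10 : Q / (c1 ^ 3 * L / (192 * Z * x ^ 3)) ^ 2 =
        1 / c1 ^ 6 * (10616832 * (X * Z * x ^ 6 / L) + 117964800 * (L ^ 4 * Z ^ 2 * Y * x ^ 9)) := by
      rw [hQ]
      field_simp
      ring
    rw [h10]
    have h11 : (10 : ℝ) ^ 9 / c1 ^ 6 * (X * Z * x ^ 6 / L + L ^ 4 * Z ^ 2 * Y * x ^ 9) =
        1 / c1 ^ 6 * (10 ^ 9 * (X * Z * x ^ 6 / L) + 10 ^ 9 * (L ^ 4 * Z ^ 2 * Y * x ^ 9)) := by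
      ring
    rw [h11]
    gcongr
    · norm_num
    · norm_num
  · -- (2)
    exfalso
    have h4 := hT'.trans h3
    have h5 : c1 ^ 3 * L / (192 * Z * x ^ 3) ≤ 6 * lg := by
      have h6 : e ^ 2 * (c1 ^ 3 * L / (192 * Z * x ^ 3)) ≤ e ^ 2 * (6 * lg) := by
        calc e ^ 2 * (c1 ^ 3 * L / (192 * Z * x ^ 3)) ≤ 6 * e ^ 2 * lg := h4
          _ = _ := by ring
      exact le_of_mul_le_mul_left h6 (by positivity)
    have h6 : c1 ^ 3 * L / (192 * Z * x ^ 3) ≤ 12 * x := by linarith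
    rw [div_le_iff₀ (by positivity)] at h6
    have h7 : c1 ^ 3 * L ≤ 2304 * Z * x ^ 4 := by
      calc c1 ^ 3 * L ≤ 12 * x * (192 * Z * x ^ 3) := h6
        _ = _ := by ring
    have h8 : c1 ^ 3 * (Z * x ^ 10) ≤ 2304 * Z * x ^ 4 :=
      (mul_le_mul_of_nonneg_left H2 (by positivity)).trans h7
    rw [div_lt_iff₀ (by positivity)] at hbig
    have h9 : 2304 * (Z * x ^ 4) < x ^ 6 * c1 ^ 3 * (Z * x ^ 4) := by
      exact mul_lt_mul_of_pos_right hbig (by positivity)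
    nlinarith [h8, h9]
  · -- (3)
    have h4 : A0 ≤ 192 * x / c1 := by
      rw [le_div_iff₀ hc1]
      have h5 : (A0 * M) * (c1 / (96 * x) * A0) ≤ (A0 * M) * 2 := by
        calc (A0 * M) * (c1 / (96 * x) * A0) = c1 / (96 * x) * (A0 ^ 2 * M) := by ring
          _ ≤ 2 * A0 * M := h3
          _ = _ := by ring
      have h6 := le_of_mul_le_mul_left h5 (by positivity)
      rw [div_mul_eq_mul_div, div_le_iff₀ (by positivity)] at h6
      linarith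
    have h5 : e = A0 * u / S := by
      rw [hA0]
      field_simp
    have h6 : e ≤ (192 * x / c1) * (2 * X) / (c1 * L / x) := by
      rw [h5]
      gcongr
    have h7 : (192 * x / c1) * (2 * X) / (c1 * L / x) = 384 * X * x ^ 2 / (c1 ^ 2 * L) := by
      field_simp
      ring
    rw [h7] at h6
    refine h6.trans ?_
    have h8 : 384 * X * x ^ 2 / (c1 ^ 2 * L) ≤ 10 ^ 9 / c1 ^ 6 * (X * Z * x ^ 6 / L) := by
      have e1 : (10 : ℝ) ^ 9 / c1 ^ 6 * (X * Z * x ^ 6 / L) = (10 ^ 9 * X * (Z * x ^ 6)) / (c1 ^ 6 * L) := by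
        field_simp
      rw [e1]
      have e2 : c1 ^ 6 ≤ c1 ^ 2 := pow_le_pow_of_le_one hc1.le hc1' (by norm_num)
      have e3 : x ^ 2 ≤ Z * x ^ 6 := by
        calc x ^ 2 ≤ x ^ 6 := pow_le_pow_right₀ hx (by norm_num)
          _ = 1 * x ^ 6 := (one_mul _).symm
          _ ≤ Z * x ^ 6 := by gcongr
      apply div_le_div₀ (by positivity) _ (by positivity) (by gcongr)
      calc 384 * X * x ^ 2 ≤ 10 ^ 9 * X * x ^ 2 := by gcongr; norm_num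
        _ ≤ _ := by gcongr
    refine h8.trans ?_
    gcongr
    have : 0 ≤ L ^ 4 * Z ^ 2 * Y * x ^ 9 := by positivity
    linarith

end E2P
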