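import Pool.Agent.E2P.S2

/-! [E2P-Z3a] The second-moment constant. -/

namespace E2P

open Finset

/-- The second-moment constant. Proof. `second_moment_le` with `v - u = W`; `P ≤ 2/(LZ)`,
`1 + log J ≤ x := log X`, `W x ≤ X`: first term `≤ 288 X L/Z`. `(W + 4L²)/q ≤ 2`,
`q < 3X + 1`.. : `q ≤ 3X`, `q^(3/4) ≤ 3 X^(3/4)`, `1 + log q ≤ 1 + log 3 + x ≤ 2x`, so the second factor
`≤ 2 + 48 L² X^(3/4) x ≤ 50 L² X^(3/4) x`; times `64 L⁴ x²`. -/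
theorem Q_bound (S : Finset ℕ) (X L Z J W u q : ℕ) (hX : 1 ≤ X) (hL : 4 ≤ L) (hZ : 1 ≤ Z)
    (hS : ∀ l ∈ S, l.Prime ∧ L ≤ l ∧ l ≤ 2 * L) (hJ : 1 ≤ J) (hJL : J ≤ L ^ 2) (p : ℤ → ℂ)
    (P : ℝ) (hP : ∀ h, ‖p h‖ ≤ P) (hP2 : P * (L * Z) ≤ 2)
    (hp : ∀ h : ℤ, h ≠ 0 → |h| < J → ‖p h‖ ≤ 1 / |(h : ℝ)|)
    (hx : 10 ≤ Real.log X) (hJx : 1 + Real.log J ≤ Real.log X) (hu : X ≤ u) (hu2 : u ≤ 2 * X)
    (hW : (W : ℝ) * Real.log X ≤ X) (h4 : 4 * L ^ 2 ≤ X) (hbig : 8 * J * L ^ 3 < u)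
    (hq : q.Prime) (hq1 : u ≤ q) (hq2 : q < u + W) (hLu : 2 * L < u) :
    ∑ n ∈ (Ico u (u + W)).filter (fun n => ¬ q ∣ n), ‖bb S J p q n‖ ^ 2 ≤
      288 * X * L / Z + 3200 * L ^ 6 * (X : ℝ) ^ (3 / 4 : ℝ) * Real.log X ^ 3 := by
  have key := second_moment_le S L J (by omega) hS hJ hJL p P hP hp q u (u + W) hq (by omega)
    (by omega) (by omega)
  refine key.trans ?_
  set x := Real.log X with hxdef
  have hX' : (1 : ℝ) ≤ X := by exact_mod_cast hX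
  have hL' : (4 : ℝ) ≤ L := by exact_mod_cast hL
  have hZ' : (1 : ℝ) ≤ Z := by exact_mod_cast hZ
  have hJ' : (1 : ℝ) ≤ J := by exact_mod_cast hJ
  have hW0 : (0 : ℝ) ≤ W := Nat.cast_nonneg W
  have hP0 : 0 ≤ P := (norm_nonneg _).trans (hP 0)
  have hlJ : 0 ≤ Real.log J := Real.log_natCast_nonneg J
  have hq' : (0 : ℝ) < q := by exact_mod_cast hq.pos
  have hWX : (W : ℝ) ≤ X := by nlinarith
  have e1 : (((u + W : ℕ) : ℝ) - u) = W := by push_cast; ring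
  rw [e1]
  have hXq : (X : ℝ) ≤ q := by exact_mod_cast hu.trans hq1
  have hq3 : (q : ℝ) ≤ 3 * X := by
    have h1 : (q : ℝ) < u + W := by exact_mod_cast hq2
    have h2 : (u : ℝ) ≤ 2 * X := by exact_mod_cast hu2
    linarith
  -- first term
  have t1 : (W : ℝ) * (144 * L ^ 2 * P * (1 + Real.log J)) ≤ 288 * X * L / Z := by
    rw [le_div_iff₀ (by linarith)]
    have h1 : (W : ℝ) * (1 + Real.log J) ≤ X := by
      calc (W : ℝ) * (1 + Real.log J) ≤ W * x := mul_le_mul_of_nonneg_left hJx hW0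
        _ ≤ X := hW
    have h2 : 0 ≤ (W : ℝ) * (1 + Real.log J) := by positivity
    have h3 : 0 ≤ P * (L * Z) := by positivity
    calc (W : ℝ) * (144 * L ^ 2 * P * (1 + Real.log J)) * Z
        = 144 * L * ((W : ℝ) * (1 + Real.log J)) * (P * (L * Z)) := by ring
      _ ≤ 144 * L * X * 2 := by
          apply mul_le_mul _ hP2 h3 (by positivity)
          apply mul_le_mul_of_nonneg_left h1 (by positivity)
      _ = 288 * X * L := by ring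
  -- second factor
  have h44 : 4 * (L : ℝ) ^ 2 ≤ X := by exact_mod_cast h4
  have f1 : ((W : ℝ) + 4 * L ^ 2) / q ≤ 2 := by
    rw [div_le_iff₀ hq']
    linarith
  have f2 : (q : ℝ) ^ (3 / 4 : ℝ) ≤ 3 * (X : ℝ) ^ (3 / 4 : ℝ) := by
    calc (q : ℝ) ^ (3 / 4 : ℝ) ≤ (3 * (X : ℝ)) ^ (3 / 4 : ℝ) :=
          Real.rpow_le_rpow hq'.le hq3 (by norm_num)
      _ = 3 ^ (3 / 4 : ℝ) * (X : ℝ) ^ (3 / 4 : ℝ) := Real.mul_rpow (by norm_num) (by linarith)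
      _ ≤ 3 * (X : ℝ) ^ (3 / 4 : ℝ) := by
          apply mul_le_mul_of_nonneg_right _ (by positivity)
          calc (3 : ℝ) ^ (3 / 4 : ℝ) ≤ 3 ^ (1 : ℝ) :=
                Real.rpow_le_rpow_of_exponent_le (by norm_num) (by norm_num)
            _ = 3 := by norm_num
  have f3 : 1 + Real.log q ≤ 2 * x := by
    have h1 : Real.log q ≤ Real.log (3 * X) := Real.log_le_log hq' hq3
    rw [Real.log_mul (by norm_num) (by linarith)] at h1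
    have h2 : Real.log 3 ≤ 3 - 1 := Real.log_le_sub_one_of_pos (by norm_num)
    linarith
  have hlq : 0 ≤ Real.log q := Real.log_natCast_nonneg q
  have hY : (1 : ℝ) ≤ (X : ℝ) ^ (3 / 4 : ℝ) := Real.one_le_rpow hX' (by norm_num)
  set Y := (X : ℝ) ^ (3 / 4 : ℝ) with hYdef
  have f4 : 8 * (L : ℝ) ^ 2 * (q : ℝ) ^ (3 / 4 : ℝ) * (1 + Real.log q) ≤ 48 * L ^ 2 * Y * x := by
    calc 8 * (L : ℝ) ^ 2 * (q : ℝ) ^ (3 / 4 : ℝ) * (1 + Real.log q)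
        ≤ 8 * L ^ 2 * (3 * Y) * (2 * x) := by
          apply mul_le_mul _ f3 (by linarith) (by positivity)
          apply mul_le_mul_of_nonneg_left f2 (by positivity)
      _ = 48 * L ^ 2 * Y * x := by ring
  have f5 : (1 : ℝ) ≤ L ^ 2 * Y * x := by
    have h1 : (1 : ℝ) ≤ L ^ 2 := by nlinarith
    have h2 : (1 : ℝ) ≤ L ^ 2 * Y := by nlinarith
    nlinarith
  have f6 : ((W : ℝ) + 4 * L ^ 2) / q +
      8 * L ^ 2 * (q : ℝ) ^ (3 / 4 : ℝ) * (1 + Real.log q) ≤ 50 * (L ^ 2 * Y * x) := by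
    have : 48 * (L : ℝ) ^ 2 * Y * x = 48 * (L ^ 2 * Y * x) := by ring
    linarith
  have f7 : (8 * (L : ℝ) ^ 2 * (1 + Real.log J)) ^ 2 ≤ 64 * L ^ 4 * x ^ 2 := by
    have h1 : 8 * (L : ℝ) ^ 2 * (1 + Real.log J) ≤ 8 * L ^ 2 * x :=
      mul_le_mul_of_nonneg_left hJx (by positivity)
    have h2 : 0 ≤ 8 * (L : ℝ) ^ 2 * (1 + Real.log J) := by positivity
    calc (8 * (L : ℝ) ^ 2 * (1 + Real.log J)) ^ 2 ≤ (8 * L ^ 2 * x) ^ 2 :=
          pow_le_pow_left₀ h2 h1 2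
      _ = 64 * L ^ 4 * x ^ 2 := by ring
  have t2 : (((W : ℝ) + 4 * L ^ 2) / q +
      8 * L ^ 2 * (q : ℝ) ^ (3 / 4 : ℝ) * (1 + Real.log q)) *
      (8 * (L : ℝ) ^ 2 * (1 + Real.log J)) ^ 2 ≤ 3200 * L ^ 6 * Y * x ^ 3 := by
    calc (((W : ℝ) + 4 * L ^ 2) / q +
        8 * L ^ 2 * (q : ℝ) ^ (3 / 4 : ℝ) * (1 + Real.log q)) *
        (8 * (L : ℝ) ^ 2 * (1 + Real.log J)) ^ 2
        ≤ (50 * (L ^ 2 * Y * x)) * (64 * L ^ 4 * x ^ 2) := by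
          apply mul_le_mul f6 f7 (by positivity) (by positivity)
      _ = 3200 * L ^ 6 * Y * x ^ 3 := by ring
  linarith

end E2P
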