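import Pool.Agent.E2P.Z1
import Pool.Agent.E2P.Z2
import Pool.Agent.E2P.F4b
import Pool.Agent.E2P.Z3a
import Pool.Agent.E2P.S3b
import Pool.Agent.E2P.V4
import Pool.Agent.E2P.H1

/-! [E2P-Z3b] The block theorem. -/

namespace E2P

open Finset

/-- The block theorem. Proof. Let `c1` be the constant of `cheb`, `c2 = c1/352`, `C = 10^9/c1^6`,
`X0` from `facts` with `B = 2304/c1^3` (`x ≥ B`, `x ≥ 10` give `x^6 > B`). Put `x = log X`,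
`κ = c2/x`, `M = u²/(LZ)`, `v = u + W`, `a = M/v²`, `b = 2M/u²`, `A0 = #E #PL/u`,
`Q = 288 X L/Z + 3200 L^6 X^(3/4) x³`.
`b - a ≥ M/u² ≥ 1/(2LZ)`, so `κ² (b-a) J ≥ 2`; `b - a ≤ 2M/u² ≤ 2/(LZ) ≤ 1/2`: `majorant'` gives
`p`, with `P = (1+4κ)(b-a)`. `u/v ≥ 1 - κ` (because `W ≤ κ u`), so `b - a ≤ (M/u²)(1+2κ)`,
`P ≤ (M/u²)(1+2κ)(1+4κ) ≤ (M/u²)(1+7κ)`, in particular `P ≤ 2M/u² ≤ 2/(LZ)`.
`Q_bound` and `N2_sum_le` (with `S = PL L`; note `2L < u`) give the hypothesis `hR` of `var_ineq`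
with `R = (#E)² (#PL)² P + #E √(#E Q) ≤ A0² M (1+7κ) + #E √(#E Q)`. In `var_ineq`:
`#E #PL (M/u+1) = A0 (M+u) ≤ 2 A0 M`; `-2 A0 #E #PL (M/v - 1) = -2A0² (M u/v - u)
≤ -2A0² (M(1-κ) - κ M)`. So
`A0² #PM/4 ≤ 11 κ A0² M + #E √(#E Q) + 6 (#E)² log(2u) + 2 A0 M`, and `final_algebra` applies
(`hpm`: `cheb M`, `log M ≤ 4x`; `hS`: `PM L ⊆ PL L`, `cheb L`, `log L ≤ x`). -/
theorem block : ∃ c2 C X0 : ℝ, 0 < c2 ∧ c2 ≤ 1 ∧ 0 < C ∧ ∀ X L Z u W : ℕ,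
    X0 ≤ X → 1 ≤ L → 1 ≤ Z → X ≤ u → u ≤ 2 * X → (W : ℝ) ≤ c2 * X / Real.log X →
    (Z : ℝ) * Real.log X ^ 10 ≤ L → (L : ℝ) ^ 4 * Z ^ 2 * (X : ℝ) ^ (3 / 4 : ℝ) ≤ X →
    ∀ E : Finset ℕ, (∀ q ∈ E, q.Prime ∧ u ≤ q ∧ q < u + W) →
    (∀ q ∈ E, (TT L (u ^ 2 / (L * Z)) q : ℝ) ≤
      (PL L).card * (PM (u ^ 2 / (L * Z))).card / (2 * u)) →
    (E.card : ℝ) ≤ C * (X * Z * Real.log X ^ 6 / L +
      L ^ 4 * Z ^ 2 * (X : ℝ) ^ (3 / 4 : ℝ) * Real.log X ^ 9) := by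
  obtain ⟨c1, hc1, hc1', hcheb⟩ := cheb
  have hc2pos : 0 < c1 / 352 := by positivity
  have hc2le : c1 / 352 ≤ 1 := by
    rw [div_le_one (by norm_num)]
    linarith
  obtain ⟨X0, hfacts⟩ := facts (c1 / 352) (2304 / c1 ^ 3) hc2pos hc2le
  refine ⟨c1 / 352, 10 ^ 9 / c1 ^ 6, X0, hc2pos, hc2le, by positivity, ?_⟩
  intro X L Z u W hX hL hZ hXu hu2 hW H2 H3 E hE hex
  obtain ⟨hB, hx10, hX1, hL4, hZL, hLu, hM2, hLM, hMu, hMlow, hMup, hκ10, huM, hWu, hWX, hlogL,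
    hlogM, hlog2u, h4L, J, hJ1, hJL, hJbig, hJκ, hJlog⟩ :=
    hfacts X L Z u W hX hL hZ hXu hu2 hW H2 H3
  generalize hxdef : Real.log (X : ℝ) = x at *
  obtain ⟨κ, hκdef⟩ : ∃ κ : ℝ, κ = c1 / 352 / x := ⟨_, rfl⟩
  rw [← hκdef] at hκ10 huM hWu hJκ
  obtain ⟨M, hMdef⟩ : ∃ M : ℕ, M = u ^ 2 / (L * Z) := ⟨_, rfl⟩
  rw [← hMdef] at hM2 hLM hMu hMlow hMup huM hlogM hex
  have hx0 : 0 < x := by linarith
  have hκ0 : 0 < κ := by rw [hκdef]; positivity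
  have hX0 : (0 : ℝ) < X := by
    have : 0 < X := by omega
    exact_mod_cast this
  have hu0 : (0 : ℝ) < u := by
    have : 0 < u := by omega
    exact_mod_cast this
  have hL0 : (0 : ℝ) < L := by
    have : 0 < L := by omega
    exact_mod_cast this
  have hZ0 : (0 : ℝ) < Z := by
    have : 0 < Z := by omega
    exact_mod_cast this
  have hZ1 : (1 : ℝ) ≤ Z := by exact_mod_cast hZ
  have hL4' : (4 : ℝ) ≤ L := by exact_mod_cast hL4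
  have hM0 : (0 : ℝ) < M := by
    have : 0 < M := by omega
    exact_mod_cast this
  have hW0 : (0 : ℝ) ≤ W := by positivity
  obtain ⟨v, hvdef⟩ : ∃ v : ℕ, v = u + W := ⟨_, rfl⟩
  have hv : (v : ℝ) = u + W := by rw [hvdef]; push_cast; ring
  have hv0 : (0 : ℝ) < v := by rw [hv]; positivity
  have hvu : (u : ℝ) ≤ v := by rw [hv]; linarith
  have hvκ : (v : ℝ) ≤ (1 + κ) * u := by rw [hv]; nlinarith
  -- the interval
  have hMu2 : (M : ℝ) / v ^ 2 ≤ M / u ^ 2 := by gcongr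
  have hMu3 : (0 : ℝ) < M / u ^ 2 := by positivity
  have hba1 : (M : ℝ) / u ^ 2 ≤ 2 * M / u ^ 2 - M / v ^ 2 := by
    have : 2 * (M : ℝ) / u ^ 2 = M / u ^ 2 + M / u ^ 2 := by ring
    linarith
  have hLZ0 : (0 : ℝ) < L * Z := by positivity
  have hMlow' : 1 / (2 * (L * Z)) ≤ (M : ℝ) / u ^ 2 := by
    rw [div_le_div_iff₀ (by positivity) (by positivity)]
    nlinarith
  have hMup' : (M : ℝ) / u ^ 2 ≤ 1 / (L * Z) := by
    rw [div_le_div_iff₀ (by positivity) (by positivity)]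
    linarith
  have hLZ4 : (4 : ℝ) ≤ L * Z := by nlinarith
  have hMup4 : (M : ℝ) / u ^ 2 ≤ 1 / 4 := hMup'.trans (one_div_le_one_div_of_le (by norm_num) hLZ4)
  have hav0 : 0 ≤ (M : ℝ) / v ^ 2 := by positivity
  have hba2 : 2 * (M : ℝ) / u ^ 2 - M / v ^ 2 ≤ 1 / 2 := by
    have : 2 * (M : ℝ) / u ^ 2 = 2 * (M / u ^ 2) := by ring
    linarith
  have hv2 : (1 - 2 * κ) * v ^ 2 ≤ (u : ℝ) ^ 2 := by
    have h1 : (v : ℝ) ^ 2 ≤ ((1 + κ) * u) ^ 2 := pow_le_pow_left₀ hv0.le hvκ 2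
    have h2 : (1 - 2 * κ) * v ^ 2 ≤ (1 - 2 * κ) * ((1 + κ) * u) ^ 2 :=
      mul_le_mul_of_nonneg_left h1 (by linarith)
    have h3 : (1 - 2 * κ) * (1 + κ) ^ 2 ≤ 1 := by nlinarith [sq_nonneg κ, mul_pos hκ0 hκ0]
    calc (1 - 2 * κ) * v ^ 2 ≤ (1 - 2 * κ) * ((1 + κ) * u) ^ 2 := h2
      _ = ((1 - 2 * κ) * (1 + κ) ^ 2) * u ^ 2 := by ring
      _ ≤ 1 * u ^ 2 := by gcongr
      _ = u ^ 2 := one_mul _
  have hba3 : 2 * (M : ℝ) / u ^ 2 - M / v ^ 2 ≤ (1 + 2 * κ) * (M / u ^ 2) := by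
    have h1 : (1 - 2 * κ) * (M / u ^ 2) ≤ M / v ^ 2 := by
      rw [← mul_div_assoc, div_le_div_iff₀ (by positivity) (by positivity)]
      have := mul_le_mul_of_nonneg_left hv2 hM0.le
      linarith
    have : 2 * (M : ℝ) / u ^ 2 = 2 * (M / u ^ 2) := by ring
    linarith
  have hJ2 : 2 ≤ κ ^ 2 * (2 * (M : ℝ) / u ^ 2 - M / v ^ 2) * J := by
    have h1 : 1 / (2 * (L * Z)) ≤ 2 * (M : ℝ) / u ^ 2 - M / v ^ 2 := hMlow'.trans hba1
    have h2 : 4 * (L : ℝ) * Z * (1 / (2 * (L * Z))) ≤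
        κ ^ 2 * J * (2 * (M : ℝ) / u ^ 2 - M / v ^ 2) := by
      apply mul_le_mul hJκ h1 (by positivity) (by positivity)
    have h3 : 4 * (L : ℝ) * Z * (1 / (2 * (L * Z))) = 2 := by
      field_simp
      norm_num
    rw [h3] at h2
    linarith
  obtain ⟨p, hpos, hone, hP, hp⟩ := majorant' κ ((M : ℝ) / v ^ 2) (2 * (M : ℝ) / u ^ 2) J hκ0 hκ10
    (by linarith) hba2 hJ2
  obtain ⟨P, hPdef⟩ : ∃ P : ℝ, P = (1 + 4 * κ) * (2 * (M : ℝ) / u ^ 2 - M / v ^ 2) := ⟨_, rfl⟩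
  rw [← hPdef] at hP
  have hP7 : P ≤ (1 + 7 * κ) * (M / u ^ 2) := by
    rw [hPdef]
    calc (1 + 4 * κ) * (2 * (M : ℝ) / u ^ 2 - M / v ^ 2)
        ≤ (1 + 4 * κ) * ((1 + 2 * κ) * (M / u ^ 2)) := by gcongr
      _ = ((1 + 4 * κ) * (1 + 2 * κ)) * (M / u ^ 2) := by ring
      _ ≤ (1 + 7 * κ) * (M / u ^ 2) := by
        apply mul_le_mul_of_nonneg_right _ hMu3.le
        nlinarith
  have hPLZ : P * (L * Z) ≤ 2 := by
    calc P * (L * Z) ≤ ((1 + 7 * κ) * (M / u ^ 2)) * (L * Z) := by gcongr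
      _ ≤ (2 * (1 / (L * Z))) * (L * Z) := by
        gcongr
        linarith
      _ = 2 := by field_simp
  have hWx : (W : ℝ) * x ≤ X := by
    have h1 : (W : ℝ) * x ≤ (c1 / 352 * X / x) * x := by gcongr
    have h2 : (c1 / 352 * X / x) * x = c1 / 352 * X := by field_simp
    rw [h2] at h1
    nlinarith
  obtain ⟨Q, hQdef⟩ : ∃ Q : ℝ, Q = 288 * X * L / Z +
    3200 * L ^ 6 * (X : ℝ) ^ (3 / 4 : ℝ) * x ^ 3 := ⟨_, rfl⟩
  have hQ : ∀ q ∈ E, ∑ n ∈ (Ico u v).filter (fun n => ¬ q ∣ n), ‖bb (PL L) J p q n‖ ^ 2 ≤ Q := by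
    intro q hq
    obtain ⟨hq1, hq2, hq3⟩ := hE q hq
    rw [hQdef, hvdef, ← hxdef]
    apply Q_bound (PL L) X L Z J W u q hX1 hL4 hZ _ hJ1 hJL p P hP hPLZ hp (hxdef ▸ hx10)
      (hxdef ▸ hJlog) hXu hu2 (hxdef ▸ hWx) h4L hJbig hq1 hq2 hq3 hLu
    intro l hl
    unfold PL at hl
    rw [mem_filter, mem_Icc] at hl
    exact ⟨hl.2, hl.1.1, hl.1.2⟩
  have hE' : ∀ q ∈ E, q.Prime ∧ u ≤ q ∧ q < v := by
    intro q hq
    rw [hvdef]
    exact hE q hq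
  have hR := N2_sum_le E (PL L) M u v J p P Q hE' (by
    intro l hl
    unfold PL at hl
    rw [mem_filter, mem_Icc] at hl
    exact ⟨hl.2, by omega⟩) (by omega) hMu hJ1 hpos hone hP hQ
  obtain ⟨e, hedef⟩ : ∃ e : ℝ, e = E.card := ⟨_, rfl⟩
  obtain ⟨S, hSdef⟩ : ∃ S : ℝ, S = (PL L).card := ⟨_, rfl⟩
  rw [← hedef, ← hSdef] at hR
  have he0 : 0 ≤ e := by rw [hedef]; positivity
  have hS0 : 0 ≤ S := by rw [hSdef]; positivity
  have hvar := var_ineq E L M u v (by omega) (by omega) (by omega) hE' hLM hLu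
    (e * S / u) (e ^ 2 * S ^ 2 * P + e * √(e * Q)) (by rw [hedef, hSdef]) (by
      intro q hq
      exact hex q hq) hR
  rw [← hedef, ← hSdef] at hvar
  have hA0 : 0 ≤ e * S / u := by positivity
  obtain ⟨A0, hA0def⟩ : ∃ A0 : ℝ, A0 = e * S / u := ⟨_, rfl⟩
  have heS : e * S = A0 * u := by rw [hA0def]; field_simp
  rw [← hA0def] at hvar hA0
  have huv1 : (1 - κ) * v ≤ u := by nlinarith
  have huM' : (u : ℝ) ≤ M := by
    have : κ * M ≤ 1 * M := by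
      apply mul_le_mul_of_nonneg_right _ hM0.le
      linarith
    linarith
  have main : A0 ^ 2 * (PM M).card / 4 ≤ 11 * (c1 / 352 / x) * A0 ^ 2 * M + e * √(e * Q) +
      6 * e ^ 2 * Real.log (2 * u) + 2 * A0 * M := by
    refine hvar.trans ?_
    rw [← hκdef]
    have t1 : e ^ 2 * S ^ 2 * P ≤ A0 ^ 2 * M * (1 + 7 * κ) := by
      have h1 : e ^ 2 * S ^ 2 * P = (A0 * u) ^ 2 * P := by rw [← heS]; ring
      rw [h1]
      calc (A0 * u) ^ 2 * P ≤ (A0 * u) ^ 2 * ((1 + 7 * κ) * (M / u ^ 2)) := by gcongr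
        _ = A0 ^ 2 * M * (1 + 7 * κ) := by field_simp
    have t2 : e * S * ((M : ℝ) / u + 1) ≤ 2 * A0 * M := by
      have h1 : e * S * ((M : ℝ) / u + 1) = A0 * (M + u) := by
        rw [heS]; field_simp
      rw [h1]
      nlinarith
    have t3 : 2 * A0 ^ 2 * (M * (1 - κ) - κ * M) ≤ 2 * A0 * (e * S * ((M : ℝ) / v - 1)) := by
      have h1 : 2 * A0 * (e * S * ((M : ℝ) / v - 1)) = 2 * A0 ^ 2 * (M * (u / v) - u) := by
        rw [heS]; field_simp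
      rw [h1]
      have h2 : 1 - κ ≤ (u : ℝ) / v := by
        rw [le_div_iff₀ hv0]; exact huv1
      have h3 : (M : ℝ) * (1 - κ) ≤ M * (u / v) := by gcongr
      apply mul_le_mul_of_nonneg_left _ (by positivity)
      linarith
    clear hvar hR hQ hpos hone hP hp hex hE hE' hcheb hfacts hB hM2 hLM hMu
    linarith
  have hPM : c1 * M / (4 * x) ≤ (PM M).card := by
    refine le_trans ?_ (hcheb M hM2)
    have hlM : 0 < Real.log M := Real.log_pos (by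
      have : (2 : ℝ) ≤ M := by exact_mod_cast hM2
      linarith)
    gcongr
  have hPL : c1 * L / x ≤ S := by
    have h1 : (PM L).card ≤ (PL L).card := by
      apply card_le_card
      intro l hl
      unfold PM at hl
      unfold PL
      rw [mem_filter, mem_Ioc] at hl
      rw [mem_filter, mem_Icc]
      exact ⟨⟨hl.1.1.le, hl.1.2⟩, hl.2⟩
    have h2 : ((PM L).card : ℝ) ≤ S := by rw [hSdef]; exact_mod_cast h1
    refine le_trans ?_ ((hcheb L (by omega)).trans h2)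
    have hlL : 0 < Real.log L := Real.log_pos (by linarith)
    gcongr
  have hx6 : 2304 / c1 ^ 3 < x ^ 6 := by
    have h1 : x ^ 1 < x ^ 6 := pow_lt_pow_right₀ (by linarith) (by norm_num)
    rw [pow_one] at h1
    linarith
  have := final_algebra c1 x X ((X : ℝ) ^ (3 / 4 : ℝ)) L Z e S u M A0 Q (PM M).card
    (Real.log (2 * u)) hc1 hc1' (by linarith) hX0 (by positivity) hL0 hZ1 he0 hu0
    (by exact_mod_cast hu2) hM0 hMlow hPL hA0def hPM hQdef hlog2u hx6 H2 main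
  rw [← hedef]
  linarith

end E2P
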