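import Pool.Agent.E2P.Defs

/-! [E2P-Z4a] From the pairs to the integers k. -/

namespace E2P

open Finset

/-- The set of the integers `k` of the theorem. -/
def KK (L Z p : ℕ) : Set ℕ := {k : ℕ | 1 ≤ k ∧ Z * k ≤ 2 * p ∧ ¬ p ∣ k ∧
  ∃ l r : ℕ, l.Prime ∧ r.Prime ∧ L ≤ l ∧ l ≤ 2 * L ∧ p ^ 2 ≤ 4 * L * Z * r ∧
    2 * k * p + 1 = l * r}

/-- Proof. Let `M = u²/(LZ)`. To a pair `(l, m)` counted by `TT L M q` attach `k = (l m - 1)/(2q)`.
`l ≥ L ≥ 3` and `m > M ≥ 2` are odd primes, `q` is odd (`q ≥ u > 2`), so `l m ≡ 1 mod 2q` and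
`2kq + 1 = l m`; `k ≥ 1` as `l m > 1`; `2kq < l m ≤ 4LM`, `Z k ≤ Z * 4LM/(2q) ≤ 4u²/(2q) ≤ 2u ≤ 2q`
(`Z L M ≤ u²`, `u ≤ q`); `q² < 4u² < 4LZ(M+1) ≤ 4LZ m` (`q < 2u`; `u² < LZ (M+1)` by the floor). The
map is injective: `l m = l' m'` with `l, l' ≤ 2L < M < m, m'`.. primes, so `l = l'`, `m = m'` (needs
`2L ≤ M`, a hypothesis). The integers `k ≤ 2q` of the image with `q ∣ k` are at most two. -/
theorem card_le_TT (L Z u q : ℕ) (hL : 3 ≤ L) (hZ : 1 ≤ Z) (hq : q.Prime) (hu : 3 ≤ u)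
    (h1 : u ≤ q) (h2 : q < 2 * u) (hM : 2 * L ≤ u ^ 2 / (L * Z)) :
    TT L (u ^ 2 / (L * Z)) q ≤ (KK L Z q).ncard + 2 := by
  classical
  obtain ⟨M, hMdef⟩ : ∃ M, M = u ^ 2 / (L * Z) := ⟨_, rfl⟩
  rw [← hMdef] at hM ⊢
  have hLZ : 0 < L * Z := Nat.mul_pos (by omega) (by omega)
  have hM1 : L * Z * M ≤ u ^ 2 := by
    rw [hMdef]
    exact Nat.mul_div_le _ _
  have hM2 : u ^ 2 < L * Z * (M + 1) := by
    rw [hMdef]
    exact Nat.lt_mul_div_succ _ hLZ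
  have hq0 : 0 < q := hq.pos
  have hq3 : 3 ≤ q := by omega
  obtain ⟨F, hF⟩ : ∃ F, F = (PL L ×ˢ PM M).filter fun x => x.1 * x.2 ≡ 1 [MOD q] := ⟨_, rfl⟩
  obtain ⟨f, hf⟩ : ∃ f : ℕ × ℕ → ℕ, ∀ x, f x = (x.1 * x.2 - 1) / (2 * q) := ⟨_, fun _ => rfl⟩
  have hmem : ∀ x ∈ F, x.1.Prime ∧ L ≤ x.1 ∧ x.1 ≤ 2 * L ∧ x.2.Prime ∧ M < x.2 ∧ x.2 ≤ 2 * M ∧
      x.1 * x.2 ≡ 1 [MOD q] := by
    intro x hx
    rw [hF, mem_filter, mem_product] at hx
    unfold PL PM at hx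
    rw [mem_filter, mem_filter, mem_Icc, mem_Ioc] at hx
    tauto
  have hkey : ∀ x ∈ F, x.1 * x.2 = 2 * f x * q + 1 := by
    intro x hx
    obtain ⟨a1, a2, a3, b1, b2, b3, c⟩ := hmem x hx
    have hodd : Odd (x.1 * x.2) :=
      (a1.odd_of_ne_two (by omega)).mul (b1.odd_of_ne_two (by omega))
    have hqodd : Nat.Coprime 2 q :=
      (Nat.coprime_primes Nat.prime_two hq).2 (by omega)
    have hc2 : x.1 * x.2 ≡ 1 [MOD 2] := by
      rw [Nat.ModEq, Nat.odd_iff.1 hodd]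
    have hc : x.1 * x.2 ≡ 1 [MOD 2 * q] := (Nat.modEq_and_modEq_iff_modEq_mul hqodd).1 ⟨hc2, c⟩
    have hge : 1 ≤ x.1 * x.2 := Nat.mul_pos a1.pos b1.pos
    have hd := (Nat.modEq_iff_dvd' hge).1 hc.symm
    obtain ⟨k, hk⟩ := hd
    have h3 : f x = k := by
      rw [hf, hk]
      exact Nat.mul_div_cancel_left k (by omega)
    rw [h3]
    have h4 : x.1 * x.2 = 2 * q * k + 1 := by omega
    rw [h4]
    ring
  have hTT : TT L M q = F.card := by
    unfold TT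
    rw [hF]
  have hinj : Set.InjOn f F := by
    intro x hx y hy hxy
    obtain ⟨a1, a2, a3, b1, b2, b3, c⟩ := hmem x hx
    obtain ⟨a1', a2', a3', b1', b2', b3', c'⟩ := hmem y hy
    have h3 := hkey x hx
    have h4 := hkey y hy
    rw [hxy, ← h4] at h3
    have hd : x.1 ∣ y.1 * y.2 := ⟨x.2, h3.symm⟩
    have h5 : x.1 = y.1 := by
      rcases (Nat.Prime.dvd_mul a1).1 hd with h6 | h6
      · exact (Nat.prime_dvd_prime_iff_eq a1 a1').1 h6
      · have := (Nat.prime_dvd_prime_iff_eq a1 b1').1 h6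
        omega
    rw [h5] at h3
    have h6 : x.2 = y.2 := Nat.eq_of_mul_eq_mul_left a1'.pos h3
    exact Prod.ext h5 h6
  have hfin : (KK L Z q).Finite := by
    refine (Set.finite_Iic (2 * q)).subset fun k hk => ?_
    obtain ⟨k1, k2, -, -⟩ := hk
    show k ≤ 2 * q
    calc k = 1 * k := (one_mul k).symm
      _ ≤ Z * k := Nat.mul_le_mul_right k hZ
      _ ≤ 2 * q := k2
  have hsub : (((F.image f) \ {q, 2 * q} : Finset ℕ) : Set ℕ) ⊆ KK L Z q := by
    intro k hk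
    rw [Finset.mem_coe, mem_sdiff, mem_image] at hk
    obtain ⟨⟨x, hx, rfl⟩, hk2⟩ := hk
    obtain ⟨a1, a2, a3, b1, b2, b3, c⟩ := hmem x hx
    have h3 := hkey x hx
    have hpos : 1 ≤ f x := by
      rw [Nat.one_le_iff_ne_zero]
      intro h0
      rw [h0, mul_zero, zero_mul, zero_add] at h3
      have h4 := Nat.eq_one_of_mul_eq_one_right h3
      exact a1.one_lt.ne' h4
    have hu2 : u ^ 2 ≤ q ^ 2 := Nat.pow_le_pow_left h1 2
    have hZk : Z * f x ≤ 2 * q := by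
      have e1 : 2 * f x * q < (2 * L) * (2 * M) := by
        calc 2 * f x * q < x.1 * x.2 := by omega
          _ ≤ (2 * L) * (2 * M) := Nat.mul_le_mul a3 b3
      have e2 : q * (2 * (Z * f x)) ≤ q * (2 * (2 * q)) := by
        calc q * (2 * (Z * f x)) = Z * (2 * f x * q) := by ring
          _ ≤ Z * ((2 * L) * (2 * M)) := Nat.mul_le_mul_left Z e1.le
          _ = 4 * (L * Z * M) := by ring
          _ ≤ 4 * q ^ 2 := Nat.mul_le_mul_left 4 (hM1.trans hu2)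
          _ = q * (2 * (2 * q)) := by ring
      have e3 := Nat.le_of_mul_le_mul_left e2 hq0
      omega
    have hndvd : ¬ q ∣ f x := by
      rintro ⟨j, hj⟩
      have e1 : f x ≤ 2 * q := by
        calc f x = 1 * f x := (one_mul _).symm
          _ ≤ Z * f x := Nat.mul_le_mul_right _ hZ
          _ ≤ 2 * q := hZk
      have e2 : j ≤ 2 := by
        have : q * j ≤ q * 2 := by rw [← hj]; omega
        exact Nat.le_of_mul_le_mul_left this hq0
      apply hk2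
      rw [mem_insert, mem_singleton]
      interval_cases j
      · omega
      · left
        omega
      · right
        omega
    have hq2 : q ^ 2 ≤ 4 * L * Z * x.2 := by
      have e1 : q ^ 2 ≤ (2 * u) ^ 2 := Nat.pow_le_pow_left h2.le 2
      have e2 : L * Z * (M + 1) ≤ L * Z * x.2 := Nat.mul_le_mul_left _ b2
      calc q ^ 2 ≤ (2 * u) ^ 2 := e1
        _ = 4 * u ^ 2 := by ring
        _ ≤ 4 * (L * Z * (M + 1)) := Nat.mul_le_mul_left 4 hM2.le
        _ ≤ 4 * (L * Z * x.2) := Nat.mul_le_mul_left 4 e2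
        _ = 4 * L * Z * x.2 := by ring
    exact ⟨hpos, hZk, hndvd, x.1, x.2, a1, b1, a2, a3, hq2, h3.symm⟩
  calc TT L M q = F.card := hTT
    _ = (F.image f).card := (Finset.card_image_of_injOn hinj).symm
    _ ≤ ((F.image f) \ {q, 2 * q}).card + ({q, 2 * q} : Finset ℕ).card :=
        Finset.card_le_card_sdiff_add_card
    _ ≤ (KK L Z q).ncard + 2 := by
        refine Nat.add_le_add ?_ Finset.card_le_two
        rw [← Set.ncard_coe_finset]
        exact Set.ncard_le_ncard hsub hfin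

end E2P
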