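import Pool.Agent.E2P.Z1
import Pool.Agent.E2P.H1
import Pool.Agent.E2P.Z4a

/-! [E2P-Z4b] Many integers k. -/

namespace E2P

open Finset

/-- Proof. `card_le_TT`, `facts` (for the same `c2`, with `W = 0`; `2L ≤ M` because `M ≥ u ≥ 2L`),
`cheb`: `#KK ≥ TT - 2 > #PL #PM/(2u) - 2 ≥ (c1 L/x)(c1 M/(4x))/(2u) - 2` with `x = log X`, and
`L M ≥ u²/(2Z)`: `≥ c1² u/(16 Z x²) - 2 ≥ c1² u/(32 Z x²)`, because `c1² u/(32 Z x²) ≥ 2` for large
`X` (`Z ≤ X^(1/8)`, since `Z ≤ L`, `L⁴ ≤ X^(1/4)`). Finally `u > q/2` and `x ≤ log q`: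
`≥ (c1²/64) q/(Z (log q)²)`. -/
theorem many_k : ∃ c X0 : ℝ, 0 < c ∧ ∀ X L Z u q : ℕ, X0 ≤ X → 1 ≤ L → 1 ≤ Z → X ≤ u →
    u ≤ 2 * X → q.Prime → u ≤ q → q < 2 * u → (Z : ℝ) * Real.log X ^ 10 ≤ L →
    (L : ℝ) ^ 4 * Z ^ 2 * (X : ℝ) ^ (3 / 4 : ℝ) ≤ X →
    ((PL L).card * (PM (u ^ 2 / (L * Z))).card / (2 * u) : ℝ) < TT L (u ^ 2 / (L * Z)) q →
    c * q / (Z * Real.log q ^ 2) ≤ ((KK L Z q).ncard : ℝ) := by
  obtain ⟨c1, hc1, hc1', hch⟩ := cheb
  obtain ⟨X0, hX0⟩ := facts 1 (16 / c1 ^ 2) one_pos le_rfl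
  refine ⟨c1 ^ 2 / 64, X0, by positivity, ?_⟩
  intro X L Z u q hX hL1 hZ1 hXu hu2 hq huq hq2 hZx hLZ hTT
  have hlogX : 0 ≤ Real.log X := Real.log_natCast_nonneg X
  obtain ⟨hB, hx10, hX1, hL4, hZL, h2L, hM2, hLM, hMu, huM, hMu2, hk, huk, hWu, hWX, hlL, hlM,
    hl2u, h4L, -⟩ := hX0 X L Z u 0 hX hL1 hZ1 hXu hu2 (by push_cast; positivity) hZx hLZ
  set x := Real.log X with hxdef
  set M := u ^ 2 / (L * Z) with hMdef
  have hx0 : 0 < x := by linarith
  have hu0 : (0 : ℝ) < u := by exact_mod_cast (by omega : 0 < u)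
  have hM0 : (0 : ℝ) < M := by exact_mod_cast (by omega : 0 < M)
  have hL0 : (0 : ℝ) < L := by exact_mod_cast (by omega : 0 < L)
  have hZ0 : (0 : ℝ) < Z := by exact_mod_cast (by omega : 0 < Z)
  -- 2L ≤ M
  have h10 : 10 * (u : ℝ) ≤ M := by
    have : 1 / x * (M : ℝ) ≤ 1 / 10 * M := mul_le_mul_of_nonneg_right hk hM0.le
    linarith
  have h2LM : 2 * L ≤ M := by
    have h1 : (u : ℝ) ≤ M := by linarith
    have h2 : u ≤ M := by exact_mod_cast h1
    omega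
  have hTK := card_le_TT L Z u q (by omega) hZ1 hq (by omega) huq hq2 h2LM
  have hTK' : (TT L M q : ℝ) ≤ (KK L Z q).ncard + 2 := by exact_mod_cast hTK
  -- the number of primes
  have hPL : c1 * L / x ≤ (PL L).card := by
    have h1 := hch L (by omega)
    have h2 : (PM L).card ≤ (PL L).card := by
      apply card_le_card
      intro p hp
      unfold PM at hp
      unfold PL
      rw [mem_filter, mem_Ioc] at hp
      rw [mem_filter, mem_Icc]
      exact ⟨⟨hp.1.1.le, hp.1.2⟩, hp.2⟩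
    have h3 : ((PM L).card : ℝ) ≤ (PL L).card := by exact_mod_cast h2
    have h4 : 0 < Real.log L := Real.log_pos (by exact_mod_cast (by omega : 1 < L))
    calc c1 * L / x ≤ c1 * L / Real.log L :=
          div_le_div_of_nonneg_left (by positivity) h4 hlL
      _ ≤ (PM L).card := h1
      _ ≤ _ := h3
  have hPM : c1 * M / (4 * x) ≤ (PM M).card := by
    have h1 := hch M hM2
    have h4 : 0 < Real.log M := Real.log_pos (by exact_mod_cast (by omega : 1 < M))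
    calc c1 * M / (4 * x) ≤ c1 * M / Real.log M :=
          div_le_div_of_nonneg_left (by positivity) h4 hlM
      _ ≤ (PM M).card := h1
  have hprod : c1 * L / x * (c1 * M / (4 * x)) ≤ (PL L).card * (PM M).card :=
    mul_le_mul hPL hPM (by positivity) (by positivity)
  -- main lower bound
  have hmain : c1 ^ 2 * u / (16 * Z * x ^ 2) ≤ ((PL L).card * (PM M).card / (2 * u) : ℝ) := by
    rw [le_div_iff₀ (by positivity)]
    refine le_trans ?_ hprod
    rw [div_mul_div_comm, div_mul_eq_mul_div, div_le_div_iff₀ (by positivity) (by positivity)]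
    have e1 : c1 ^ 2 * u * (2 * u) * (x * (4 * x)) = (8 * c1 ^ 2 * x ^ 2) * (u : ℝ) ^ 2 := by ring
    have e2 : c1 * L * (c1 * M) * (16 * Z * x ^ 2) =
        (8 * c1 ^ 2 * x ^ 2) * (2 * L * Z * (M : ℝ)) := by ring
    rw [e1, e2]
    exact mul_le_mul_of_nonneg_left huM (by positivity)
  -- the error 2
  have hbig : 2 ≤ c1 ^ 2 * u / (32 * Z * x ^ 2) := by
    rw [le_div_iff₀ (by positivity)]
    have h1 : 4 * (L : ℝ) ^ 2 ≤ X := by exact_mod_cast h4L
    have h2 : (X : ℝ) ≤ u := by exact_mod_cast hXu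
    have hB' : 16 ≤ c1 ^ 2 * x := by
      rw [div_le_iff₀ (by positivity)] at hB
      linarith
    have hx1 : (1 : ℝ) ≤ x := by linarith
    -- Z x² ≤ L / x^8 ; L ≥ 1
    have hL1' : (1 : ℝ) ≤ L := by exact_mod_cast hL1
    have h3 : 64 * (Z * x ^ 2) ≤ c1 ^ 2 * (4 * L ^ 2) := by
      have h5 : 16 * (Z * x ^ 2) ≤ (c1 ^ 2 * x) * (Z * x ^ 2) :=
        mul_le_mul_of_nonneg_right hB' (by positivity)
      have h6 : (c1 ^ 2 * x) * (Z * x ^ 2) ≤ c1 ^ 2 * (Z * x ^ 10) := by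
        have : x ^ 3 ≤ x ^ 10 := pow_le_pow_right₀ hx1 (by norm_num)
        calc (c1 ^ 2 * x) * (Z * x ^ 2) = c1 ^ 2 * (Z * x ^ 3) := by ring
          _ ≤ c1 ^ 2 * (Z * x ^ 10) := by
              apply mul_le_mul_of_nonneg_left _ (by positivity)
              exact mul_le_mul_of_nonneg_left this (by positivity)
      have h7 : c1 ^ 2 * (Z * x ^ 10) ≤ c1 ^ 2 * L :=
        mul_le_mul_of_nonneg_left hZx (by positivity)
      have h8 : c1 ^ 2 * (L : ℝ) ≤ c1 ^ 2 * L ^ 2 := by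
        apply mul_le_mul_of_nonneg_left _ (by positivity)
        nlinarith
      linarith
    have h9 : c1 ^ 2 * (4 * (L : ℝ) ^ 2) ≤ c1 ^ 2 * u :=
      mul_le_mul_of_nonneg_left (h1.trans h2) (by positivity)
    calc 2 * (32 * Z * x ^ 2) = 64 * (Z * x ^ 2) := by ring
      _ ≤ c1 ^ 2 * (4 * L ^ 2) := h3
      _ ≤ c1 ^ 2 * u := h9
  have hhalf : c1 ^ 2 * u / (16 * Z * x ^ 2) = 2 * (c1 ^ 2 * u / (32 * Z * x ^ 2)) := by
    field_simp
    ring
  have hKK : c1 ^ 2 * u / (32 * Z * x ^ 2) ≤ (KK L Z q).ncard := by linarith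
  refine le_trans ?_ hKK
  have hxq : x ≤ Real.log q := by
    apply Real.log_le_log (by exact_mod_cast (by omega : 0 < X))
    exact_mod_cast hXu.trans huq
  have hq2' : (q : ℝ) ≤ 2 * u := by exact_mod_cast hq2.le
  have hq0 : (0 : ℝ) < q := by exact_mod_cast hq.pos
  have hlq : 0 < Real.log q := lt_of_lt_of_le hx0 hxq
  calc c1 ^ 2 / 64 * q / (Z * Real.log q ^ 2) ≤ c1 ^ 2 / 64 * (2 * u) / (Z * Real.log q ^ 2) := by
        apply div_le_div_of_nonneg_right _ (by positivity)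
        apply mul_le_mul_of_nonneg_left hq2' (by positivity)
    _ ≤ c1 ^ 2 / 64 * (2 * u) / (Z * x ^ 2) := by
        apply div_le_div_of_nonneg_left (by positivity) (by positivity)
        apply mul_le_mul_of_nonneg_left _ hZ0.le
        exact pow_le_pow_left₀ hx0.le hxq 2
    _ = c1 ^ 2 * u / (32 * Z * x ^ 2) := by
        field_simp
        ring

end E2P
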