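import Pool.Agent.E2P.Z3b
import Pool.Agent.E2P.Z4b

/-! [E2P-Z5] The theorem. -/

namespace E2P

open Finset

open scoped Classical in
/-- Proof. Let `c2, C1, X1` be the constants of `block` and `c, X2` those of `many_k`. Let
`x = log X`, `G = X Z x^10/L + L⁴ Z² X^(3/4) x^10`. The set `F` of the primes `p ∈ [X, 2X]` with
`#KK < c p/(Z (log p)²)` has at most `X + 1` elements. (a) If `X < max X1 X2 X3 (=: X4)`: `G ≥
X^(3/4) x^10 ≥ (log 2)^10`, so `#F ≤ X4 + 1 ≤ C G` for `C ≥ (X4+1)/(log 2)^10`. (b) If `L < Z x^10`: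
`G ≥ X`, `#F ≤ 2X ≤ 2G`. (c) If `L⁴ Z² X^(3/4) > X`: `G ≥ X x^10 ≥ X` (`x ≥ 1` for `X ≥ X3`).
(d) Otherwise let `W = ⌊c2 X/x⌋ ≥ 1` (and `≥ c2 X/(2x)`) and `K = X/W + 1`; every `p ∈ [X, 2X]` lies in
exactly one block `[u, u+W)`, `u = X + i W`, `i = (p - X)/W < K`, `u ≤ p ≤ 2X`. If `p ∈ F` lies in
the block, then `p < u + W ≤ 2u`, and by `many_k` `TT ≤ #PL #PM/(2u)`. So `block` bounds the number
of the elements of `F` in each block (for blocks with `u ≤ 2X`; the others contain no element) by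
`C1 (X Z x^6/L + L⁴ Z² X^(3/4) x^9)`, and `K ≤ X/W + 1 ≤ 2x/c2 + 1 ≤ (3/c2) x`. Total
`≤ (3 C1/c2) (X Z x^7/L + L⁴ Z² X^(3/4) x^10) ≤ (3 C1/c2) G`. -/
theorem main : ∃ C c : ℝ, 0 < C ∧ 0 < c ∧ ∀ X L Z : ℕ, 2 ≤ X → 1 ≤ L → 1 ≤ Z →
    (((Icc X (2 * X)).filter fun p => p.Prime ∧
      ((KK L Z p).ncard : ℝ) < c * p / (Z * Real.log p ^ 2)).card : ℝ) ≤
    C * (X * Z / L + L ^ 4 * Z ^ 2 * (X : ℝ) ^ (3 / 4 : ℝ)) * Real.log X ^ 10 := by
  obtain ⟨c2, C1, X1, hc2, hc2', hC1, hblock⟩ := block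
  obtain ⟨c, X2, hc, hmany⟩ := many_k
  obtain ⟨X3, hX3⟩ : ∃ X3 : ℝ, ∀ X : ℕ, X3 ≤ X → 3 ≤ Real.log X ∧ 2 ≤ c2 * X / Real.log X := by
    have h1 : ∀ᶠ x : ℝ in Filter.atTop, 3 ≤ Real.log x :=
      Real.tendsto_log_atTop.eventually_ge_atTop _
    have h2 : ∀ᶠ x : ℝ in Filter.atTop, 2 ≤ c2 * x / Real.log x := by
      have h3 := Real.isLittleO_log_id_atTop.bound (c := c2 / 2) (by positivity)
      filter_upwards [h3, h1, Filter.eventually_ge_atTop (0 : ℝ)] with x hx hx1 hx0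
      rw [Real.norm_of_nonneg (by linarith), id, Real.norm_of_nonneg hx0] at hx
      rw [le_div_iff₀ (by linarith)]
      linarith
    obtain ⟨X3, hX3⟩ := Filter.eventually_atTop.mp (h1.and h2)
    exact ⟨X3, fun X hX => hX3 X hX⟩
  obtain ⟨X4, h41, h42, h43, h44⟩ : ∃ X4 : ℝ, X1 ≤ X4 ∧ X2 ≤ X4 ∧ X3 ≤ X4 ∧ 0 ≤ X4 :=
    ⟨max (max X1 X2) (max X3 0), (le_max_left _ _).trans (le_max_left _ _),
      (le_max_right _ _).trans (le_max_left _ _), (le_max_left _ _).trans (le_max_right _ _),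
      (le_max_right _ _).trans (le_max_right _ _)⟩
  have hlog2 : 0 < Real.log 2 := Real.log_pos (by norm_num)
  obtain ⟨Ca, hCa⟩ : ∃ Ca : ℝ, Ca = (X4 + 1) / Real.log 2 ^ 10 := ⟨_, rfl⟩
  obtain ⟨Cd, hCd⟩ : ∃ Cd : ℝ, Cd = 3 * C1 / c2 := ⟨_, rfl⟩
  have hCa0 : 0 ≤ Ca := by rw [hCa]; positivity
  have hCd0 : 0 ≤ Cd := by rw [hCd]; positivity
  refine ⟨Ca + 2 + Cd, c, by positivity, hc, ?_⟩
  intro X L Z hX hL hZ
  obtain ⟨F, hF⟩ : ∃ F : Finset ℕ, F = (Icc X (2 * X)).filter fun p => p.Prime ∧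
      ((KK L Z p).ncard : ℝ) < c * p / (Z * Real.log p ^ 2) := ⟨_, rfl⟩
  rw [← hF]
  have hFX : (F.card : ℝ) ≤ X + 1 := by
    have h1 : F.card ≤ (Icc X (2 * X)).card := by
      rw [hF]; exact card_le_card (filter_subset _ _)
    rw [Nat.card_Icc] at h1
    have h2 : 2 * X + 1 - X = X + 1 := by omega
    rw [h2] at h1
    exact_mod_cast h1
  have hX2 : (2 : ℝ) ≤ X := by exact_mod_cast hX
  have hX0 : (0 : ℝ) < X := by linarith
  have hL1 : (1 : ℝ) ≤ L := by exact_mod_cast hL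
  have hL0 : (0 : ℝ) < L := by linarith
  have hZ1 : (1 : ℝ) ≤ Z := by exact_mod_cast hZ
  have hZ0 : (0 : ℝ) < Z := by linarith
  obtain ⟨x, hx⟩ : ∃ x : ℝ, x = Real.log X := ⟨_, rfl⟩
  rw [← hx]
  have hx2 : Real.log 2 ≤ x := by rw [hx]; exact Real.log_le_log (by norm_num) hX2
  have hx0 : 0 < x := by linarith
  obtain ⟨G1, hG1⟩ : ∃ G1 : ℝ, G1 = X * Z / L := ⟨_, rfl⟩
  obtain ⟨G2, hG2⟩ : ∃ G2 : ℝ, G2 = L ^ 4 * Z ^ 2 * (X : ℝ) ^ (3 / 4 : ℝ) := ⟨_, rfl⟩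
  rw [← hG1, ← hG2]
  have hG10 : 0 ≤ G1 := by rw [hG1]; positivity
  have hX34 : 1 ≤ (X : ℝ) ^ (3 / 4 : ℝ) := Real.one_le_rpow (by linarith) (by norm_num)
  have hG20 : 1 ≤ G2 := by
    rw [hG2]
    have h1 : (1 : ℝ) ≤ (L : ℝ) ^ 4 := one_le_pow₀ hL1
    have h2 : (1 : ℝ) ≤ (Z : ℝ) ^ 2 := one_le_pow₀ hZ1
    have h3 : (1 : ℝ) ≤ (L : ℝ) ^ 4 * Z ^ 2 := by nlinarith
    nlinarith
  obtain ⟨G, hG⟩ : ∃ G : ℝ, G = (G1 + G2) * x ^ 10 := ⟨_, rfl⟩
  have hgoal : (Ca + 2 + Cd) * (G1 + G2) * x ^ 10 = Ca * G + 2 * G + Cd * G := by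
    rw [hG]; ring
  rw [hgoal]
  have hG0 : 0 ≤ G := by rw [hG]; positivity
  have hCaG : 0 ≤ Ca * G := by positivity
  have hCdG : 0 ≤ Cd * G := by positivity
  -- (a) small X
  rcases lt_or_ge (X : ℝ) X4 with ha | ha
  · have h1 : Real.log 2 ^ 10 ≤ G := by
      rw [hG]
      have h2 : Real.log 2 ^ 10 ≤ x ^ 10 := pow_le_pow_left₀ hlog2.le hx2 10
      have h3 : 0 ≤ x ^ 10 := by positivity
      nlinarith
    have h2 : X4 + 1 ≤ Ca * G := by
      calc X4 + 1 = Ca * Real.log 2 ^ 10 := by rw [hCa]; field_simp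
        _ ≤ Ca * G := by gcongr
    linarith
  obtain ⟨hx3, hcx⟩ := hX3 X (h43.trans ha)
  rw [← hx] at hx3 hcx
  have hx10 : (1 : ℝ) ≤ x ^ 10 := one_le_pow₀ (by linarith)
  -- (b)
  rcases lt_or_ge (L : ℝ) (Z * x ^ 10) with hb | hb
  · have h1 : (X : ℝ) ≤ G1 * x ^ 10 := by
      rw [hG1, div_mul_eq_mul_div, le_div_iff₀ hL0]
      nlinarith
    have h2 : (X : ℝ) ≤ G := by
      rw [hG]
      have : 0 ≤ G2 * x ^ 10 := by positivity
      nlinarith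
    linarith
  -- (c)
  rcases lt_or_ge (X : ℝ) (L ^ 4 * Z ^ 2 * (X : ℝ) ^ (3 / 4 : ℝ)) with hc' | hc'
  · rw [← hG2] at hc'
    have h2 : (X : ℝ) ≤ G := by
      rw [hG]
      have : 0 ≤ G1 * x ^ 10 := by positivity
      nlinarith
    linarith
  -- (d)
  obtain ⟨W, hW⟩ : ∃ W : ℕ, W = ⌊c2 * X / x⌋₊ := ⟨_, rfl⟩
  have hW1 : (W : ℝ) ≤ c2 * X / x := by rw [hW]; exact Nat.floor_le (by positivity)
  have hW2 : c2 * X / x < W + 1 := by rw [hW]; exact Nat.lt_floor_add_one _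
  have hW3 : c2 * X / (2 * x) ≤ W := by
    have : c2 * X / (2 * x) = (c2 * X / x) / 2 := by field_simp
    rw [this]
    linarith
  have hWpos : 0 < W := by
    have : (0 : ℝ) < W := by linarith
    exact_mod_cast this
  have hWX : W ≤ X := by
    have h1 : (W : ℝ) ≤ X := by
      refine hW1.trans ?_
      rw [div_le_iff₀ hx0]
      nlinarith
    exact_mod_cast h1
  obtain ⟨B, hB⟩ : ∃ B : ℝ, B = C1 * (X * Z * x ^ 6 / L +
    L ^ 4 * Z ^ 2 * (X : ℝ) ^ (3 / 4 : ℝ) * x ^ 9) := ⟨_, rfl⟩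
  have hB0 : 0 ≤ B := by rw [hB]; positivity
  have hblk : ∀ i : ℕ, ((F.filter fun p => (p - X) / W = i).card : ℝ) ≤ B := by
    intro i
    rcases (F.filter fun p => (p - X) / W = i).eq_empty_or_nonempty with he | ⟨p0, hp0⟩
    · rw [he, card_empty, Nat.cast_zero]
      exact hB0
    · have hmem : ∀ p ∈ F.filter (fun p => (p - X) / W = i), p.Prime ∧ X + i * W ≤ p ∧
          p < X + i * W + W ∧ p ≤ 2 * X ∧
          ((KK L Z p).ncard : ℝ) < c * p / (Z * Real.log p ^ 2) := by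
        intro p hp
        rw [mem_filter, hF, mem_filter, mem_Icc] at hp
        obtain ⟨⟨⟨h1, h2⟩, h3, h4⟩, h5⟩ := hp
        have h6 := Nat.div_add_mod (p - X) W
        rw [h5] at h6
        have h7 := Nat.mod_lt (p - X) hWpos
        have h8 : W * i = i * W := mul_comm _ _
        refine ⟨h3, by omega, by omega, h2, h4⟩
      have hu2 : X + i * W ≤ 2 * X := by
        have := hmem p0 hp0
        omega
      rw [hB, hx]
      apply hblock X L Z (X + i * W) W (h41.trans ha) hL hZ (by omega) hu2 (hx ▸ hW1) (hx ▸ hb) hc'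
      · intro q hq
        obtain ⟨h1, h2, h3, _, _⟩ := hmem q hq
        exact ⟨h1, h2, h3⟩
      · intro q hq
        obtain ⟨h1, h2, h3, h4, h5⟩ := hmem q hq
        by_contra hcon
        push Not at hcon
        have := hmany X L Z (X + i * W) q (h42.trans ha) hL hZ (by omega) hu2 h1 h2 (by omega)
          (hx ▸ hb) hc' hcon
        linarith
  have hsum : (F.card : ℝ) ≤ (X / W + 1 : ℕ) * B := by
    have h1 : F.card ≤ ∑ i ∈ range (X / W + 1), (F.filter fun p => (p - X) / W = i).card := by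
      rw [← card_eq_sum_card_fiberwise]
      intro p hp
      rw [mem_coe, hF, mem_filter, mem_Icc] at hp
      rw [mem_coe, mem_range, Nat.lt_succ_iff]
      exact Nat.div_le_div_right (by omega)
    calc (F.card : ℝ) ≤ ∑ i ∈ range (X / W + 1), ((F.filter fun p => (p - X) / W = i).card : ℝ) := by
          exact_mod_cast h1
      _ ≤ ∑ i ∈ range (X / W + 1), B := sum_le_sum fun i _ => hblk i
      _ = (X / W + 1 : ℕ) * B := by rw [sum_const, card_range, nsmul_eq_mul]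
  have hK : ((X / W + 1 : ℕ) : ℝ) ≤ 3 / c2 * x := by
    push_cast
    have h1 : ((X / W : ℕ) : ℝ) ≤ X / W := Nat.cast_div_le
    have h2 : (X : ℝ) / W ≤ 2 * x / c2 := by
      have hWr : (0 : ℝ) < W := by exact_mod_cast hWpos
      rw [div_le_div_iff₀ hWr hc2]
      rw [div_le_iff₀ (by positivity)] at hW3
      linarith
    have h3 : 1 ≤ x / c2 := by
      rw [le_div_iff₀ hc2]
      linarith
    have h4 : 3 / c2 * x = 2 * x / c2 + x / c2 := by ring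
    linarith
  have hfin : (X / W + 1 : ℕ) * B ≤ Cd * G := by
    calc (X / W + 1 : ℕ) * B ≤ (3 / c2 * x) * B := by gcongr
      _ = Cd * (G1 * x ^ 7 + G2 * x ^ 10) := by
        rw [hB, hCd, hG1, hG2]
        ring
      _ ≤ Cd * G := by
        rw [hG]
        have h1 : x ^ 7 ≤ x ^ 10 := pow_le_pow_right₀ (by linarith) (by norm_num)
        have h2 : G1 * x ^ 7 ≤ G1 * x ^ 10 := by gcongr
        apply mul_le_mul_of_nonneg_left _ hCd0
        linarith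
  linarith

end E2P
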